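import Mathlib

/-!
Linear decision trees, and the three-sum problem.
-/

namespace Pool.Agent.FourLin

/-- Three pairwise distinct positions `i`, `j`, `k` with `x i + x j = σ * x k`. For `σ = 1` this is
the question whether `a + b = c` has a solution in three different elements of the input, and for
`σ = -1` whether `a + b + c = 0` has one. -/
def HasSol {n : ℕ} (σ : ℝ) (x : Fin n → ℝ) : Prop :=
  ∃ i j k, i ≠ j ∧ i ≠ k ∧ j ≠ k ∧ x i + x j = σ * x k

/-- A linear decision tree: an inner node asks for the sign of `∑ i, c i * x i + b`, a leaf gives
the answer. -/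
inductive LTree (n : ℕ)
  | leaf (r : Bool)
  | node (c : Fin n → ℝ) (b : ℝ) (next : SignType → LTree n)

namespace LTree

variable {n : ℕ}

/-- The answer of the tree on the input `x`. -/
noncomputable def answer (x : Fin n → ℝ) : LTree n → Bool
  | leaf r => r
  | node c b next => (next (SignType.sign (∑ i, c i * x i + b))).answer x

/-- The number of questions which the tree asks on the input `x`. -/
noncomputable def cost (x : Fin n → ℝ) : LTree n → ℕ
  | leaf _ => 0
  | node c b next => (next (SignType.sign (∑ i, c i * x i + b))).cost x + 1

/-- Every question of the tree involves at most `s` of the input numbers. -/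
inductive Sparse (s : ℕ) : LTree n → Prop
  | leaf (r : Bool) : Sparse s (leaf r)
  | node (c : Fin n → ℝ) (b : ℝ) (next : SignType → LTree n) :
      {i | c i ≠ 0}.ncard ≤ s → (∀ t, Sparse s (next t)) → Sparse s (node c b next)

/-- The questions of a tree. -/
def questions : LTree n → Set ((Fin n → ℝ) × ℝ)
  | leaf _ => ∅
  | node c b next => insert (c, b) (⋃ t, (next t).questions)

lemma questions_finite (A : LTree n) : A.questions.Finite := by
  induction A with
  | leaf r => exact Set.finite_empty
  | node c b next ih => exact (Set.finite_iUnion ih).insert _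

lemma sparse_questions {s : ℕ} {A : LTree n} (h : A.Sparse s) :
    ∀ q ∈ A.questions, {i | q.1 i ≠ 0}.ncard ≤ s := by
  induction h with
  | leaf r => intro q hq; exact absurd hq (Set.notMem_empty _)
  | node c b next hc _ ih =>
    intro q hq
    rcases hq with rfl | hq
    · exact hc
    · obtain ⟨t, ht⟩ := Set.mem_iUnion.1 hq
      exact ih t q ht

open Classical in
/-- If every question of the tree distinguishes the input `x` from at most two of the inputs
`y t`, then the answer on `x` differs from the answer on `y t` for at most `2 * cost` values
of `t`. -/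
lemma card_answer_ne {T : Type*} [Fintype T] (x : Fin n → ℝ) (y : T → Fin n → ℝ) (A : LTree n)
    (h : ∀ q ∈ A.questions, (Finset.univ.filter fun t =>
      SignType.sign (∑ i, q.1 i * y t i + q.2) ≠ SignType.sign (∑ i, q.1 i * x i + q.2)).card ≤ 2) :
    (Finset.univ.filter fun t => A.answer (y t) ≠ A.answer x).card ≤ 2 * A.cost x := by
  induction A with
  | leaf r => simp [answer, cost]
  | node c b next ih =>
    set s := SignType.sign (∑ i, c i * x i + b) with hs
    have h1 := h (c, b) (Set.mem_insert _ _)
    have h2 := ih s (fun q hq => h q (Set.mem_insert_of_mem _ (Set.mem_iUnion.2 ⟨s, hq⟩)))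
    have hsub : (Finset.univ.filter fun t =>
        (node c b next).answer (y t) ≠ (node c b next).answer x) ⊆
        (Finset.univ.filter fun t => SignType.sign (∑ i, c i * y t i + b) ≠
          SignType.sign (∑ i, c i * x i + b)) ∪
        (Finset.univ.filter fun t => (next s).answer (y t) ≠ (next s).answer x) := by
      intro t ht
      simp only [Finset.mem_union, Finset.mem_filter, Finset.mem_univ, true_and] at ht ⊢
      by_contra hcon
      push Not at hcon
      obtain ⟨g1, g2⟩ := hcon
      apply ht
      simp only [answer]
      rw [g1, ← hs]
      exact g2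
    calc _ ≤ _ := Finset.card_le_card hsub
      _ ≤ _ := Finset.card_union_le _ _
      _ ≤ 2 + 2 * (next s).cost x := Nat.add_le_add h1 h2
      _ = 2 * (node c b next).cost x := by simp only [cost, ← hs]; ring

end LTree

/-- A list of `n` integers as a list of real numbers. -/
def toReal {n : ℕ} (x : Fin n → ℤ) : Fin n → ℝ := fun i => x i

open Classical in
/-- A randomised linear decision procedure, given by a probability distribution `μ` on a finite
family `A` of linear decision trees with questions on at most `s` input numbers. On every input of
`n` distinct integers the answer is correct with probability at least `2/3`, and the expected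
number of questions is at most `E`. -/
def Solver {Ω : Type} [Fintype Ω] (σ : ℝ) (n s : ℕ) (E : ℝ) (μ : Ω → ℝ) (A : Ω → LTree n) :
    Prop :=
  (∀ ω, 0 ≤ μ ω) ∧ ∑ ω, μ ω = 1 ∧ (∀ ω, (A ω).Sparse s) ∧
    ∀ x : Fin n → ℤ, Function.Injective x →
      (2 / 3 ≤ ∑ ω, if ((A ω).answer (toReal x) = true ↔ HasSol σ (toReal x)) then μ ω else 0) ∧
        ∑ ω, μ ω * ((A ω).cost (toReal x) : ℝ) ≤ E

end Pool.Agent.FourLin
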