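import Pool.Agent.FourLin.Circ
import Pool.Agent.FourLin.Defs

/-!
The adversary argument for four-linear decision trees, for a graph in which all four-cycles have
chords and a suitable family of perturbations.
-/

set_option linter.unusedSectionVars false
set_option linter.unusedSimpArgs false

namespace Pool.Agent.FourLin

open Finset Filter Topology

/-- Perturbations: `w` makes all triangles positive, `wt t` collapses the triangle `t` and keeps
the signs and the local order of all the other triangles. -/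
structure Pert {X I T : Type*} (Γ : TGraph X I T) where
  w : I → ℝ
  wt : T → I → ℝ
  pos : ∀ t, 0 < Γ.tau t w
  zero : ∀ t, Γ.tau t (wt t) = 0
  pos' : ∀ t t', t' ≠ t → 0 < Γ.tau t' (wt t)
  diff : ∀ t' t'' k, t' ≠ t'' → Γ.edge t' k = Γ.edge t'' k → Γ.tau t' w ≠ Γ.tau t'' w
  diff' : ∀ t t' t'' k, t' ≠ t'' → Γ.edge t' k = Γ.edge t'' k → t ≠ t' → t ≠ t'' →
    SignType.sign (Γ.tau t' (wt t) - Γ.tau t'' (wt t)) =
      SignType.sign (Γ.tau t' w - Γ.tau t'' w)

variable {X I T : Type*} [DecidableEq X] [Fintype I] [DecidableEq I] [Fintype T]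
variable {Γ : TGraph X I T}

open Classical in
lemma Pert.card_sign_ne (P : Pert Γ) {α : I → ℝ} (hc : Γ.IsCirc α)
    (hcard : (univ.filter (α · ≠ 0)).card ≤ 4) :
    (univ.filter fun t => SignType.sign (∑ e, α e * P.wt t e) ≠
      SignType.sign (∑ e, α e * P.w e)).card ≤ 2 := by
  by_cases h0 : α = 0
  · subst h0
    simp
  rcases Γ.classify hc hcard h0 with ⟨s, hs, t0, h⟩ | ⟨s, hs, t', t'', k, hne, hk, h⟩
  · calc _ ≤ ({t0} : Finset T).card := by
          apply Finset.card_le_card
          intro t ht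
          simp only [mem_filter, mem_univ, true_and] at ht
          by_contra hcon
          apply ht
          have hne : t0 ≠ t := fun h => hcon (by simp [h])
          rw [h, h, sign_mul, sign_mul, sign_pos (P.pos t0), sign_pos (P.pos' t t0 hne)]
      _ ≤ 2 := by simp
  · calc _ ≤ ({t', t''} : Finset T).card := by
          apply Finset.card_le_card
          intro t ht
          simp only [mem_filter, mem_univ, true_and] at ht
          by_contra hcon
          apply ht
          have hne1 : t ≠ t' := fun h => hcon (by simp [h])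
          have hne2 : t ≠ t'' := fun h => hcon (by simp [h])
          rw [h, h, sign_mul, sign_mul, P.diff' t t' t'' k hne hk hne1 hne2]
      _ ≤ 2 := Finset.card_le_two

lemma Pert.ne_zero (P : Pert Γ) {α : I → ℝ} (hc : Γ.IsCirc α)
    (hcard : (univ.filter (α · ≠ 0)).card ≤ 4) (h0 : α ≠ 0) : ∑ e, α e * P.w e ≠ 0 := by
  rcases Γ.classify hc hcard h0 with ⟨s, hs, t0, h⟩ | ⟨s, hs, t', t'', k, hne, hk, h⟩
  · rw [h]
    exact mul_ne_zero hs (P.pos t0).ne'
  · rw [h]
    exact mul_ne_zero hs (sub_ne_zero.2 (P.diff t' t'' k hne hk))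

lemma TGraph.circ_two {α : I → ℝ} (hc : Γ.IsCirc α) {a b : I} (h : ∀ e, α e ≠ 0 → e = a ∨ e = b) :
    α = 0 := by
  by_contra h0
  obtain ⟨e1, he1⟩ : ∃ e, α e ≠ 0 := by
    by_contra h
    push Not at h
    exact h0 (funext h)
  obtain ⟨e2, he2, h21, hi2⟩ := Γ.exists_other hc he1 (x := Γ.tgt e1) (Or.inr rfl)
  obtain ⟨e3, he3, h31, hi3⟩ := Γ.exists_other hc he1 (x := Γ.src e1) (Or.inl rfl)
  have h23 : e2 = e3 := by
    rcases h e1 he1 with rfl | rfl <;> rcases h e2 he2 with rfl | rfl <;>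
      rcases h e3 he3 with rfl | rfl <;> first | rfl | exact absurd rfl h21 | exact absurd rfl h31
  subst h23
  exact h21 (Γ.par hi3 hi2)

lemma TGraph.isCirc_of_potential {α : I → ℝ}
    (h : ∀ p : X → ℝ, ∑ e, α e * (p (Γ.src e) - p (Γ.tgt e)) = 0) : Γ.IsCirc α := by
  intro x
  have := h (fun y => if y = x then 1 else 0)
  simp only [mul_sub, mul_ite, mul_one, mul_zero, Finset.sum_sub_distrib] at this
  linarith

lemma sum_extend {n : ℕ} (emb : I ↪ Fin n) (c u : Fin n → ℝ) (g : I → ℝ) [DecidablePred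
    fun j => ∀ e, emb e ≠ j] :
    ∑ j, c j * Function.extend emb g u j =
      ∑ e, c (emb e) * g e + ∑ j ∈ univ.filter (fun j => ∀ e, emb e ≠ j), c j * u j := by
  classical
  rw [← Finset.sum_filter_add_sum_filter_not univ (fun j => ∀ e, emb e ≠ j), add_comm]
  congr 1
  · have : univ.filter (fun j => ¬ ∀ e, emb e ≠ j) = univ.map emb := by
      ext j
      simp
    rw [this, Finset.sum_map]
    apply Finset.sum_congr rfl
    intro e _
    rw [emb.injective.extend_apply]
  · apply Finset.sum_congr rfl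
    intro j hj
    rw [mem_filter] at hj
    rw [Function.extend_apply']
    rintro ⟨e, he⟩
    exact hj.2 e he

/-- The sign attached to an edge. -/
def sg (Γ : TGraph X I T) (σ : ℝ) (e : I) : ℝ := if Γ.col (Γ.src e) = 2 then -σ else 1

lemma sg_ne_zero {σ : ℝ} (hσ : σ = 1 ∨ σ = -1) (e : I) : sg Γ σ e ≠ 0 := by
  unfold sg
  rcases hσ with rfl | rfl <;> split_ifs <;> norm_num

/-- The value of an affine form as a functional of potentials, dummy values, and a scale. -/
noncomputable def Phi (Γ : TGraph X I T) (σ : ℝ) {n : ℕ} (emb : I ↪ Fin n)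
    (q : (Fin n → ℝ) × ℝ) : ((X → ℝ) × (Fin n → ℝ) × ℝ) →ₗ[ℝ] ℝ :=
  { toFun := fun θ => ∑ j, q.1 j * Function.extend emb
      (fun e => sg Γ σ e * (θ.1 (Γ.src e) - θ.1 (Γ.tgt e))) θ.2.1 j + q.2 * θ.2.2
    map_add' := by
      classical
      intro θ θ'
      simp only [sum_extend, Prod.fst_add, Prod.snd_add, Pi.add_apply]
      simp only [mul_sub, mul_add, Finset.sum_add_distrib, Finset.sum_sub_distrib]
      ring
    map_smul' := by
      classical
      intro r θ
      simp only [sum_extend, Prod.smul_fst, Prod.smul_snd, Pi.smul_apply, smul_eq_mul,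
        RingHom.id_apply, mul_add, Finset.mul_sum]
      congr 1
      · congr 1 <;> (apply Finset.sum_congr rfl; intro _ _; ring)
      · ring }

lemma Phi_apply (σ : ℝ) {n : ℕ} (emb : I ↪ Fin n) (q : (Fin n → ℝ) × ℝ)
    (θ : (X → ℝ) × (Fin n → ℝ) × ℝ) :
    Phi Γ σ emb q θ = ∑ j, q.1 j * Function.extend emb
      (fun e => sg Γ σ e * (θ.1 (Γ.src e) - θ.1 (Γ.tgt e))) θ.2.1 j + q.2 * θ.2.2 := rfl

lemma of_Phi_eq_zero (σ : ℝ) {n : ℕ} (emb : I ↪ Fin n) (q : (Fin n → ℝ) × ℝ)
    (h : Phi Γ σ emb q = 0) : q.2 = 0 ∧ (∀ j, (∀ e, emb e ≠ j) → q.1 j = 0) ∧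
      Γ.IsCirc (fun e => q.1 (emb e) * sg Γ σ e) := by
  classical
  have h' : ∀ θ : (X → ℝ) × (Fin n → ℝ) × ℝ,
      ∑ e, q.1 (emb e) * (sg Γ σ e * (θ.1 (Γ.src e) - θ.1 (Γ.tgt e))) +
      ∑ j ∈ univ.filter (fun j => ∀ e, emb e ≠ j), q.1 j * θ.2.1 j + q.2 * θ.2.2 = 0 := by
    intro θ
    rw [← sum_extend, ← Phi_apply, h]
    rfl
  refine ⟨?_, ?_, ?_⟩
  · simpa using h' (0, 0, 1)
  · intro j hj
    have := h' (0, Pi.single j 1, 0)
    simp only [Pi.zero_apply, sub_self, mul_zero, Finset.sum_const_zero, zero_add, add_zero] at this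
    rw [Finset.sum_eq_single j] at this
    · simpa using this
    · intro b _ hb
      simp [Pi.single_eq_of_ne hb]
    · intro hn
      exact absurd (by simpa using hj) hn
  · apply TGraph.isCirc_of_potential
    intro p
    have := h' (p, 0, 0)
    simp only [Pi.zero_apply, mul_zero, Finset.sum_const_zero, add_zero] at this
    rw [← this]
    apply Finset.sum_congr rfl
    intro _ _
    ring

end Pool.Agent.FourLin
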