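import Pool.Agent.FourLin.Adv

/-!
The adversary argument for four-linear decision trees: the inputs.
-/

set_option linter.unusedSectionVars false
set_option linter.unusedSimpArgs false

namespace Pool.Agent.FourLin

open Finset Filter Topology

variable {X I T : Type*} [DecidableEq X] [Fintype I] [DecidableEq I] [Fintype T]
variable {Γ : TGraph X I T}

lemma sign_add_of_lt {A B : ℝ} (h : |B| < |A|) : SignType.sign (A + B) = SignType.sign A := by
  rcases lt_trichotomy A 0 with hA | hA | hA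
  · rw [abs_of_neg hA] at h
    have := (abs_lt.1 h).2
    rw [sign_neg hA, sign_neg (by linarith)]
  · subst hA
    simp at h
    exact absurd h (not_lt.2 (abs_nonneg _))
  · rw [abs_of_pos hA] at h
    have := (abs_lt.1 h).1
    rw [sign_pos hA, sign_pos (by linarith)]

/-- The input attached to base data and a weight function. -/
noncomputable def inp (Γ : TGraph X I T) (σ : ℝ) {n : ℕ} (emb : I ↪ Fin n) (p : X → ℝ)
    (u : Fin n → ℝ) (ε : ℝ) (z : I → ℝ) : Fin n → ℝ :=
  Function.extend emb (fun e => sg Γ σ e * (p (Γ.src e) - p (Γ.tgt e) + ε * z e)) u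

lemma sum_inp (σ : ℝ) {n : ℕ} (emb : I ↪ Fin n) (p : X → ℝ)
    (u : Fin n → ℝ) (ε : ℝ) (z : I → ℝ) (c : Fin n → ℝ) :
    ∑ j, c j * inp Γ σ emb p u ε z j = Phi Γ σ emb (c, 0) (p, u, 1) +
      ε * ∑ e, (c (emb e) * sg Γ σ e) * z e := by
  classical
  rw [Phi_apply, inp, sum_extend, sum_extend]
  simp only [mul_add, Finset.sum_add_distrib, Finset.mul_sum]
  have : ∑ x, c (emb x) * (sg Γ σ x * (ε * z x)) =
      ∑ i, ε * (c (emb i) * sg Γ σ i * z i) := by
    apply Finset.sum_congr rfl
    intro _ _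
    ring
  rw [this]
  ring

lemma card_filter_le {n : ℕ} (emb : I ↪ Fin n) (c : Fin n → ℝ) (s : I → ℝ) (k : ℕ)
    (h : {i | c i ≠ 0}.ncard ≤ k) :
    (univ.filter (fun e => c (emb e) * s e ≠ 0)).card ≤ k := by
  classical
  refine le_trans ?_ h
  rw [← Set.ncard_coe_finset]
  have : (emb '' (↑(univ.filter (fun e => c (emb e) * s e ≠ 0)) : Set I)) ⊆ {i | c i ≠ 0} := by
    rintro _ ⟨e, he, rfl⟩
    simp only [coe_filter, mem_univ, true_and, Set.mem_setOf_eq] at he ⊢
    exact left_ne_zero_of_mul he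
  rw [← Set.ncard_image_of_injective _ emb.injective]
  exact Set.ncard_le_ncard this (Set.toFinite _)

open Classical in
theorem adversary (P : Pert Γ) {n : ℕ} (emb : I ↪ Fin n) {σ : ℝ} (hσ : σ = 1 ∨ σ = -1)
    (Q : Set ((Fin n → ℝ) × ℝ)) (hQ : Q.Finite) (hQ4 : ∀ q ∈ Q, {i | q.1 i ≠ 0}.ncard ≤ 4) :
    ∃ (x : Fin n → ℝ) (y : T → Fin n → ℝ), Function.Injective x ∧
      (∀ t, Function.Injective (y t)) ∧ ¬ HasSol σ x ∧ (∀ t, HasSol σ (y t)) ∧
      ∀ q ∈ Q, (univ.filter fun t => SignType.sign (∑ i, q.1 i * y t i + q.2) ≠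
        SignType.sign (∑ i, q.1 i * x i + q.2)).card ≤ 2 := by
  have hσ0 : σ ≠ 0 := by rcases hσ with rfl | rfl <;> norm_num
  have hσ2 : σ * σ = 1 := by rcases hσ with rfl | rfl <;> norm_num
  -- the forms we care about
  set F3 : Fin n × Fin n × Fin n → (Fin n → ℝ) × ℝ :=
    fun i => (Pi.single i.1 1 + Pi.single i.2.1 1 - σ • Pi.single i.2.2 1, 0) with hF3
  set F2 : Fin n × Fin n → (Fin n → ℝ) × ℝ :=
    fun i => (Pi.single i.1 1 - Pi.single i.2 1, 0) with hF2
  set S : Set ((Fin n → ℝ) × ℝ) := insert (0, 1) (Q ∪ (Set.range F3 ∪ Set.range F2)) with hSdef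
  have hS : S.Finite := (hQ.union ((Set.finite_range _).union (Set.finite_range _))).insert _
  have hQS : ∀ q ∈ Q, q ∈ S := fun q hq => Set.mem_insert_of_mem _ (Or.inl hq)
  have h3S : ∀ i, F3 i ∈ S := fun i => Set.mem_insert_of_mem _ (Or.inr (Or.inl ⟨i, rfl⟩))
  have h2S : ∀ i, F2 i ∈ S := fun i => Set.mem_insert_of_mem _ (Or.inr (Or.inr ⟨i, rfl⟩))
  -- a generic point
  obtain ⟨p, u, hgen⟩ : ∃ (p : X → ℝ) (u : Fin n → ℝ), ∀ q ∈ S, Phi Γ σ emb q ≠ 0 →
      Phi Γ σ emb q (p, u, 1) ≠ 0 := by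
    set S0 : Set ((Fin n → ℝ) × ℝ) := {q ∈ S | Phi Γ σ emb q ≠ 0}
    have hS0 : S0.Finite := hS.subset (Set.sep_subset _ _)
    haveI : Finite S0 := hS0
    obtain ⟨θ, hθ⟩ := Module.Dual.exists_forall_ne_zero_of_forall_exists
      (fun q : S0 => (Phi Γ σ emb q.1 : Module.Dual ℝ ((X → ℝ) × (Fin n → ℝ) × ℝ)))
      (by
        rintro ⟨q, hq⟩
        by_contra hcon
        push Not at hcon
        exact hq.2 (LinearMap.ext hcon))
    have hr : θ.2.2 ≠ 0 := by
      have h01 : ((0, 1) : (Fin n → ℝ) × ℝ) ∈ S0 := by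
        refine ⟨Set.mem_insert _ _, ?_⟩
        intro h0
        have := congrArg (fun f => f ((0, 0, 1) : (X → ℝ) × (Fin n → ℝ) × ℝ)) h0
        simp [Phi_apply] at this
      have := hθ ⟨_, h01⟩
      simpa [Phi_apply] using this
    refine ⟨θ.2.2⁻¹ • θ.1, θ.2.2⁻¹ • θ.2.1, ?_⟩
    intro q hq hq0
    have h1 := hθ ⟨q, hq, hq0⟩
    have h2 : ((θ.2.2⁻¹ • θ.1, θ.2.2⁻¹ • θ.2.1, 1) : (X → ℝ) × (Fin n → ℝ) × ℝ) =
        θ.2.2⁻¹ • θ := by
      ext <;> simp [hr]
    rw [h2, map_smul]
    exact smul_ne_zero (inv_ne_zero hr) h1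
  -- a small scale
  set zz : Option T → I → ℝ := fun o => o.elim P.w P.wt with hzz
  set A : ((Fin n → ℝ) × ℝ) → ℝ := fun q => Phi Γ σ emb q (p, u, 1) with hA
  set B : ((Fin n → ℝ) × ℝ) → Option T → ℝ :=
    fun q o => ∑ e, (q.1 (emb e) * sg Γ σ e) * zz o e with hB
  obtain ⟨ε, hε, hsmall⟩ : ∃ ε : ℝ, 0 < ε ∧ ∀ q ∈ S, ∀ o, A q ≠ 0 → |ε * B q o| < |A q| := by
    have : ∀ᶠ ε in 𝓝[>] (0 : ℝ), ∀ q ∈ S, ∀ o, A q ≠ 0 → |ε * B q o| < |A q| := by
      rw [eventually_all_finite hS]
      intro q _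
      rw [eventually_all]
      intro o
      by_cases h0 : A q = 0
      · exact Eventually.of_forall fun ε h => absurd h0 h
      · have ht : Tendsto (fun ε : ℝ => |ε * B q o|) (𝓝[>] 0) (𝓝 |0 * B q o|) := by
          apply Tendsto.mono_left _ nhdsWithin_le_nhds
          exact (continuous_id.mul continuous_const).abs.tendsto 0
        rw [zero_mul, abs_zero] at ht
        filter_upwards [ht.eventually (gt_mem_nhds (abs_pos.2 h0))] with ε hε _
        exact hε
    obtain ⟨ε, h1, h2⟩ := (this.and self_mem_nhdsWithin).exists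
    exact ⟨ε, h2, h1⟩
  -- evaluation
  have hval : ∀ (q : (Fin n → ℝ) × ℝ) (o : Option T),
      ∑ j, q.1 j * inp Γ σ emb p u ε (zz o) j + q.2 = A q + ε * B q o := by
    intro q o
    rw [sum_inp]
    simp only [hA, hB, Phi_apply]
    ring
  have hsign : ∀ q ∈ S, A q ≠ 0 → ∀ o,
      SignType.sign (∑ j, q.1 j * inp Γ σ emb p u ε (zz o) j + q.2) = SignType.sign (A q) := by
    intro q hq h0 o
    rw [hval]
    exact sign_add_of_lt (hsmall q hq o h0)
  have hne : ∀ q ∈ S, Phi Γ σ emb q ≠ 0 → ∀ o,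
      ∑ j, q.1 j * inp Γ σ emb p u ε (zz o) j + q.2 ≠ 0 := by
    intro q hq h0 o h
    have hA0 : A q ≠ 0 := hgen q hq h0
    have := hsign q hq hA0 o
    rw [h, sign_zero, eq_comm, sign_eq_zero_iff] at this
    exact hA0 this
  have hinj : ∀ o, Function.Injective (inp Γ σ emb p u ε (zz o)) := by
    intro o i j hij
    by_contra hne'
    have hzero : ∑ l, (F2 (i, j)).1 l * inp Γ σ emb p u ε (zz o) l + (F2 (i, j)).2 = 0 := by
      simp only [hF2, Pi.sub_apply, sub_mul, Finset.sum_sub_distrib, Pi.single_apply, ite_mul,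
        one_mul, zero_mul, Finset.sum_ite_eq', mem_univ, if_true, add_zero]
      rw [hij, sub_self]
    by_cases hP : Phi Γ σ emb (F2 (i, j)) = 0
    · obtain ⟨-, h2, h3⟩ := of_Phi_eq_zero σ emb _ hP
      have hi : (F2 (i, j)).1 i ≠ 0 := by
        simp only [hF2, Pi.sub_apply, Pi.single_eq_same, Pi.single_eq_of_ne hne', sub_zero]
        exact one_ne_zero
      have hj : (F2 (i, j)).1 j ≠ 0 := by
        simp only [hF2, Pi.sub_apply, Pi.single_eq_same, Pi.single_eq_of_ne (Ne.symm hne'),
          zero_sub]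
        norm_num
      obtain ⟨a, ha⟩ : ∃ a, emb a = i := by
        by_contra h; push Not at h; exact hi (h2 i h)
      obtain ⟨b, hb⟩ : ∃ b, emb b = j := by
        by_contra h; push Not at h; exact hj (h2 j h)
      have h4 := TGraph.circ_two h3 (a := a) (b := b) (by
        intro e he
        have h5 := left_ne_zero_of_mul he
        simp only [hF2, Pi.sub_apply, Pi.single_apply] at h5
        by_contra hcon
        push Not at hcon
        have e1 : emb e ≠ i := fun h => hcon.1 (emb.injective (h.trans ha.symm))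
        have e2 : emb e ≠ j := fun h => hcon.2 (emb.injective (h.trans hb.symm))
        simp [e1, e2] at h5)
      have h5 := congrFun h4 a
      simp only [ha, Pi.zero_apply] at h5
      exact mul_ne_zero hi (sg_ne_zero hσ a) h5
    · exact hne _ (h2S _) hP o hzero
  refine ⟨inp Γ σ emb p u ε (zz none), fun t => inp Γ σ emb p u ε (zz (some t)), hinj _,
    fun t => hinj _, ?_, ?_, ?_⟩
  · -- no solution
    rintro ⟨i, j, k, hij, hik, hjk, hsol⟩
    have hzero : ∑ l, (F3 (i, j, k)).1 l * inp Γ σ emb p u ε (zz none) l + (F3 (i, j, k)).2 =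
        0 := by
      simp only [hF3, Pi.sub_apply, Pi.add_apply, Pi.smul_apply, smul_eq_mul, sub_mul, add_mul,
        Finset.sum_sub_distrib, Finset.sum_add_distrib, Pi.single_apply, ite_mul, mul_ite,
        mul_one, mul_zero,
        one_mul, zero_mul, Finset.sum_ite_eq', mem_univ, if_true, add_zero]
      linarith
    by_cases hP : Phi Γ σ emb (F3 (i, j, k)) = 0
    · obtain ⟨hb0, h2, h3⟩ := of_Phi_eq_zero σ emb _ hP
      have hA0 : A (F3 (i, j, k)) = 0 := by simp only [hA, hP, LinearMap.zero_apply]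
      rw [hval, hA0, zero_add] at hzero
      have hi : (F3 (i, j, k)).1 i ≠ 0 := by
        simp [hF3, Pi.single_eq_of_ne hij, Pi.single_eq_of_ne hik]
      obtain ⟨a, ha⟩ : ∃ a, emb a = i := by
        by_contra h; push Not at h; exact hi (h2 i h)
      have hsupp : {l | (F3 (i, j, k)).1 l ≠ 0}.ncard ≤ 4 := by
        calc _ ≤ ({i, j, k} : Set (Fin n)).ncard := by
              apply Set.ncard_le_ncard _ (Set.toFinite _)
              intro l hl
              by_contra hcon
              simp only [Set.mem_insert_iff, Set.mem_singleton_iff, not_or] at hcon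
              apply hl
              simp [hF3, Pi.single_eq_of_ne hcon.1, Pi.single_eq_of_ne hcon.2.1,
                Pi.single_eq_of_ne hcon.2.2]
          _ ≤ 3 := by
              have := Set.ncard_insert_le i ({j, k} : Set (Fin n))
              have := Set.ncard_insert_le j ({k} : Set (Fin n))
              have := Set.ncard_singleton k
              omega
          _ ≤ 4 := by norm_num
      have hcard := card_filter_le emb (F3 (i, j, k)).1 (sg Γ σ) 4 hsupp
      have hnz : (fun e => (F3 (i, j, k)).1 (emb e) * sg Γ σ e) ≠ 0 := by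
        intro h
        have h5 := congrFun h a
        simp only [ha, Pi.zero_apply] at h5
        exact mul_ne_zero hi (sg_ne_zero hσ a) h5
      exact mul_ne_zero hε.ne' (P.ne_zero h3 hcard hnz) hzero
    · exact hne _ (h3S _) hP none hzero
  · -- solutions
    intro t
    have hcoln : ∀ k k', k ≠ k' → emb (Γ.edge t k) ≠ emb (Γ.edge t k') := by
      intro k k' hk h
      have := emb.injective h
      have h1 := Γ.edge_col t k
      rw [this, Γ.edge_col] at h1
      exact hk h1.symm
    refine ⟨emb (Γ.edge t 0), emb (Γ.edge t 1), emb (Γ.edge t 2), hcoln _ _ (by decide),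
      hcoln _ _ (by decide), hcoln _ _ (by decide), ?_⟩
    have hz := P.zero t
    unfold TGraph.tau at hz
    have h3 : (Finset.univ : Finset (ZMod 3)) = {0, 1, 2} := by decide
    rw [h3, Finset.sum_insert (by decide), Finset.sum_insert (by decide),
      Finset.sum_singleton] at hz
    have n0 := Γ.edge_next t 0
    have n1 := Γ.edge_next t 1
    have n2 := Γ.edge_next t 2
    rw [show (0 + 1 : ZMod 3) = 1 by decide] at n0
    rw [show (1 + 1 : ZMod 3) = 2 by decide] at n1
    rw [show (2 + 1 : ZMod 3) = 0 by decide] at n2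
    simp only [inp, emb.injective.extend_apply, sg, Γ.edge_col, if_true, n0, n1, n2]
    rw [if_neg (by decide), if_neg (by decide)]
    simp only [hzz, Option.elim]
    linear_combination (-ε) * (-hz) + (p (Γ.src (Γ.edge t 2)) - p (Γ.src (Γ.edge t 0)) +
      ε * P.wt t (Γ.edge t 2)) * hσ2
  · intro q hq
    by_cases hP : Phi Γ σ emb q = 0
    · obtain ⟨hb0, h2, h3⟩ := of_Phi_eq_zero σ emb _ hP
      have hA0 : A q = 0 := by simp only [hA, hP, LinearMap.zero_apply]
      have hcard := card_filter_le emb q.1 (sg Γ σ) 4 (hQ4 q hq)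
      have := P.card_sign_ne h3 hcard
      refine le_trans (Finset.card_le_card ?_) this
      intro t ht
      simp only [mem_filter, mem_univ, true_and] at ht ⊢
      intro hcon
      apply ht
      rw [hval, hval, hA0, zero_add, zero_add, sign_mul, sign_mul]
      simp only [hB, hzz, Option.elim]
      rw [hcon]
    · have hA0 : A q ≠ 0 := hgen q (hQS q hq) hP
      have : (univ.filter fun t => SignType.sign
          (∑ i, q.1 i * inp Γ σ emb p u ε (zz (some t)) i + q.2) ≠
          SignType.sign (∑ i, q.1 i * inp Γ σ emb p u ε (zz none) i + q.2)) = ∅ := by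
        rw [Finset.filter_eq_empty_iff]
        intro t _ hcon
        apply hcon
        rw [hsign q (hQS q hq) hA0, hsign q (hQS q hq) hA0]
      rw [this]
      simp

end Pool.Agent.FourLin
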