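import Pool.Agent.FourLin.Adv2

/-!
The adversary argument for four-linear decision trees with integer inputs.
-/

set_option linter.unusedSectionVars false
set_option linter.unusedSimpArgs false

namespace Pool.Agent.FourLin

open Finset Filter Topology

variable {X I T : Type*} [DecidableEq X] [Fintype I] [DecidableEq I] [Fintype T]
variable {Γ : TGraph X I T}

/-- Finitely many non-zero additive real functions on an additive group have a common point at
which they do not vanish. -/
lemma exists_forall_addHom_ne_zero {V : Type*} [AddCommGroup V] {ι : Type*} {s : Set ι}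
    (hs : s.Finite) (f : ι → V →+ ℝ) (h : ∀ i ∈ s, ∃ v, f i v ≠ 0) : ∃ v, ∀ i ∈ s, f i v ≠ 0 := by
  classical
  by_contra hcon
  push Not at hcon
  have hcov : ⋃ i ∈ hs.toFinset, ((AddSubgroup.toIntSubmodule (f i).ker : Submodule ℤ V) : Set V) =
      Set.univ := by
    rw [Set.eq_univ_iff_forall]
    intro v
    obtain ⟨i, hi, hv⟩ := hcon v
    simp only [Set.mem_iUnion]
    exact ⟨i, hs.mem_toFinset.2 hi, hv⟩
  obtain ⟨i, hi, hfin⟩ := Submodule.exists_finiteIndex_of_cover hcov
  obtain ⟨v, hv⟩ := h i (hs.mem_toFinset.1 hi)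
  have hmem := AddSubgroup.nsmul_index_mem
    (Submodule.toAddSubgroup (AddSubgroup.toIntSubmodule (f i).ker : Submodule ℤ V)) v
  have h0 : f i ((Submodule.toAddSubgroup
    (AddSubgroup.toIntSubmodule (f i).ker : Submodule ℤ V)).index • v) = 0 := hmem
  rw [map_nsmul, nsmul_eq_mul] at h0
  rcases mul_eq_zero.1 h0 with h1 | h1
  · exact hfin.index_ne_zero (by exact_mod_cast h1)
  · exact hv h1

/-- The value of a linear form at integer potentials and integer dummy values. -/
noncomputable def PhiZ (Γ : TGraph X I T) (σ : ℝ) {n : ℕ} (emb : I ↪ Fin n)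
    (c : Fin n → ℝ) : ((X → ℤ) × (Fin n → ℤ)) →+ ℝ :=
  { toFun := fun θ => Phi Γ σ emb (c, 0) (fun x => (θ.1 x : ℝ), fun i => (θ.2 i : ℝ), 1)
    map_zero' := by
      classical
      simp only [Phi_apply, sum_extend, Prod.fst_zero, Prod.snd_zero, Pi.zero_apply, Int.cast_zero,
        sub_self, mul_zero, Finset.sum_const_zero, zero_mul, add_zero]
    map_add' := by
      classical
      intro θ θ'
      simp only [Phi_apply, sum_extend, Prod.fst_add, Prod.snd_add, Pi.add_apply, Int.cast_add]
      simp only [mul_sub, mul_add, Finset.sum_add_distrib, Finset.sum_sub_distrib]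
      ring }

lemma PhiZ_apply (σ : ℝ) {n : ℕ} (emb : I ↪ Fin n) (c : Fin n → ℝ)
    (θ : (X → ℤ) × (Fin n → ℤ)) :
    PhiZ Γ σ emb c θ = Phi Γ σ emb (c, 0) (fun x => (θ.1 x : ℝ), fun i => (θ.2 i : ℝ), 1) := rfl

lemma of_PhiZ_eq_zero (σ : ℝ) {n : ℕ} (emb : I ↪ Fin n) (c : Fin n → ℝ)
    (h : ∀ θ, PhiZ Γ σ emb c θ = 0) : (∀ j, (∀ e, emb e ≠ j) → c j = 0) ∧
      Γ.IsCirc (fun e => c (emb e) * sg Γ σ e) := by
  classical
  have h' : ∀ θ : (X → ℤ) × (Fin n → ℤ),
      ∑ e, c (emb e) * (sg Γ σ e * ((θ.1 (Γ.src e) : ℝ) - (θ.1 (Γ.tgt e) : ℝ))) +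
      ∑ j ∈ univ.filter (fun j => ∀ e, emb e ≠ j), c j * (θ.2 j : ℝ) = 0 := by
    intro θ
    have := h θ
    rw [PhiZ_apply, Phi_apply, sum_extend] at this
    simpa using this
  refine ⟨?_, ?_⟩
  · intro j hj
    have := h' (0, Pi.single j 1)
    simp only [Pi.zero_apply, Int.cast_zero, sub_self, mul_zero, Finset.sum_const_zero,
      zero_add] at this
    rw [Finset.sum_eq_single j] at this
    · simpa using this
    · intro b _ hb
      simp [Pi.single_eq_of_ne hb]
    · intro hn
      exact absurd (by simpa using hj) hn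
  · intro x
    have := h' (fun y => if y = x then 1 else 0, 0)
    simp only [Pi.zero_apply, Int.cast_zero, mul_zero, Finset.sum_const_zero, add_zero,
      Int.cast_ite, Int.cast_one] at this
    simp only [mul_sub, mul_ite, mul_one, mul_zero, Finset.sum_sub_distrib] at this
    linarith

open Classical in
/-- Integer version of `adversary`. The inputs are `x = N * (potential differences, dummies) +
M * w` with generic integer potentials and dummies, `M` larger than all `|b|`, and `N` large
against `M`. -/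
theorem adversaryZ (P : Pert Γ) (hw : ∀ e, ∃ z : ℤ, P.w e = z) (hwt : ∀ t e, ∃ z : ℤ,
    P.wt t e = z) {n : ℕ} (emb : I ↪ Fin n) {σ : ℝ} (hσ : σ = 1 ∨ σ = -1)
    (Q : Set ((Fin n → ℝ) × ℝ)) (hQ : Q.Finite) (hQ4 : ∀ q ∈ Q, {i | q.1 i ≠ 0}.ncard ≤ 4) :
    ∃ (x : Fin n → ℤ) (y : T → Fin n → ℤ), Function.Injective x ∧
      (∀ t, Function.Injective (y t)) ∧ ¬ HasSol σ (fun i => (x i : ℝ)) ∧
      (∀ t, HasSol σ (fun i => (y t i : ℝ))) ∧
      ∀ q ∈ Q, (univ.filter fun t => SignType.sign (∑ i, q.1 i * (y t i : ℝ) + q.2) ≠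
        SignType.sign (∑ i, q.1 i * (x i : ℝ) + q.2)).card ≤ 2 := by
  have hσ2 : σ * σ = 1 := by rcases hσ with rfl | rfl <;> norm_num
  -- the forms we care about
  set F3 : Fin n × Fin n × Fin n → (Fin n → ℝ) × ℝ :=
    fun i => (Pi.single i.1 1 + Pi.single i.2.1 1 - σ • Pi.single i.2.2 1, 0) with hF3
  set F2 : Fin n × Fin n → (Fin n → ℝ) × ℝ :=
    fun i => (Pi.single i.1 1 - Pi.single i.2 1, 0) with hF2
  set S : Set ((Fin n → ℝ) × ℝ) := Q ∪ (Set.range F3 ∪ Set.range F2) with hSdef
  have hS : S.Finite := hQ.union ((Set.finite_range _).union (Set.finite_range _))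
  have hQS : ∀ q ∈ Q, q ∈ S := fun q hq => Or.inl hq
  have h3S : ∀ i, F3 i ∈ S := fun i => Or.inr (Or.inl ⟨i, rfl⟩)
  have h2S : ∀ i, F2 i ∈ S := fun i => Or.inr (Or.inr ⟨i, rfl⟩)
  -- a generic integer point
  obtain ⟨θ, hgen⟩ : ∃ θ : (X → ℤ) × (Fin n → ℤ), ∀ q ∈ S, PhiZ Γ σ emb q.1 θ = 0 →
      ∀ θ', PhiZ Γ σ emb q.1 θ' = 0 := by
    obtain ⟨θ, hθ⟩ := exists_forall_addHom_ne_zero
      (s := {q ∈ S | ∃ θ', PhiZ Γ σ emb q.1 θ' ≠ 0}) (hS.subset (Set.sep_subset _ _))
      (fun q : (Fin n → ℝ) × ℝ => PhiZ Γ σ emb q.1) (fun q hq => hq.2)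
    refine ⟨θ, fun q hq h0 => ?_⟩
    by_contra hcon
    push Not at hcon
    exact hθ q ⟨hq, hcon⟩ h0
  set p : X → ℝ := fun x => (θ.1 x : ℝ) with hp
  set u : Fin n → ℝ := fun i => (θ.2 i : ℝ) with hu
  set zz : Option T → I → ℝ := fun o => o.elim P.w P.wt with hzz
  have hzzZ : ∀ o e, ∃ z : ℤ, zz o e = z := by
    intro o e
    cases o with
    | none => exact hw e
    | some t => exact hwt t e
  set A : ((Fin n → ℝ) × ℝ) → ℝ := fun q => Phi Γ σ emb (q.1, 0) (p, u, 1) with hA
  have hAgen : ∀ q ∈ S, A q = 0 → (∀ j, (∀ e, emb e ≠ j) → q.1 j = 0) ∧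
      Γ.IsCirc (fun e => q.1 (emb e) * sg Γ σ e) := by
    intro q hq h0
    exact of_PhiZ_eq_zero σ emb q.1 (hgen q hq h0)
  set B : ((Fin n → ℝ) × ℝ) → Option T → ℝ :=
    fun q o => ∑ e, (q.1 (emb e) * sg Γ σ e) * zz o e with hB
  -- the scales
  obtain ⟨M, hM, hMb⟩ : ∃ M : ℕ, 0 < M ∧ ∀ q ∈ S, ∀ o, B q o ≠ 0 → |q.2| < |(M : ℝ) * B q o| := by
    have : ∀ᶠ M : ℕ in atTop, ∀ q ∈ S, ∀ o, B q o ≠ 0 → |q.2| < |(M : ℝ) * B q o| := by
      rw [eventually_all_finite hS]
      intro q _
      rw [eventually_all]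
      intro o
      by_cases h0 : B q o = 0
      · exact Eventually.of_forall fun ε h => absurd h0 h
      · have ht : Tendsto (fun M : ℕ => (M : ℝ) * |B q o|) atTop atTop :=
          tendsto_natCast_atTop_atTop.atTop_mul_const (abs_pos.2 h0)
        filter_upwards [ht.eventually_gt_atTop |q.2|] with M hM _
        rw [abs_mul, Nat.abs_cast]
        exact hM
    obtain ⟨M, h1, h2⟩ := (this.and (eventually_gt_atTop 0)).exists
    exact ⟨M, h2, h1⟩
  obtain ⟨N, hN, hNb⟩ : ∃ N : ℕ, 0 < N ∧ ∀ q ∈ S, ∀ o, A q ≠ 0 →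
      |(M : ℝ) * B q o + q.2| < |(N : ℝ) * A q| := by
    have : ∀ᶠ N : ℕ in atTop, ∀ q ∈ S, ∀ o, A q ≠ 0 →
        |(M : ℝ) * B q o + q.2| < |(N : ℝ) * A q| := by
      rw [eventually_all_finite hS]
      intro q _
      rw [eventually_all]
      intro o
      by_cases h0 : A q = 0
      · exact Eventually.of_forall fun ε h => absurd h0 h
      · have ht : Tendsto (fun N : ℕ => (N : ℝ) * |A q|) atTop atTop :=
          tendsto_natCast_atTop_atTop.atTop_mul_const (abs_pos.2 h0)
        filter_upwards [ht.eventually_gt_atTop |(M : ℝ) * B q o + q.2|] with N hN _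
        rw [abs_mul (N : ℝ), Nat.abs_cast]
        exact hN
    obtain ⟨N, h1, h2⟩ := (this.and (eventually_gt_atTop 0)).exists
    exact ⟨N, h2, h1⟩
  have hM0 : (0 : ℝ) < M := by exact_mod_cast hM
  have hN0 : (0 : ℝ) < N := by exact_mod_cast hN
  -- the inputs
  have hint : ∀ (o : Option T) (j : Fin n), ∃ z : ℤ,
      (z : ℝ) = N * inp Γ σ emb p u ((M : ℝ) / N) (zz o) j := by
    intro o j
    by_cases hj : ∃ e, emb e = j
    · obtain ⟨e, rfl⟩ := hj
      rw [inp, emb.injective.extend_apply]
      obtain ⟨z, hz⟩ := hzzZ o e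
      obtain ⟨s, hs⟩ : ∃ s : ℤ, (s : ℝ) = sg Γ σ e := by
        unfold sg
        rcases hσ with rfl | rfl <;> split_ifs
        · exact ⟨-1, by norm_num⟩
        · exact ⟨1, by norm_num⟩
        · exact ⟨1, by norm_num⟩
        · exact ⟨1, by norm_num⟩
      refine ⟨s * (N * (θ.1 (Γ.src e) - θ.1 (Γ.tgt e)) + M * z), ?_⟩
      rw [hz, ← hs]
      push_cast
      simp only [hp]
      field_simp
    · rw [inp, Function.extend_apply' _ _ _ hj]
      exact ⟨N * θ.2 j, by push_cast; rfl⟩
  choose x hx using hint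
  have hval : ∀ (q : (Fin n → ℝ) × ℝ) (o : Option T),
      ∑ j, q.1 j * (x o j : ℝ) + q.2 = N * A q + (M * B q o + q.2) := by
    intro q o
    have h1 : ∑ j, q.1 j * (x o j : ℝ) =
        N * ∑ j, q.1 j * inp Γ σ emb p u ((M : ℝ) / N) (zz o) j := by
      rw [Finset.mul_sum]
      apply Finset.sum_congr rfl
      intro j _
      rw [hx]
      ring
    rw [h1, sum_inp]
    simp only [hA, hB]
    field_simp
    ring
  have hsign : ∀ q ∈ S, A q ≠ 0 → ∀ o,
      SignType.sign (∑ j, q.1 j * (x o j : ℝ) + q.2) = SignType.sign (A q) := by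
    intro q hq h0 o
    rw [hval, sign_add_of_lt (hNb q hq o h0), sign_mul, sign_pos hN0, one_mul]
  have hne : ∀ q ∈ S, A q ≠ 0 → ∀ o, ∑ j, q.1 j * (x o j : ℝ) + q.2 ≠ 0 := by
    intro q hq hA0 o h
    have := hsign q hq hA0 o
    rw [h, sign_zero, eq_comm, sign_eq_zero_iff] at this
    exact hA0 this
  have hsign2 : ∀ q ∈ S, A q = 0 → ∀ o, B q o ≠ 0 →
      SignType.sign (∑ j, q.1 j * (x o j : ℝ) + q.2) = SignType.sign (B q o) := by
    intro q hq h0 o hB0
    rw [hval, h0, mul_zero, zero_add, sign_add_of_lt (hMb q hq o hB0), sign_mul, sign_pos hM0,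
      one_mul]
  have hinj : ∀ o, Function.Injective (x o) := by
    intro o i j hij
    by_contra hne'
    have hzero : ∑ l, (F2 (i, j)).1 l * (x o l : ℝ) + (F2 (i, j)).2 = 0 := by
      simp only [hF2, Pi.sub_apply, sub_mul, Finset.sum_sub_distrib, Pi.single_apply, ite_mul,
        one_mul, zero_mul, Finset.sum_ite_eq', mem_univ, if_true, add_zero]
      rw [hij, sub_self]
    by_cases hP : A (F2 (i, j)) = 0
    · obtain ⟨h2, h3⟩ := hAgen _ (h2S _) hP
      have hi : (F2 (i, j)).1 i ≠ 0 := by
        simp only [hF2, Pi.sub_apply, Pi.single_eq_same, Pi.single_eq_of_ne hne', sub_zero]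
        exact one_ne_zero
      have hj : (F2 (i, j)).1 j ≠ 0 := by
        simp only [hF2, Pi.sub_apply, Pi.single_eq_same, Pi.single_eq_of_ne (Ne.symm hne'),
          zero_sub]
        norm_num
      obtain ⟨a, ha⟩ : ∃ a, emb a = i := by
        by_contra h; push Not at h; exact hi (h2 i h)
      obtain ⟨b, hb⟩ : ∃ b, emb b = j := by
        by_contra h; push Not at h; exact hj (h2 j h)
      have h4 := TGraph.circ_two h3 (a := a) (b := b) (by
        intro e he
        have h5 := left_ne_zero_of_mul he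
        simp only [hF2, Pi.sub_apply, Pi.single_apply] at h5
        by_contra hcon
        push Not at hcon
        have e1 : emb e ≠ i := fun h => hcon.1 (emb.injective (h.trans ha.symm))
        have e2 : emb e ≠ j := fun h => hcon.2 (emb.injective (h.trans hb.symm))
        simp [e1, e2] at h5)
      have h5 := congrFun h4 a
      simp only [ha, Pi.zero_apply] at h5
      exact mul_ne_zero hi (sg_ne_zero hσ a) h5
    · exact hne _ (h2S _) hP o hzero
  refine ⟨x none, fun t => x (some t), hinj _, fun t => hinj _, ?_, ?_, ?_⟩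
  · -- no solution
    rintro ⟨i, j, k, hij, hik, hjk, hsol⟩
    have hzero : ∑ l, (F3 (i, j, k)).1 l * (x none l : ℝ) + (F3 (i, j, k)).2 = 0 := by
      simp only [hF3, Pi.sub_apply, Pi.add_apply, Pi.smul_apply, smul_eq_mul, sub_mul, add_mul,
        Finset.sum_sub_distrib, Finset.sum_add_distrib, Pi.single_apply, ite_mul, mul_ite,
        mul_one, mul_zero,
        one_mul, zero_mul, Finset.sum_ite_eq', mem_univ, if_true, add_zero]
      linarith
    by_cases hP : A (F3 (i, j, k)) = 0
    · obtain ⟨h2, h3⟩ := hAgen _ (h3S _) hP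
      have hi : (F3 (i, j, k)).1 i ≠ 0 := by
        simp [hF3, Pi.single_eq_of_ne hij, Pi.single_eq_of_ne hik]
      obtain ⟨a, ha⟩ : ∃ a, emb a = i := by
        by_contra h; push Not at h; exact hi (h2 i h)
      have hsupp : {l | (F3 (i, j, k)).1 l ≠ 0}.ncard ≤ 4 := by
        calc _ ≤ ({i, j, k} : Set (Fin n)).ncard := by
              apply Set.ncard_le_ncard _ (Set.toFinite _)
              intro l hl
              by_contra hcon
              simp only [Set.mem_insert_iff, Set.mem_singleton_iff, not_or] at hcon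
              apply hl
              simp [hF3, Pi.single_eq_of_ne hcon.1, Pi.single_eq_of_ne hcon.2.1,
                Pi.single_eq_of_ne hcon.2.2]
          _ ≤ 3 := by
              have := Set.ncard_insert_le i ({j, k} : Set (Fin n))
              have := Set.ncard_insert_le j ({k} : Set (Fin n))
              have := Set.ncard_singleton k
              omega
          _ ≤ 4 := by norm_num
      have hcard := card_filter_le emb (F3 (i, j, k)).1 (sg Γ σ) 4 hsupp
      have hnz : (fun e => (F3 (i, j, k)).1 (emb e) * sg Γ σ e) ≠ 0 := by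
        intro h
        have h5 := congrFun h a
        simp only [ha, Pi.zero_apply] at h5
        exact mul_ne_zero hi (sg_ne_zero hσ a) h5
      have hB0 : B (F3 (i, j, k)) none ≠ 0 := P.ne_zero h3 hcard hnz
      have h6 := hsign2 _ (h3S _) hP none hB0
      rw [hzero, sign_zero, eq_comm, sign_eq_zero_iff] at h6
      exact hB0 h6
    · exact hne _ (h3S _) hP none hzero
  · -- solutions
    intro t
    have hcoln : ∀ k k', k ≠ k' → emb (Γ.edge t k) ≠ emb (Γ.edge t k') := by
      intro k k' hk h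
      have := emb.injective h
      have h1 := Γ.edge_col t k
      rw [this, Γ.edge_col] at h1
      exact hk h1.symm
    refine ⟨emb (Γ.edge t 0), emb (Γ.edge t 1), emb (Γ.edge t 2), hcoln _ _ (by decide),
      hcoln _ _ (by decide), hcoln _ _ (by decide), ?_⟩
    have hz := P.zero t
    unfold TGraph.tau at hz
    have h3 : (Finset.univ : Finset (ZMod 3)) = {0, 1, 2} := by decide
    rw [h3, Finset.sum_insert (by decide), Finset.sum_insert (by decide),
      Finset.sum_singleton] at hz
    have n0 := Γ.edge_next t 0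
    have n1 := Γ.edge_next t 1
    have n2 := Γ.edge_next t 2
    rw [show (0 + 1 : ZMod 3) = 1 by decide] at n0
    rw [show (1 + 1 : ZMod 3) = 2 by decide] at n1
    rw [show (2 + 1 : ZMod 3) = 0 by decide] at n2
    simp only [hx, inp, emb.injective.extend_apply, sg, Γ.edge_col, if_true, n0, n1, n2]
    rw [if_neg (by decide), if_neg (by decide)]
    simp only [hzz, Option.elim]
    linear_combination (-((M : ℝ) / N) * N) * (-hz) +
      N * (p (Γ.src (Γ.edge t 2)) - p (Γ.src (Γ.edge t 0)) +
      (M : ℝ) / N * P.wt t (Γ.edge t 2)) * hσ2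
  · intro q hq
    by_cases hP : A q = 0
    · obtain ⟨h2, h3⟩ := hAgen q (hQS q hq) hP
      have hcard := card_filter_le emb q.1 (sg Γ σ) 4 (hQ4 q hq)
      by_cases hzero : (fun e => q.1 (emb e) * sg Γ σ e) = 0
      · have hB0 : ∀ o, B q o = 0 := by
          intro o
          simp only [hB]
          apply Finset.sum_eq_zero
          intro e _
          have := congrFun hzero e
          simp only [Pi.zero_apply] at this
          rw [this, zero_mul]
        have : (univ.filter fun t => SignType.sign (∑ i, q.1 i * (x (some t) i : ℝ) + q.2) ≠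
            SignType.sign (∑ i, q.1 i * (x none i : ℝ) + q.2)) = ∅ := by
          rw [Finset.filter_eq_empty_iff]
          intro t _ hcon
          apply hcon
          rw [hval, hval, hB0, hB0]
        rw [this]
        simp
      · have hB0 : B q none ≠ 0 := P.ne_zero h3 hcard hzero
        have := P.card_sign_ne h3 hcard
        refine le_trans (Finset.card_le_card ?_) this
        intro t ht
        simp only [mem_filter, mem_univ, true_and] at ht ⊢
        intro hcon
        apply ht
        have hcon' : SignType.sign (B q (some t)) = SignType.sign (B q none) := hcon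
        have hB1 : B q (some t) ≠ 0 := by
          intro h
          rw [h, sign_zero, eq_comm, sign_eq_zero_iff] at hcon'
          exact hB0 hcon'
        rw [hsign2 q (hQS q hq) hP _ hB0, hsign2 q (hQS q hq) hP _ hB1, hcon']
    · have : (univ.filter fun t => SignType.sign (∑ i, q.1 i * (x (some t) i : ℝ) + q.2) ≠
          SignType.sign (∑ i, q.1 i * (x none i : ℝ) + q.2)) = ∅ := by
        rw [Finset.filter_eq_empty_iff]
        intro t _ hcon
        apply hcon
        rw [hsign q (hQS q hq) hP, hsign q (hQS q hq) hP]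
      rw [this]
      simp

end Pool.Agent.FourLin
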