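import Mathlib

/-!
Oriented three-coloured graphs in which every four-cycle has a chord, and the circulations
supported on at most four edges of such a graph.
-/

set_option linter.unusedSectionVars false
set_option linter.unusedSimpArgs false

namespace Pool.Agent.FourLin

open Finset

/-- A graph with vertices coloured by `ZMod 3`, edges oriented from colour `i` to colour `i + 1`,
without parallel edges, with a chord in every four-cycle, together with its family of triangles. -/
structure TGraph (X I T : Type*) where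
  src : I → X
  tgt : I → X
  col : X → ZMod 3
  col_tgt : ∀ e, col (tgt e) = col (src e) + 1
  simple : ∀ e e', src e = src e' → tgt e = tgt e' → e = e'
  no2 : ∀ a b c d, src a = src b → tgt b = tgt c → src c = src d → tgt d = tgt a →
    a = b ∨ b = c ∨ c = d ∨ d = a
  chord : ∀ a a' b b', tgt a = tgt a' → src b = src b' → tgt b = src a → tgt b' = src a' →
    a = a' ∨ ∃ c, src c = tgt a ∧ tgt c = src b
  edge : T → ZMod 3 → I
  tri : ∀ a b c, tgt a = src b → tgt b = src c → tgt c = src a →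
    ∃ t k, a = edge t k ∧ b = edge t (k + 1) ∧ c = edge t (k + 2)
  edge_col : ∀ t k, col (src (edge t k)) = k
  edge_next : ∀ t k, tgt (edge t k) = src (edge t (k + 1))

variable {X I T : Type*} [DecidableEq X] [Fintype I] [DecidableEq I]

namespace TGraph

variable (Γ : TGraph X I T)

/-- The value of a triangle at a weight function. -/
def tau (t : T) (u : I → ℝ) : ℝ := ∑ k, u (Γ.edge t k)

/-- Circulations. -/
def IsCirc (α : I → ℝ) : Prop :=
  ∀ x : X, ∑ e, (if Γ.src e = x then α e else 0) = ∑ e, (if Γ.tgt e = x then α e else 0)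

lemma z3 (k : ZMod 3) : k + 1 ≠ k ∧ k + 1 + 1 ≠ k ∧ k + 1 + 1 + 1 = k ∧ k + 2 = k + 1 + 1 ∧
    k + 1 ≠ k + 1 + 1 := by
  revert k; decide

lemma src_ne_tgt (e : I) : Γ.src e ≠ Γ.tgt e := by
  intro h
  have := Γ.col_tgt e
  rw [← h] at this
  exact (z3 (Γ.col (Γ.src e))).1 this.symm

/-- Incidence. -/
def Inc (e : I) (x : X) : Prop := Γ.src e = x ∨ Γ.tgt e = x

lemma par {e e1 : I} (ha : Γ.Inc e (Γ.src e1)) (hb : Γ.Inc e (Γ.tgt e1)) : e = e1 := by
  have hne := Γ.src_ne_tgt e1
  have c1 := Γ.col_tgt e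
  have c2 := Γ.col_tgt e1
  rcases ha with ha | ha <;> rcases hb with hb | hb
  · exact absurd (ha.symm.trans hb) hne
  · exact Γ.simple _ _ ha hb
  · exfalso
    rw [ha, hb, c2] at c1
    exact (z3 (Γ.col (Γ.src e1))).2.1 c1.symm
  · exact absurd (ha.symm.trans hb) hne

lemma exists_other {α : I → ℝ} (hc : Γ.IsCirc α) {e : I} (he : α e ≠ 0) {x : X}
    (hx : Γ.Inc e x) : ∃ e', α e' ≠ 0 ∧ e' ≠ e ∧ Γ.Inc e' x := by
  by_contra hcon
  push Not at hcon
  have key : ∀ e', e' ≠ e → (Γ.Inc e' x → α e' = 0) := by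
    intro e' hne hi
    by_contra h0
    exact hcon e' h0 hne hi
  have h := hc x
  have h1 : ∑ e', (if Γ.src e' = x then α e' else 0) = if Γ.src e = x then α e else 0 := by
    apply Finset.sum_eq_single e
    · intro b _ hb
      split_ifs with h
      · exact key b hb (Or.inl h)
      · rfl
    · intro h; exact absurd (Finset.mem_univ _) h
  have h2 : ∑ e', (if Γ.tgt e' = x then α e' else 0) = if Γ.tgt e = x then α e else 0 := by
    apply Finset.sum_eq_single e
    · intro b _ hb
      split_ifs with h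
      · exact key b hb (Or.inr h)
      · rfl
    · intro h; exact absurd (Finset.mem_univ _) h
  rw [h1, h2] at h
  have hne := Γ.src_ne_tgt e
  rcases hx with hx | hx
  · have : Γ.tgt e ≠ x := fun h' => hne (hx.trans h'.symm)
    simp [hx, this] at h
    exact he h
  · have : Γ.src e ≠ x := fun h' => hne (h'.trans hx.symm)
    simp [hx, this] at h
    exact he h.symm

lemma sum_four {g : I → ℝ} {e1 e2 e3 e4 : I} (h12 : e1 ≠ e2) (h13 : e1 ≠ e3) (h14 : e1 ≠ e4)
    (h23 : e2 ≠ e3) (h24 : e2 ≠ e4) (h34 : e3 ≠ e4)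
    (h : ∀ e, g e ≠ 0 → e = e1 ∨ e = e2 ∨ e = e3 ∨ e = e4) :
    ∑ e, g e = g e1 + (g e2 + (g e3 + g e4)) := by
  have : ∑ e, g e = ∑ e ∈ ({e1, e2, e3, e4} : Finset I), g e := by
    symm
    apply Finset.sum_subset (Finset.subset_univ _)
    intro e _ he
    by_contra h0
    apply he
    simpa using h e h0
  rw [this, Finset.sum_insert, Finset.sum_insert, Finset.sum_insert, Finset.sum_singleton]
  · simpa using h34
  · simp [h23, h24]
  · simp [h12, h13, h14]

lemma sum_three {g : I → ℝ} {e1 e2 e3 : I} (h12 : e1 ≠ e2) (h13 : e1 ≠ e3) (h23 : e2 ≠ e3)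
    (h : ∀ e, g e ≠ 0 → e = e1 ∨ e = e2 ∨ e = e3) :
    ∑ e, g e = g e1 + (g e2 + g e3) := by
  have : ∑ e, g e = ∑ e ∈ ({e1, e2, e3} : Finset I), g e := by
    symm
    apply Finset.sum_subset (Finset.subset_univ _)
    intro e _ he
    by_contra h0
    apply he
    simpa using h e h0
  rw [this, Finset.sum_insert, Finset.sum_insert, Finset.sum_singleton]
  · simpa using h23
  · simp [h12, h13]

lemma tau_eq {t : T} {k : ZMod 3} {a b c : I} (ha : a = Γ.edge t k) (hb : b = Γ.edge t (k + 1))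
    (hc : c = Γ.edge t (k + 2)) (u : I → ℝ) : u a + u b + u c = Γ.tau t u := by
  subst ha hb hc
  unfold tau
  have h : ∀ f : ZMod 3 → ℝ, ∀ k : ZMod 3, f k + f (k + 1) + f (k + 2) = ∑ k, f k := by
    intro f k
    have h3 : (Finset.univ : Finset (ZMod 3)) = {0, 1, 2} := by decide
    rw [h3, Finset.sum_insert (by decide), Finset.sum_insert (by decide), Finset.sum_singleton]
    fin_cases k
    · show f 0 + f (0 + 1) + f (0 + 2) = _
      rw [zero_add, zero_add]; ring
    · show f 1 + f (1 + 1) + f (1 + 2) = _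
      have e1 : (1 + 1 : ZMod 3) = 2 := by decide
      have e2 : (1 + 2 : ZMod 3) = 0 := by decide
      rw [e1, e2]; ring
    · show f 2 + f (2 + 1) + f (2 + 2) = _
      have e1 : (2 + 1 : ZMod 3) = 0 := by decide
      have e2 : (2 + 2 : ZMod 3) = 1 := by decide
      rw [e1, e2]; ring
  exact h (fun k => u (Γ.edge t k)) k

/-- The two kinds of short circulations. -/
def Short (α : I → ℝ) : Prop :=
  (∃ s : ℝ, s ≠ 0 ∧ ∃ t, ∀ u : I → ℝ, ∑ e, α e * u e = s * Γ.tau t u) ∨
  (∃ s : ℝ, s ≠ 0 ∧ ∃ t t' k, t ≠ t' ∧ Γ.edge t k = Γ.edge t' k ∧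
    ∀ u : I → ℝ, ∑ e, α e * u e = s * (Γ.tau t u - Γ.tau t' u))

/-- Four-cycles with a chord. -/
lemma short_of_chord {α : I → ℝ} {a a' b b' c : I} (hab : a ≠ a')
    (h1 : Γ.tgt a = Γ.tgt a') (h2 : Γ.src b = Γ.src b') (h3 : Γ.tgt b = Γ.src a)
    (h4 : Γ.tgt b' = Γ.src a') (h5 : Γ.src c = Γ.tgt a) (h6 : Γ.tgt c = Γ.src b)
    (s : ℝ) (hs : s ≠ 0)
    (hα : ∀ u : I → ℝ, ∑ e, α e * u e = s * (u a + u b - u a' - u b')) : Γ.Short α := by
  obtain ⟨t, k, ha, hc, hb⟩ := Γ.tri a c b h5.symm h6 h3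
  obtain ⟨t', k', ha', hc', hb'⟩ := Γ.tri a' c b' (h1.symm.trans h5.symm) (h6.trans h2) h4
  have hk : k + 1 = k' + 1 := by
    rw [← Γ.edge_col t (k + 1), ← Γ.edge_col t' (k' + 1), ← hc, ← hc']
  have hk' : k = k' := add_right_cancel hk
  subst hk'
  refine Or.inr ⟨s, hs, t, t', k + 1, ?_, ?_, ?_⟩
  · rintro rfl
    exact hab (ha.trans ha'.symm)
  · rw [← hc, ← hc']
  · intro u
    rw [hα u, ← Γ.tau_eq ha hc hb u, ← Γ.tau_eq ha' hc' hb' u]
    ring

lemma exists_fourth {α : I → ℝ} (hc : Γ.IsCirc α)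
    (hdist : ∀ {e1 e2 e3 e4 : I}, e1 ≠ e2 → e1 ≠ e3 → e1 ≠ e4 → e2 ≠ e3 → e2 ≠ e4 → e3 ≠ e4 →
      α e1 ≠ 0 → α e2 ≠ 0 → α e3 ≠ 0 → α e4 ≠ 0 →
      ∀ e, α e ≠ 0 → e = e1 ∨ e = e2 ∨ e = e3 ∨ e = e4)
    {e1 e2 e3 : I} (he1 : α e1 ≠ 0) (he2 : α e2 ≠ 0) (he3 : α e3 ≠ 0) (h12 : e1 ≠ e2)
    (h13 : e1 ≠ e3) (h23 : e2 ≠ e3) {c d : X} (hc2 : Γ.Inc e2 c) (hd3 : Γ.Inc e3 d)
    (hc1 : ¬ Γ.Inc e1 c) (hc3 : ¬ Γ.Inc e3 c) (hd1 : ¬ Γ.Inc e1 d) (hd2 : ¬ Γ.Inc e2 d) :
    ∃ e4, α e4 ≠ 0 ∧ e1 ≠ e4 ∧ e2 ≠ e4 ∧ e3 ≠ e4 ∧ Γ.Inc e4 c ∧ Γ.Inc e4 d := by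
  obtain ⟨e4, he4, h42, hi4⟩ := Γ.exists_other hc he2 hc2
  obtain ⟨e5, he5, h53, hi5⟩ := Γ.exists_other hc he3 hd3
  have h14 : e1 ≠ e4 := by rintro rfl; exact hc1 hi4
  have h34 : e3 ≠ e4 := by rintro rfl; exact hc3 hi4
  have h15 : e5 ≠ e1 := by rintro rfl; exact hd1 hi5
  have h25 : e5 ≠ e2 := by rintro rfl; exact hd2 hi5
  rcases hdist h12 h13 h14 h23 h42.symm h34 he1 he2 he3 he4 e5 he5 with h | h | h | h
  · exact absurd h h15
  · exact absurd h h25
  · exact absurd h h53
  · subst h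
    exact ⟨e5, he4, h14, h42.symm, h34, hi4, hi5⟩

theorem classify {α : I → ℝ} (hc : Γ.IsCirc α) (hcard : (univ.filter (α · ≠ 0)).card ≤ 4)
    (h0 : α ≠ 0) : Γ.Short α := by
  obtain ⟨e1, he1⟩ : ∃ e, α e ≠ 0 := by
    by_contra h
    push Not at h
    exact h0 (funext h)
  have hdist : ∀ {e1 e2 e3 e4 : I}, e1 ≠ e2 → e1 ≠ e3 → e1 ≠ e4 → e2 ≠ e3 → e2 ≠ e4 → e3 ≠ e4 →
      α e1 ≠ 0 → α e2 ≠ 0 → α e3 ≠ 0 → α e4 ≠ 0 →
      ∀ e, α e ≠ 0 → e = e1 ∨ e = e2 ∨ e = e3 ∨ e = e4 := by
    intro e1 e2 e3 e4 h12 h13 h14 h23 h24 h34 a1 a2 a3 a4 e he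
    by_contra hcon
    push Not at hcon
    obtain ⟨n1, n2, n3, n4⟩ := hcon
    have hsub : ({e, e1, e2, e3, e4} : Finset I) ⊆ univ.filter (α · ≠ 0) := by
      intro x hx
      simp only [mem_insert, mem_singleton] at hx
      simp only [mem_filter, mem_univ, true_and]
      rcases hx with rfl | rfl | rfl | rfl | rfl <;> assumption
    have hc5 : ({e, e1, e2, e3, e4} : Finset I).card = 5 := by
      rw [card_insert_of_notMem, card_insert_of_notMem, card_insert_of_notMem,
        card_insert_of_notMem, card_singleton]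
      · simpa using h34
      · simp [h23, h24]
      · simp [h12, h13, h14]
      · simp [n1, n2, n3, n4]
    have := Finset.card_le_card hsub
    omega
  have hcol := Γ.col_tgt
  obtain ⟨e2, he2, h21, hi2⟩ := Γ.exists_other hc he1 (x := Γ.tgt e1) (Or.inr rfl)
  obtain ⟨e3, he3, h31, hi3⟩ := Γ.exists_other hc he1 (x := Γ.src e1) (Or.inl rfl)
  have h23 : e2 ≠ e3 := by
    rintro rfl
    exact h21 (Γ.par hi3 hi2)
  have h12 := h21.symm
  have h13 := h31.symm
  have hsum : ∀ {e1 e2 e3 e4 : I}, e1 ≠ e2 → e1 ≠ e3 → e1 ≠ e4 → e2 ≠ e3 → e2 ≠ e4 → e3 ≠ e4 →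
      α e1 ≠ 0 → α e2 ≠ 0 → α e3 ≠ 0 → α e4 ≠ 0 → ∀ w : I → ℝ,
      ∑ e, α e * w e = α e1 * w e1 + (α e2 * w e2 + (α e3 * w e3 + α e4 * w e4)) := by
    intro e1 e2 e3 e4 h12 h13 h14 h23 h24 h34 a1 a2 a3 a4 w
    apply sum_four h12 h13 h14 h23 h24 h34
    intro e he
    exact hdist h12 h13 h14 h23 h24 h34 a1 a2 a3 a4 e (left_ne_zero_of_mul he)
  have hcirc : ∀ x : X, ∑ e, α e * ((if Γ.src e = x then (1 : ℝ) else 0) -
      (if Γ.tgt e = x then 1 else 0)) = 0 := by
    intro x
    have := hc x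
    simp only [mul_sub, mul_ite, mul_one, mul_zero, Finset.sum_sub_distrib]
    linarith
  -- names for the vertices
  obtain ⟨a, sa⟩ : ∃ a, Γ.src e1 = a := ⟨_, rfl⟩
  obtain ⟨b, tb⟩ : ∃ b, Γ.tgt e1 = b := ⟨_, rfl⟩
  have hab : a ≠ b := by rw [← sa, ← tb]; exact Γ.src_ne_tgt e1
  rw [tb] at hi2
  rw [sa] at hi3
  have cb : Γ.col b = Γ.col a + 1 := by rw [← sa, ← tb]; exact hcol e1
  obtain ⟨z1, z2, z3', z4, z5⟩ := z3 (Γ.col a)
  rcases hi2 with s2 | t2 <;> rcases hi3 with s3 | t3
  · -- a → b → c, a → d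
    obtain ⟨c, tc⟩ : ∃ c, Γ.tgt e2 = c := ⟨_, rfl⟩
    obtain ⟨d, td⟩ : ∃ d, Γ.tgt e3 = d := ⟨_, rfl⟩
    have cc : Γ.col c = Γ.col a + 1 + 1 := by rw [← tc, hcol e2, s2, cb]
    have cd : Γ.col d = Γ.col a + 1 := by rw [← td, hcol e3, s3]
    have hac : a ≠ c := by rintro rfl; exact z2 cc.symm
    have had : a ≠ d := by rintro rfl; exact z1 cd.symm
    have hbc : b ≠ c := by rw [← s2, ← tc]; exact Γ.src_ne_tgt e2
    have hcd : c ≠ d := by rintro rfl; exact z5 (cd.symm.trans cc)
    have hbd : b ≠ d := by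
      rintro rfl
      exact h31 (Γ.simple _ _ (s3.trans sa.symm) (td.trans tb.symm))
    obtain ⟨e4, he4, h14, h24, h34, i1, i2⟩ := Γ.exists_fourth hc hdist he1 he2 he3 h12 h13 h23
      (c := c) (d := d) (Or.inr tc) (Or.inr td)
      (by rintro (h | h)
          · exact hac (sa.symm.trans h)
          · exact hbc (tb.symm.trans h))
      (by rintro (h | h)
          · exact hac (s3.symm.trans h)
          · exact hcd (h.symm.trans td))
      (by rintro (h | h)
          · exact had (sa.symm.trans h)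
          · exact hbd (tb.symm.trans h))
      (by rintro (h | h)
          · exact hbd (s2.symm.trans h)
          · exact hcd (tc.symm.trans h))
    have c4 := hcol e4
    rcases i1 with s4 | t4
    · rcases i2 with s4' | t4
      · exact absurd (s4.symm.trans s4') hcd
      · exfalso
        rw [s4, t4, cc, cd] at c4
        rw [z3'] at c4
        exact z1 c4
    · rcases i2 with s4 | t4'
      swap
      · exact absurd (t4.symm.trans t4') hcd
      have hS := hsum h12 h13 h14 h23 h24 h34 he1 he2 he3 he4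
      have eb := hcirc b
      have ea := hcirc a
      have ed := hcirc d
      rw [hS] at ea eb ed
      simp only [sa, tb, s2, tc, s3, td, s4, t4, if_true, hab, hab.symm, hac, hac.symm, had,
        had.symm, hbc, hbc.symm, hbd, hbd.symm, hcd, hcd.symm, if_false] at ea eb ed
      rcases Γ.chord e2 e4 e1 e3 (tc.trans t4.symm) (sa.trans s3.symm) (tb.trans s2.symm)
        (td.trans s4.symm) with h | ⟨c', hc1, hc2⟩
      · exact absurd h h24
      · apply Γ.short_of_chord h24 (tc.trans t4.symm) (sa.trans s3.symm) (tb.trans s2.symm)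
          (td.trans s4.symm) hc1 hc2 (α e1) he1
        intro u
        rw [hS]
        have f2 : α e2 = α e1 := by linarith
        have f3 : α e3 = - α e1 := by linarith
        have f4 : α e4 = - α e1 := by linarith
        rw [f2, f3, f4]
        ring
  · -- a → b → c, d → a
    obtain ⟨c, tc⟩ : ∃ c, Γ.tgt e2 = c := ⟨_, rfl⟩
    obtain ⟨d, sd⟩ : ∃ d, Γ.src e3 = d := ⟨_, rfl⟩
    have cc : Γ.col c = Γ.col a + 1 + 1 := by rw [← tc, hcol e2, s2, cb]
    have cd : Γ.col d = Γ.col a + 1 + 1 := by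
      have := hcol e3
      rw [t3, sd] at this
      have h2 : Γ.col a + 1 + 1 = Γ.col d + (1 + 1 + 1) := by rw [this]; ring
      rw [h2, show (1 + 1 + 1 : ZMod 3) = 0 by decide, add_zero]
    have hac : a ≠ c := by rintro rfl; exact z2 cc.symm
    have had : a ≠ d := by rw [← sd, ← t3]; exact (Γ.src_ne_tgt e3).symm
    have hbc : b ≠ c := by rw [← s2, ← tc]; exact Γ.src_ne_tgt e2
    have hbd : b ≠ d := by rintro rfl; exact z5 (cb.symm.trans cd)
    by_cases hcd : c = d
    · -- triangle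
      subst hcd
      have hsup : ∀ e, α e ≠ 0 → e = e1 ∨ e = e2 ∨ e = e3 := by
        intro e4 he4
        by_contra hcon
        push Not at hcon
        obtain ⟨n1, n2, n3⟩ := hcon
        have hend : ∀ x, Γ.Inc e4 x → x = a ∨ x = b ∨ x = c := by
          intro x hx
          obtain ⟨e', he', hne, hi'⟩ := Γ.exists_other hc he4 hx
          rcases hdist h12 h13 n1.symm h23 n2.symm n3.symm he1 he2 he3 he4 e' he' with
            rfl | rfl | rfl | rfl
          · rcases hi' with h | h
            · exact Or.inl (h.symm.trans sa)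
            · exact Or.inr (Or.inl (h.symm.trans tb))
          · rcases hi' with h | h
            · exact Or.inr (Or.inl (h.symm.trans s2))
            · exact Or.inr (Or.inr (h.symm.trans tc))
          · rcases hi' with h | h
            · exact Or.inr (Or.inr (h.symm.trans sd))
            · exact Or.inl (h.symm.trans t3)
          · exact absurd rfl hne
        have c4 := hcol e4
        rcases hend _ (Or.inl rfl) with hs | hs | hs <;>
          rcases hend _ (Or.inr rfl) with ht | ht | ht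
        · exact Γ.src_ne_tgt e4 (hs.trans ht.symm)
        · exact n1 (Γ.simple _ _ (hs.trans sa.symm) (ht.trans tb.symm))
        · rw [hs, ht, cc] at c4
          exact z5 (c4.symm)
        · rw [hs, ht, cb] at c4
          exact z2 c4.symm
        · exact Γ.src_ne_tgt e4 (hs.trans ht.symm)
        · exact n2 (Γ.simple _ _ (hs.trans s2.symm) (ht.trans tc.symm))
        · exact n3 (Γ.simple _ _ (hs.trans sd.symm) (ht.trans t3.symm))
        · rw [hs, ht, cc, cb, z3'] at c4
          exact z1 c4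
        · exact Γ.src_ne_tgt e4 (hs.trans ht.symm)
      have hS : ∀ w : I → ℝ, ∑ e, α e * w e = α e1 * w e1 + (α e2 * w e2 + α e3 * w e3) := by
        intro w
        apply sum_three h12 h13 h23
        intro e he
        exact hsup e (left_ne_zero_of_mul he)
      have eb := hcirc b
      have ec := hcirc c
      rw [hS] at eb ec
      simp only [sa, tb, s2, tc, sd, t3, if_true, hab, hab.symm, hac, hac.symm, hbc, hbc.symm,
        if_false] at eb ec
      obtain ⟨t, k, g1, g2, g3⟩ := Γ.tri e1 e2 e3 (tb.trans s2.symm) (tc.trans sd.symm)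
        (t3.trans sa.symm)
      refine Or.inl ⟨α e1, he1, t, ?_⟩
      intro u
      rw [hS, ← Γ.tau_eq g1 g2 g3 u]
      have f2 : α e2 = α e1 := by linarith
      have f3 : α e3 = α e1 := by linarith
      rw [f2, f3]
      ring
    · exfalso
      obtain ⟨e4, he4, h14, h24, h34, i1, i2⟩ := Γ.exists_fourth hc hdist he1 he2 he3 h12 h13 h23
        (c := c) (d := d) (Or.inr tc) (Or.inl sd)
        (by rintro (h | h)
            · exact hac (sa.symm.trans h)
            · exact hbc (tb.symm.trans h))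
        (by rintro (h | h)
            · exact hcd (h.symm.trans sd)
            · exact hac (t3.symm.trans h))
        (by rintro (h | h)
            · exact had (sa.symm.trans h)
            · exact hbd (tb.symm.trans h))
        (by rintro (h | h)
            · exact hbd (s2.symm.trans h)
            · exact hcd (tc.symm.trans h))
      have c4 := hcol e4
      have hz : ∀ k : ZMod 3, k + 1 + 1 ≠ k + 1 + 1 + 1 := by decide
      rcases i1 with s4 | t4
      · rcases i2 with s4' | t4
        · exact hcd (s4.symm.trans s4')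
        · rw [s4, t4, cc, cd] at c4
          exact hz _ c4
      · rcases i2 with s4 | t4'
        · rw [s4, t4, cc, cd] at c4
          exact hz _ c4
        · exact hcd (t4.symm.trans t4')
  · -- a → b ← c, a → d
    exfalso
    obtain ⟨c, sc⟩ : ∃ c, Γ.src e2 = c := ⟨_, rfl⟩
    obtain ⟨d, td⟩ : ∃ d, Γ.tgt e3 = d := ⟨_, rfl⟩
    have cc : Γ.col c = Γ.col a := by
      have := hcol e2
      rw [t2, sc, cb] at this
      exact (add_right_cancel this).symm
    have cd : Γ.col d = Γ.col a + 1 := by rw [← td, hcol e3, s3]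
    have hac : a ≠ c := by
      rintro rfl
      exact h21 (Γ.simple _ _ (sc.trans sa.symm) (t2.trans tb.symm))
    have had : a ≠ d := by rintro rfl; exact z1 cd.symm
    have hbc : b ≠ c := by rw [← t2, ← sc]; exact (Γ.src_ne_tgt e2).symm
    have hcd : c ≠ d := by
      rintro rfl
      exact z1 (cd.symm.trans cc)
    have hbd : b ≠ d := by
      rintro rfl
      exact h31 (Γ.simple _ _ (s3.trans sa.symm) (td.trans tb.symm))
    obtain ⟨e4, he4, h14, h24, h34, i1, i2⟩ := Γ.exists_fourth hc hdist he1 he2 he3 h12 h13 h23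
      (c := c) (d := d) (Or.inl sc) (Or.inr td)
      (by rintro (h | h)
          · exact hac (sa.symm.trans h)
          · exact hbc (tb.symm.trans h))
      (by rintro (h | h)
          · exact hac (s3.symm.trans h)
          · exact hcd (h.symm.trans td))
      (by rintro (h | h)
          · exact had (sa.symm.trans h)
          · exact hbd (tb.symm.trans h))
      (by rintro (h | h)
          · exact hcd (sc.symm.trans h)
          · exact hbd (t2.symm.trans h))
    have c4 := hcol e4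
    rcases i1 with s4 | t4
    · rcases i2 with s4' | t4
      · exact hcd (s4.symm.trans s4')
      · rcases Γ.no2 e1 e3 e4 e2 (sa.trans s3.symm) (td.trans t4.symm) (s4.trans sc.symm)
          (t2.trans tb.symm) with h | h | h | h
        · exact h13 h
        · exact h34 h
        · exact h24 h.symm
        · exact h12 h.symm
    · rcases i2 with s4 | t4'
      · rw [s4, t4, cc, cd] at c4
        exact z2 c4.symm
      · exact hcd (t4.symm.trans t4')
  · -- a → b ← c, d → a
    obtain ⟨c, sc⟩ : ∃ c, Γ.src e2 = c := ⟨_, rfl⟩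
    obtain ⟨d, sd⟩ : ∃ d, Γ.src e3 = d := ⟨_, rfl⟩
    have cc : Γ.col c = Γ.col a := by
      have := hcol e2
      rw [t2, sc, cb] at this
      exact (add_right_cancel this).symm
    have cd : Γ.col d = Γ.col a + 1 + 1 := by
      have := hcol e3
      rw [t3, sd] at this
      have h2 : Γ.col a + 1 + 1 = Γ.col d + (1 + 1 + 1) := by rw [this]; ring
      rw [h2, show (1 + 1 + 1 : ZMod 3) = 0 by decide, add_zero]
    have hac : a ≠ c := by
      rintro rfl
      exact h21 (Γ.simple _ _ (sc.trans sa.symm) (t2.trans tb.symm))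
    have had : a ≠ d := by rw [← sd, ← t3]; exact (Γ.src_ne_tgt e3).symm
    have hbc : b ≠ c := by rw [← t2, ← sc]; exact (Γ.src_ne_tgt e2).symm
    have hbd : b ≠ d := by rintro rfl; exact z5 (cb.symm.trans cd)
    have hcd : c ≠ d := by
      rintro rfl
      exact z2 (cd.symm.trans cc)
    obtain ⟨e4, he4, h14, h24, h34, i1, i2⟩ := Γ.exists_fourth hc hdist he1 he2 he3 h12 h13 h23
      (c := c) (d := d) (Or.inl sc) (Or.inl sd)
      (by rintro (h | h)
          · exact hac (sa.symm.trans h)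
          · exact hbc (tb.symm.trans h))
      (by rintro (h | h)
          · exact hcd (h.symm.trans sd)
          · exact hac (t3.symm.trans h))
      (by rintro (h | h)
          · exact had (sa.symm.trans h)
          · exact hbd (tb.symm.trans h))
      (by rintro (h | h)
          · exact hcd (sc.symm.trans h)
          · exact hbd (t2.symm.trans h))
    have c4 := hcol e4
    rcases i1 with s4 | t4
    · rcases i2 with s4' | t4
      · exact absurd (s4.symm.trans s4') hcd
      · exfalso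
        rw [s4, t4, cc, cd] at c4
        exact z5 c4.symm
    · rcases i2 with s4 | t4'
      swap
      · exact absurd (t4.symm.trans t4') hcd
      have hS := hsum h12 h13 h14 h23 h24 h34 he1 he2 he3 he4
      have eb := hcirc b
      have ea := hcirc a
      have ec := hcirc c
      rw [hS] at ea eb ec
      simp only [sa, tb, sc, t2, sd, t3, s4, t4, if_true, hab, hab.symm, hac, hac.symm, had,
        had.symm, hbc, hbc.symm, hbd, hbd.symm, hcd, hcd.symm, if_false] at ea eb ec
      rcases Γ.chord e1 e2 e3 e4 (tb.trans t2.symm) (sd.trans s4.symm) (t3.trans sa.symm)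
        (t4.trans sc.symm) with h | ⟨c', hc1, hc2⟩
      · exact absurd h h12
      · apply Γ.short_of_chord h12 (tb.trans t2.symm) (sd.trans s4.symm) (t3.trans sa.symm)
          (t4.trans sc.symm) hc1 hc2 (α e1) he1
        intro u
        rw [hS]
        have f2 : α e2 = - α e1 := by linarith
        have f3 : α e3 = α e1 := by linarith
        have f4 : α e4 = - α e1 := by linarith
        rw [f2, f3, f4]
        ring

end TGraph

end Pool.Agent.FourLin
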