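import Pool.Agent.FourLin.Words

/-!
Reduced words have different values, by means of matrices over a field generated by an element
of large degree.
-/

set_option linter.unusedSectionVars false
set_option linter.unusedSimpArgs false

namespace Pool.Agent.FourLin

open Finset Polynomial Matrix

/-- The three vectors. -/
def vv (F : Type*) [Field F] : ZMod 3 → Fin 2 → F := ![![1, 0], ![1, 1], ![0, 1]]

/-- The three functionals. -/
def ff (F : Type*) [Field F] (i : ZMod 3) : Fin 2 → F := ![-(vv F i 1), vv F i 0]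

/-- The pairing is the determinant. -/
def dd (F : Type*) [Field F] (i j : ZMod 3) : F := ff F i 0 * vv F j 0 + ff F i 1 * vv F j 1

variable {F : Type*} [Field F]

lemma dd_self (i : ZMod 3) : dd F i i = 0 := by
  simp only [dd, ff]
  simp only [Matrix.cons_val_zero, Matrix.cons_val_one]
  ring

lemma dd_ne {i j : ZMod 3} (h : i ≠ j) : dd F i j ≠ 0 := by
  revert h
  fin_cases i <;> fin_cases j <;> intro h <;>
    first
    | exact absurd rfl h
    | (simp only [dd, ff, vv]
       simp)

lemma ff_ne (i : ZMod 3) : ∃ l, ff F i l ≠ 0 := by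
  by_contra h
  push Not at h
  have h3 : ∀ i : ZMod 3, i ≠ i + 1 := by decide
  have : dd F i (i + 1) = 0 := by simp [dd, h]
  exact dd_ne (h3 i) this

lemma vv_ne (i : ZMod 3) : vv F i ≠ 0 := by
  intro h
  have h3 : ∀ i : ZMod 3, i + 1 ≠ i := by decide
  have : dd F (i + 1) i = 0 := by simp [dd, h]
  exact dd_ne (h3 i) this

/-- The matrices `1 + x t N`. -/
def nm {K : Type*} [Field K] [Algebra F K] (t : K) (i : ZMod 3) (x : F) :
    Matrix (Fin 2) (Fin 2) K :=
  Matrix.of fun k l => (1 : Matrix (Fin 2) (Fin 2) K) k l +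
    algebraMap F K (x * vv F i k * ff F i l) * t

/-- Their polynomial versions. -/
noncomputable def np (i : ZMod 3) (x : F) : Matrix (Fin 2) (Fin 2) F[X] :=
  Matrix.of fun k l => (1 : Matrix (Fin 2) (Fin 2) F[X]) k l + C (x * vv F i k * ff F i l) * X

variable {K : Type*} [Field K] [Algebra F K]

lemma np_map (t : K) (i : ZMod 3) (x : F) :
    (np i x).map (aeval t : F[X] →ₐ[F] K) = nm t i x := by
  ext k l
  simp only [np, nm, Matrix.map_apply, Matrix.of_apply, map_add, map_mul, aeval_C, aeval_X]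
  congr 1
  by_cases h : k = l
  · subst h; simp
  · simp [Matrix.one_apply_ne h]

/-- Elements represented by matrix polynomials of degree `m` whose leading coefficient has row
space spanned by the functional of type `i`. -/
def Rep {G : Type*} (t : K) (j : G → Matrix (Fin 2) (Fin 2) K) (m : ℕ) (i : ZMod 3) (g : G) :
    Prop :=
  ∃ P : Matrix (Fin 2) (Fin 2) F[X], (∀ k l, (P k l).natDegree ≤ m) ∧
    (∃ u : Fin 2 → F, u ≠ 0 ∧ ∀ k l, (P k l).coeff m = u k * ff F i l) ∧
    P.map (aeval t : F[X] →ₐ[F] K) = j g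

section

variable {G : Type*} [Group G] {t : K} {d : ℕ}
  (ht : ∀ P : F[X], P.natDegree < d → aeval t P = 0 → P = 0)

include ht in
lemma rep_unique {P Q : Matrix (Fin 2) (Fin 2) F[X]} {m : ℕ} (hm : m < d)
    (hP : ∀ k l, (P k l).natDegree ≤ m) (hQ : ∀ k l, (Q k l).natDegree ≤ m)
    (h : P.map (aeval t : F[X] →ₐ[F] K) = Q.map (aeval t : F[X] →ₐ[F] K)) : P = Q := by
  ext1 k l
  have h1 := congrFun (congrFun h k) l
  simp only [Matrix.map_apply] at h1
  have h2 : aeval t (P k l - Q k l) = 0 := by rw [map_sub, h1, sub_self]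
  have h3 := ht (P k l - Q k l) (lt_of_le_of_lt ((natDegree_sub_le _ _).trans
    (max_le (hP k l) (hQ k l))) hm) h2
  exact sub_eq_zero.1 h3

variable {a : ZMod 3 → F → G} {j : G →* Matrix (Fin 2) (Fin 2) K}
  (hj : ∀ i x, j (a i x) = nm t i x)

include hj in
lemma rep_step {m : ℕ} {i i' : ZMod 3} (hi : i' ≠ i) {g : G} {x : F} (hx : x ≠ 0)
    (h : Rep (F := F) t j m i' g) : Rep (F := F) t j (m + 1) i (g * a i x) := by
  obtain ⟨P, hP, ⟨u, hu, hlead⟩, hval⟩ := h
  have hentry : ∀ k l, (P * np i x) k l = P k l + (P k 0 * C (x * vv F i 0 * ff F i l) +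
      P k 1 * C (x * vv F i 1 * ff F i l)) * X := by
    intro k l
    rw [Matrix.mul_apply, Fin.sum_univ_two]
    simp only [np, Matrix.of_apply]
    fin_cases l
    · simp [Matrix.one_apply]; ring
    · simp [Matrix.one_apply]; ring
  refine ⟨P * np i x, ?_, ⟨(x * dd F i' i) • u, ?_, ?_⟩, ?_⟩
  · intro k l
    rw [hentry]
    refine (natDegree_add_le _ _).trans (max_le ((hP k l).trans (Nat.le_succ m)) ?_)
    refine natDegree_mul_le.trans ?_
    refine Nat.add_le_add ?_ natDegree_X_le
    refine (natDegree_add_le _ _).trans (max_le ?_ ?_) <;>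
      exact natDegree_mul_le.trans (by rw [natDegree_C, add_zero]; exact hP _ _)
  · exact smul_ne_zero (mul_ne_zero hx (dd_ne hi)) hu
  · intro k l
    rw [hentry, coeff_add, coeff_mul_X, coeff_add, coeff_mul_C, coeff_mul_C, hlead, hlead,
      coeff_eq_zero_of_natDegree_lt (Nat.lt_succ_of_le (hP k l))]
    simp only [dd, Pi.smul_apply, smul_eq_mul]
    ring
  · rw [Matrix.map_mul, np_map, hval, map_mul, hj]

include hj in
lemma rep_base (i : ZMod 3) {x : F} (hx : x ≠ 0) : Rep (F := F) t j 1 i (a i x) := by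
  refine ⟨np i x, ?_, ⟨x • vv F i, smul_ne_zero hx (vv_ne i), ?_⟩, ?_⟩
  · intro k l
    simp only [np, Matrix.of_apply]
    refine (natDegree_add_le _ _).trans (max_le ?_ ?_)
    · by_cases h : k = l
      · subst h; simp
      · simp [Matrix.one_apply_ne h]
    · exact (natDegree_C_mul_le _ _).trans natDegree_X_le
  · intro k l
    simp only [np, Matrix.of_apply, coeff_add, coeff_C_mul, coeff_X_one, mul_one, Pi.smul_apply,
      smul_eq_mul]
    have : ((1 : Matrix (Fin 2) (Fin 2) F[X]) k l).coeff 1 = 0 := by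
      by_cases h : k = l
      · subst h; simp [coeff_one]
      · simp [Matrix.one_apply_ne h]
    rw [this]
    ring
  · rw [np_map, hj]

include ht in
lemma rep_type_unique {m : ℕ} (hm : m < d) {i i' : ZMod 3} {g : G}
    (h : Rep (F := F) t j m i g) (h' : Rep (F := F) t j m i' g) : i = i' := by
  obtain ⟨P, hP, ⟨u, hu, hlead⟩, hval⟩ := h
  obtain ⟨Q, hQ, ⟨u', hu', hlead'⟩, hval'⟩ := h'
  have hPQ := rep_unique ht hm hP hQ (hval.trans hval'.symm)
  subst hPQ
  by_contra hne
  obtain ⟨k, hk⟩ : ∃ k, u k ≠ 0 := by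
    by_contra hcon
    push Not at hcon
    exact hu (funext hcon)
  have h0 : ∀ l, u k * ff F i l = u' k * ff F i' l := by
    intro l
    rw [← hlead, ← hlead']
  have h1 : u k * dd F i i' = u' k * dd F i' i' := by
    simp only [dd]
    have := h0 0
    have := h0 1
    linear_combination (h0 0) * vv F i' 0 + (h0 1) * vv F i' 1
  rw [dd_self, mul_zero] at h1
  exact mul_ne_zero hk (dd_ne hne) h1

include ht in
lemma rep_degree {m : ℕ} (hm : m + 1 < d) {i : ZMod 3} {g : G}
    (h : Rep (F := F) t j (m + 1) i g)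
    (h' : ∃ P : Matrix (Fin 2) (Fin 2) F[X], (∀ k l, (P k l).natDegree ≤ m) ∧
      P.map (aeval t : F[X] →ₐ[F] K) = j g) : False := by
  obtain ⟨P, hP, ⟨u, hu, hlead⟩, hval⟩ := h
  obtain ⟨Q, hQ, hval'⟩ := h'
  have hPQ := rep_unique ht hm hP (fun k l => (hQ k l).trans (Nat.le_succ m))
    (hval.trans hval'.symm)
  subst hPQ
  obtain ⟨k, hk⟩ : ∃ k, u k ≠ 0 := by
    by_contra hcon
    push Not at hcon
    exact hu (funext hcon)
  obtain ⟨l, hl⟩ := ff_ne (F := F) i
  have := hlead k l
  rw [coeff_eq_zero_of_natDegree_lt (Nat.lt_succ_of_le (hQ k l))] at this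
  exact mul_ne_zero hk hl this.symm

/-- Elements which are values of words of length `m` not ending with type `i`. -/
def SRep (t : K) (j : G →* Matrix (Fin 2) (Fin 2) K) (F : Type*) [Field F] [Algebra F K]
    (m : ℕ) (i : ZMod 3) (g : G) : Prop :=
  (m = 0 ∧ g = 1) ∨ ∃ i', i' ≠ i ∧ Rep (F := F) t j m i' g

include hj in
lemma srep_step {m : ℕ} {i : ZMod 3} {g : G} {x : F} (hx : x ≠ 0) (h : SRep t j F m i g) :
    Rep (F := F) t j (m + 1) i (g * a i x) := by
  rcases h with ⟨rfl, rfl⟩ | ⟨i', hi, h⟩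
  · rw [one_mul]
    exact rep_base hj i hx
  · exact rep_step hj hi hx h

lemma srep_poly {m : ℕ} {i : ZMod 3} {g : G} (h : SRep t j F m i g) :
    ∃ P : Matrix (Fin 2) (Fin 2) F[X], (∀ k l, (P k l).natDegree ≤ m) ∧
      P.map (aeval t : F[X] →ₐ[F] K) = j g := by
  rcases h with ⟨rfl, rfl⟩ | ⟨i', hi, P, hP, -, h⟩
  · refine ⟨1, ?_, ?_⟩
    · intro k l
      by_cases h : k = l
      · subst h; simp
      · simp [Matrix.one_apply_ne h]
    · rw [map_one]
      ext k l
      by_cases h : k = l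
      · subst h; simp
      · simp [Matrix.one_apply_ne h]
  · exact ⟨P, hP, h⟩

variable [Fintype F] [DecidableEq F] [DecidableEq G]
variable (ha : ∀ i x y, a i (x + y) = a i x * a i y)

include hj in
lemma srep_of_ws {m : ℕ} : ∀ {i : ZMod 3} {g : G}, ws a m i g ≠ 0 → SRep t j F m i g := by
  induction m with
  | zero =>
    intro i g h
    left
    refine ⟨rfl, ?_⟩
    by_contra hg
    simp [ws, hg] at h
  | succ m ih =>
    intro i g h
    right
    simp only [ws] at h
    obtain ⟨i', hi', h1⟩ := Finset.exists_ne_zero_of_sum_ne_zero h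
    obtain ⟨x, hx, h2⟩ := Finset.exists_ne_zero_of_sum_ne_zero h1
    refine ⟨i', Finset.ne_of_mem_erase hi', ?_⟩
    have := srep_step hj (Finset.ne_of_mem_erase hx) (ih h2)
    rwa [inv_mul_cancel_right] at this

include hj in
lemma rep_of_wr {m : ℕ} {i : ZMod 3} {g : G} (h : wr a m i g ≠ 0) :
    Rep (F := F) t j (m + 1) i g := by
  unfold wr at h
  obtain ⟨x, hx, h2⟩ := Finset.exists_ne_zero_of_sum_ne_zero h
  have := srep_step hj (Finset.ne_of_mem_erase hx) (srep_of_ws hj h2)
  rwa [inv_mul_cancel_right] at this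

lemma sum_le_one {ι : Type*} {s : Finset ι} {f : ι → ℤ} (h0 : ∀ i ∈ s, 0 ≤ f i ∧ f i ≤ 1)
    (h : ∀ i ∈ s, ∀ i' ∈ s, f i ≠ 0 → f i' ≠ 0 → i = i') :
    0 ≤ ∑ i ∈ s, f i ∧ ∑ i ∈ s, f i ≤ 1 := by
  refine ⟨Finset.sum_nonneg fun i hi => (h0 i hi).1, ?_⟩
  by_cases hex : ∃ i ∈ s, f i ≠ 0
  · obtain ⟨i, hi, hfi⟩ := hex
    rw [Finset.sum_eq_single_of_mem i hi]
    · exact (h0 i hi).2
    · intro b hb hbi
      by_contra hfb
      exact hbi (h b hb i hi hfb hfi)
  · push Not at hex
    rw [Finset.sum_eq_zero hex]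
    exact zero_le_one

include ht hj ha in
lemma ws_bounds {m : ℕ} (hm : m < d) : ∀ (i : ZMod 3) (g : G),
    0 ≤ ws a m i g ∧ ws a m i g ≤ 1 := by
  induction m with
  | zero =>
    intro i g
    simp only [ws]
    split_ifs <;> simp
  | succ m ih =>
    intro i g
    have ih' := ih (by omega)
    simp only [ws]
    apply sum_le_one
    · intro i' _
      apply sum_le_one
      · intro x _
        exact ih' _ _
      · intro x hx x' hx' h1 h2
        by_contra hne
        have s1 := srep_of_ws hj h1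
        have s2 := srep_of_ws hj h2
        have h3 := srep_step hj (sub_ne_zero.2 hne) s1
        have h4 : g * (a i' x)⁻¹ * a i' (x - x') = g * (a i' x')⁻¹ := by
          rw [sub_eq_add_neg, ha, a_neg ha]
          group
        rw [h4] at h3
        exact rep_degree ht hm h3 (srep_poly s2)
    · intro i1 _ i2 _ h1 h2
      exact rep_type_unique ht hm (rep_of_wr hj (m := m) (i := i1) (g := g) h1)
        (rep_of_wr hj (m := m) (i := i2) (g := g) h2)

include ht hj ha in
theorem wtot_bounds {m : ℕ} (hm : m + 1 < d) (g : G) :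
    0 ≤ wtot a (m + 1) g ∧ wtot a (m + 1) g ≤ 1 := by
  simp only [wtot]
  apply sum_le_one
  · intro i' _
    apply sum_le_one
    · intro x _
      exact ws_bounds ht hj ha (by omega) _ _
    · intro x hx x' hx' h1 h2
      by_contra hne
      have s1 := srep_of_ws hj h1
      have s2 := srep_of_ws hj h2
      have h3 := srep_step hj (sub_ne_zero.2 hne) s1
      have h4 : g * (a i' x)⁻¹ * a i' (x - x') = g * (a i' x')⁻¹ := by
        rw [sub_eq_add_neg, ha, a_neg ha]
        group
      rw [h4] at h3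
      exact rep_degree ht hm h3 (srep_poly s2)
  · intro i1 _ i2 _ h1 h2
    exact rep_type_unique ht hm (rep_of_wr hj h1) (rep_of_wr hj h2)

include ht hj in
theorem wtot_one {m : ℕ} (hm : m + 1 < d) : wtot a (m + 1) 1 = 0 := by
  by_contra h
  simp only [wtot] at h
  obtain ⟨i, _, h1⟩ := Finset.exists_ne_zero_of_sum_ne_zero h
  have h2 := rep_of_wr hj h1
  refine rep_degree ht hm h2 ?_
  obtain ⟨P, hP, hPj⟩ := srep_poly (t := t) (j := j) (F := F) (m := 0) (i := 0) (g := (1 : G))
    (Or.inl ⟨rfl, rfl⟩)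
  exact ⟨P, fun k l => (hP k l).trans (Nat.zero_le m), hPj⟩

end

end Pool.Agent.FourLin
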