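import Pool.Agent.FourLin.Geo
import Pool.Agent.FourLin.Free

/-!
The concrete group with a cocycle: invertible matrices over a field times a Heisenberg group.
-/

set_option linter.unusedSectionVars false
set_option linter.unusedSimpArgs false

namespace Pool.Agent.FourLin

/-- The Heisenberg group. -/
@[ext] structure Heis (F : Type*) where
  x : F
  y : F
  w : F

namespace Heis

variable {F : Type*} [Field F]

instance : Mul (Heis F) := ⟨fun a b => ⟨a.x + b.x, a.y + b.y, a.w + b.w + a.x * b.y⟩⟩
instance : One (Heis F) := ⟨⟨0, 0, 0⟩⟩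
instance : Inv (Heis F) := ⟨fun a => ⟨-a.x, -a.y, -a.w + a.x * a.y⟩⟩

@[simp] lemma mul_x (a b : Heis F) : (a * b).x = a.x + b.x := rfl
@[simp] lemma mul_y (a b : Heis F) : (a * b).y = a.y + b.y := rfl
@[simp] lemma mul_w (a b : Heis F) : (a * b).w = a.w + b.w + a.x * b.y := rfl
@[simp] lemma one_x : (1 : Heis F).x = 0 := rfl
@[simp] lemma one_y : (1 : Heis F).y = 0 := rfl
@[simp] lemma one_w : (1 : Heis F).w = 0 := rfl
@[simp] lemma inv_x (a : Heis F) : (a⁻¹).x = -a.x := rfl
@[simp] lemma inv_y (a : Heis F) : (a⁻¹).y = -a.y := rfl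
@[simp] lemma inv_w (a : Heis F) : (a⁻¹).w = -a.w + a.x * a.y := rfl

instance : Group (Heis F) where
  mul_assoc a b c := by
    ext <;> simp <;> ring
  one_mul a := by
    ext <;> simp
  mul_one a := by
    ext <;> simp
  inv_mul_cancel a := by
    ext <;> simp

/-- The underlying triple. -/
def equiv (F : Type*) : Heis F ≃ F × F × F where
  toFun a := (a.x, a.y, a.w)
  invFun a := ⟨a.1, a.2.1, a.2.2⟩
  left_inv _ := rfl
  right_inv _ := rfl

instance [Finite F] : Finite (Heis F) := Finite.of_equiv _ (equiv F).symm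

/-- The swap of the two coordinates. -/
def swap : Heis F →* Heis F where
  toFun a := ⟨a.y, a.x, a.x * a.y - a.w⟩
  map_one' := by ext <;> simp
  map_mul' a b := by
    ext <;> simp
    ring

lemma swap_swap (a : Heis F) : swap (swap a) = a := by
  ext <;> simp [swap]
  ring

lemma swap_inj : Function.Injective (swap (F := F)) := by
  intro a b h
  rw [← swap_swap a, h, swap_swap]

end Heis

/-- Two by two matrices. -/
abbrev M2 (K : Type*) := Matrix (Fin 2) (Fin 2) K

section Mat

variable {K : Type*} [Field K]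

/-- Unipotent matrices. -/
def uni (N : M2 K) (hN : N * N = 0) (c : K) : (M2 K)ˣ where
  val := 1 + c • N
  inv := 1 - c • N
  val_inv := by
    rw [mul_sub, add_mul, add_mul, smul_mul_smul_comm, hN]
    simp
  inv_val := by
    rw [mul_add, sub_mul, sub_mul, smul_mul_smul_comm, hN]
    simp

lemma uni_val (N : M2 K) (hN : N * N = 0) (c : K) : (uni N hN c : M2 K) = 1 + c • N := rfl

lemma uni_add (N : M2 K) (hN : N * N = 0) (c c' : K) :
    uni N hN (c + c') = uni N hN c * uni N hN c' := by
  ext1
  rw [Units.val_mul, uni_val, uni_val, uni_val, mul_add, add_mul, add_mul, smul_mul_smul_comm, hN,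
    add_smul]
  simp [add_assoc]

lemma uni_zero (N : M2 K) (hN : N * N = 0) : uni N hN 0 = 1 := by
  ext1
  rw [uni_val, zero_smul, add_zero, Units.val_one]

lemma conj_uni (P : (M2 K)ˣ) {N N' : M2 K} (hN : N * N = 0) (hN' : N' * N' = 0)
    (h : (P : M2 K) * N = N' * (P : M2 K)) (c : K) :
    MulAut.conj P (uni N hN c) = uni N' hN' c := by
  rw [MulAut.conj_apply, mul_inv_eq_iff_eq_mul]
  ext1
  rw [Units.val_mul, Units.val_mul, uni_val, uni_val, mul_add, add_mul, mul_one, one_mul,
    mul_smul_comm, smul_mul_assoc, h]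

/-- The three nilpotent matrices. -/
def N0 (K : Type*) [Field K] : M2 K := !![0, 1; 0, 0]
/-- The three nilpotent matrices. -/
def N1 (K : Type*) [Field K] : M2 K := !![-1, 1; -1, 1]
/-- The three nilpotent matrices. -/
def N2 (K : Type*) [Field K] : M2 K := !![0, 0; -1, 0]

lemma N0_sq : N0 K * N0 K = 0 := by
  ext i j; fin_cases i <;> fin_cases j <;> simp [N0]
lemma N1_sq : N1 K * N1 K = 0 := by
  ext i j; fin_cases i <;> fin_cases j <;> simp [N1]
lemma N2_sq : N2 K * N2 K = 0 := by
  ext i j; fin_cases i <;> fin_cases j <;> simp [N2]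

/-- Conjugating matrices. -/
def P1 (K : Type*) [Field K] : (M2 K)ˣ where
  val := !![1, 1; 0, 1]
  inv := !![1, -1; 0, 1]
  val_inv := by ext i j; fin_cases i <;> fin_cases j <;> simp
  inv_val := by ext i j; fin_cases i <;> fin_cases j <;> simp
/-- Conjugating matrices. -/
def P2 (K : Type*) [Field K] : (M2 K)ˣ where
  val := !![0, -1; 1, -1]
  inv := !![-1, 1; -1, 0]
  val_inv := by ext i j; fin_cases i <;> fin_cases j <;> simp
  inv_val := by ext i j; fin_cases i <;> fin_cases j <;> simp
/-- Conjugating matrices. -/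
def PJ (K : Type*) [Field K] : (M2 K)ˣ where
  val := !![0, 1; -1, 0]
  inv := !![0, -1; 1, 0]
  val_inv := by ext i j; fin_cases i <;> fin_cases j <;> simp
  inv_val := by ext i j; fin_cases i <;> fin_cases j <;> simp

lemma P1_N0 : (P1 K : M2 K) * N0 K = N0 K * (P1 K : M2 K) := by
  ext i j; fin_cases i <;> fin_cases j <;> simp [P1, N0]
lemma P1_N2 : (P1 K : M2 K) * N2 K = N1 K * (P1 K : M2 K) := by
  ext i j; fin_cases i <;> fin_cases j <;> simp [P1, N2, N1]
lemma P2_N0 : (P2 K : M2 K) * N0 K = N2 K * (P2 K : M2 K) := by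
  ext i j; fin_cases i <;> fin_cases j <;> simp [P2, N0, N2]
lemma P2_N2 : (P2 K : M2 K) * N2 K = N1 K * (P2 K : M2 K) := by
  ext i j; fin_cases i <;> fin_cases j <;> simp [P2, N1, N2]
lemma PJ_N0 : (PJ K : M2 K) * N0 K = N2 K * (PJ K : M2 K) := by
  ext i j; fin_cases i <;> fin_cases j <;> simp [PJ, N0, N2]
lemma PJ_N2 : (PJ K : M2 K) * N2 K = N0 K * (PJ K : M2 K) := by
  ext i j; fin_cases i <;> fin_cases j <;> simp [PJ, N0, N2]

end Mat

variable (F K : Type*) [Field F] [Field K] [Algebra F K]

/-- The group. -/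
abbrev VC := (M2 K)ˣ × Heis F

/-- The module. -/
abbrev ZC := M2 K × K × K

variable {F K} (t : K)

/-- The first one-parameter subgroup of matrices. -/
def AA (x : F) : (M2 K)ˣ := uni (N0 K) N0_sq (algebraMap F K x * t)
/-- The second one-parameter subgroup of matrices. -/
def BB (x : F) : (M2 K)ˣ := uni (N2 K) N2_sq (algebraMap F K x * t)

lemma AA_add (x y : F) : AA t (x + y) = AA t x * AA t y := by
  unfold AA
  rw [← uni_add, map_add, add_mul]

lemma BB_add (x y : F) : BB t (x + y) = BB t x * BB t y := by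
  unfold BB
  rw [← uni_add, map_add, add_mul]

lemma AA_zero : AA (F := F) t 0 = 1 := by
  unfold AA
  rw [map_zero, zero_mul, uni_zero]

lemma BB_zero : BB (F := F) t 0 = 1 := by
  unfold BB
  rw [map_zero, zero_mul, uni_zero]

/-- The action. -/
def rho : VC F K →* (ZC K →ₗ[K] ZC K) where
  toFun g :=
    { toFun := fun z => ((g.1 : M2 K) * z.1 * (AA t (-g.2.x) : M2 K),
        z.2.1 + algebraMap F K g.2.x * z.2.2, z.2.2)
      map_add' := by
        intro a b
        ext1
        · simp only [Prod.fst_add, mul_add, add_mul]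
        · ext1
          · simp only [Prod.snd_add, Prod.fst_add, mul_add]
            ring
          · rfl
      map_smul' := by
        intro c a
        ext1
        · simp only [Prod.smul_fst, RingHom.id_apply, mul_smul_comm, smul_mul_assoc]
        · ext1
          · simp only [Prod.smul_snd, Prod.smul_fst, RingHom.id_apply, smul_eq_mul]
            ring
          · rfl }
  map_one' := by
    apply LinearMap.ext
    intro z
    ext1
    · simp [AA_zero]
    · simp
  map_mul' := by
    intro g h
    apply LinearMap.ext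
    intro z
    ext1
    · simp only [Prod.fst_mul, Prod.snd_mul, Heis.mul_x, neg_add_rev, AA_add, Units.val_mul,
        LinearMap.coe_mk, AddHom.coe_mk, Module.End.mul_apply, mul_assoc]
    · simp only [Prod.fst_mul, Prod.snd_mul, Heis.mul_x, LinearMap.coe_mk, AddHom.coe_mk,
        Module.End.mul_apply, map_add]
      ext1
      · simp only
        ring
      · rfl

/-- The concrete data. -/
def conc : Loc F K (VC F K) (ZC K) where
  ρ := rho t
  ψ g := ((g.1 : M2 K) * (AA t (-g.2.x) : M2 K) - 1, algebraMap F K g.2.w, algebraMap F K g.2.y)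
  ψ_mul := by
    intro g h
    ext1
    · simp only [rho, MonoidHom.coe_mk, OneHom.coe_mk, LinearMap.coe_mk, AddHom.coe_mk,
        Prod.fst_add, Prod.fst_mul, Prod.snd_mul, Heis.mul_x, neg_add_rev, AA_add, Units.val_mul]
      noncomm_ring
    · ext1
      · simp only [rho, MonoidHom.coe_mk, OneHom.coe_mk, LinearMap.coe_mk, AddHom.coe_mk,
          Prod.snd_add, Prod.fst_add, Prod.snd_mul, Heis.mul_w, map_add, map_mul]
        ring
      · simp only [rho, MonoidHom.coe_mk, OneHom.coe_mk, LinearMap.coe_mk, AddHom.coe_mk,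
          Prod.snd_add, Prod.snd_mul, Heis.mul_y, map_add]
  εE g := g.2.x
  εF g := g.2.y
  w g := g.2.w
  εE_mul _ _ := rfl
  εF_mul _ _ := rfl
  w_mul _ _ := rfl
  aE x := (AA t x, ⟨x, 0, 0⟩)
  aF x := (BB t x, ⟨0, x, 0⟩)
  aE_add := by
    intro x y
    ext1
    · exact AA_add t x y
    · ext <;> simp
  aF_add := by
    intro x y
    ext1
    · exact BB_add t x y
    · ext <;> simp
  εE_aE _ := rfl
  εF_aE _ := rfl
  w_aE _ := rfl
  εE_aF _ := rfl
  εF_aF _ := rfl
  w_aF _ := rfl
  ψ_aE := by
    intro x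
    ext1
    · show (AA t x : M2 K) * (AA t (-x) : M2 K) - 1 = 0
      rw [← Units.val_mul, ← AA_add, add_neg_cancel, AA_zero, Units.val_one, sub_self]
    · simp
  eq_aE := by
    intro g hg
    simp only [Prod.mk_eq_zero] at hg
    obtain ⟨h1, h2, h3⟩ := hg
    have h4 : g.1 * AA t (-g.2.x) = 1 := by
      ext1
      rw [Units.val_mul, Units.val_one]
      exact sub_eq_zero.1 h1
    have h5 : g.1 = AA t g.2.x := by
      calc g.1 = g.1 * (AA t (-g.2.x) * AA t g.2.x) := by
            rw [← AA_add, neg_add_cancel, AA_zero, mul_one]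
        _ = AA t g.2.x := by rw [← mul_assoc, h4, one_mul]
    ext1
    · exact h5
    · ext
      · rfl
      · exact (map_eq_zero _).1 h3
      · exact (map_eq_zero _).1 h2
  η := (t • N2 K, 0, 1)
  ψ_aF := by
    intro x
    ext1
    · show (BB t x : M2 K) * (AA t (-(0 : F)) : M2 K) - 1 = algebraMap F K x • (t • N2 K)
      rw [neg_zero, AA_zero, Units.val_one, mul_one, BB, uni_val, add_sub_cancel_left, smul_smul]
    · simp [Algebra.smul_def]
  ρ_aF := by
    intro x
    ext1
    · show (BB t x : M2 K) * (t • N2 K) * (AA t (-(0 : F)) : M2 K) = t • N2 K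
      rw [neg_zero, AA_zero, Units.val_one, mul_one, BB, uni_val, add_mul, one_mul,
        smul_mul_smul_comm, N2_sq, smul_zero, add_zero]
    · simp [rho]
  lam := (LinearMap.snd K K K).comp (LinearMap.snd K (M2 K) (K × K))
  lam_ψ _ := rfl
  lam_ρ _ _ := rfl
  τ := ((MulAut.conj (PJ K)).toMonoidHom).prodMap Heis.swap
  τ_aE := by
    intro x
    ext1
    · exact conj_uni _ N0_sq N2_sq PJ_N0 _
    · ext <;> simp [Heis.swap]
  τ_aF := by
    intro x
    ext1
    · exact conj_uni _ N2_sq N0_sq PJ_N2 _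
    · ext <;> simp [Heis.swap]
  τ_inj := by
    intro a b h
    have h1 := congrArg Prod.fst h
    have h2 := congrArg Prod.snd h
    ext1
    · exact (MulAut.conj (PJ K)).injective h1
    · exact Heis.swap_inj h2

/-- The three homomorphisms to the group of matrices. -/
def tri (B : Type*) [Group B] : Tri (conc (F := F) t) ((M2 K)ˣ × B) where
  j0 := (MonoidHom.fst _ _).prod 1
  j1 := ((MulAut.conj (P1 K)).toMonoidHom.comp (MonoidHom.fst _ _)).prod 1
  j2 := ((MulAut.conj (P2 K)).toMonoidHom.comp (MonoidHom.fst _ _)).prod 1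
  h01 x := by
    ext1
    · exact (conj_uni _ N0_sq N0_sq P1_N0 _).symm
    · rfl
  h02 x := by
    ext1
    · exact (conj_uni _ N0_sq N2_sq P2_N0 _).symm
    · rfl
  h12 x := by
    ext1
    · exact (conj_uni _ N2_sq N1_sq P1_N2 _).trans (conj_uni _ N2_sq N1_sq P2_N2 _).symm
    · rfl

/-- The projection to the matrices. -/
def prj (L : Loc F K (VC F K) (ZC K)) (B : Type*) [Group B] :
    ((M2 K)ˣ × B) × QQ L × QQ L × QQ L →* M2 K :=
  (Units.coeHom (M2 K)).comp ((MonoidHom.fst _ _).comp (MonoidHom.fst _ _))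

lemma prj_aa (B : Type*) [Group B] (i : ZMod 3) (x : F) :
    prj _ B ((conc (F := F) t).aa (tri t B) i x) = nm t i x := by
  fin_cases i
  · show (AA t x : M2 K) = nm t 0 x
    rw [AA, uni_val]
    ext k l
    fin_cases k <;> fin_cases l <;> simp [nm, vv, ff, N0]
  · have h : (MulAut.conj (P1 K) (BB t x) : M2 K) = nm t 1 x := by
      rw [BB, conj_uni _ N2_sq N1_sq P1_N2, uni_val]
      ext k l
      fin_cases k <;> fin_cases l <;> simp [nm, vv, ff, N1]
    exact h
  · show (BB t x : M2 K) = nm t 2 x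
    rw [BB, uni_val]
    ext k l
    fin_cases k <;> fin_cases l <;> simp [nm, vv, ff, N2]

end Pool.Agent.FourLin
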