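import Mathlib

/-!
Counting reduced words in a group generated by three families, and an alternating sum of coset
functions.
-/

set_option linter.unusedSectionVars false
set_option linter.unusedSimpArgs false

namespace Pool.Agent.FourLin

open Finset

section Basic

variable {F G : Type*} [AddCommGroup F] [Group G] {a : ZMod 3 → F → G}
  (ha : ∀ i x y, a i (x + y) = a i x * a i y)

include ha in
lemma a_zero (i : ZMod 3) : a i 0 = 1 := by
  have := ha i 0 0
  rw [add_zero] at this
  exact (left_eq_mul.1 this)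

include ha in
lemma a_neg (i : ZMod 3) (x : F) : a i (-x) = (a i x)⁻¹ := by
  rw [eq_inv_iff_mul_eq_one, ← ha, neg_add_cancel, a_zero ha]

end Basic

variable {F G : Type*} [AddCommGroup F] [Fintype F] [DecidableEq F] [Group G] [DecidableEq G]

/-- The number of reduced words of length `m`, not ending with a letter of type `i`, whose value
is `g`. -/
def ws (a : ZMod 3 → F → G) : ℕ → ZMod 3 → G → ℤ
  | 0, _, g => if g = 1 then 1 else 0
  | m + 1, i, g => ∑ j ∈ univ.erase i, ∑ x ∈ univ.erase (0 : F), ws a m j (g * (a j x)⁻¹)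

/-- The number of reduced words of length `m + 1` ending with a letter of type `j`, with
value `g`. -/
def wr (a : ZMod 3 → F → G) (m : ℕ) (j : ZMod 3) (g : G) : ℤ :=
  ∑ x ∈ univ.erase (0 : F), ws a m j (g * (a j x)⁻¹)

/-- The number of reduced words of length `m` with value `g`. -/
def wtot (a : ZMod 3 → F → G) : ℕ → G → ℤ
  | 0, g => if g = 1 then 1 else 0
  | m + 1, g => ∑ j, wr a m j g

/-- The function on cosets of type `i` attached to the words of length `m`. -/
def wy (a : ZMod 3 → F → G) (m : ℕ) (i : ZMod 3) (g : G) : ℤ :=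
  ∑ x, ws a m i (g * (a i x)⁻¹)

variable {a : ZMod 3 → F → G} (ha : ∀ i x y, a i (x + y) = a i x * a i y)

lemma ws_succ (a : ZMod 3 → F → G) (m : ℕ) (i : ZMod 3) (g : G) :
    ws a (m + 1) i g = wtot a (m + 1) g - wr a m i g := by
  rw [wtot, ← Finset.add_sum_erase univ _ (mem_univ i)]
  simp only [ws, wr]
  ring

include ha in
lemma wy_eq (m : ℕ) (i : ZMod 3) (g : G) : wy a m i g = ws a m i g + wr a m i g := by
  rw [wy, wr, ← Finset.add_sum_erase univ _ (mem_univ (0 : F)), a_zero ha, inv_one, mul_one]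

include ha in
lemma wy_mul (m : ℕ) (i : ZMod 3) (g : G) (z : F) : wy a m i (g * a i z) = wy a m i g := by
  unfold wy
  apply Fintype.sum_equiv (Equiv.addRight (-z))
  intro x
  rw [Equiv.coe_addRight, ha, a_neg ha, mul_inv_rev, inv_inv, mul_assoc]

include ha in
lemma sum_wy_zero (g : G) : ∑ i, wy a 0 i g = 3 * wtot a 0 g + wtot a 1 g := by
  simp only [wy_eq ha, Finset.sum_add_distrib]
  simp only [ws, wtot, Finset.sum_const, Finset.card_univ, ZMod.card]
  simp

include ha in
lemma sum_wy_succ (m : ℕ) (g : G) :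
    ∑ i, wy a (m + 1) i g = 2 * wtot a (m + 1) g + wtot a (m + 2) g := by
  simp only [wy_eq ha, ws_succ, Finset.sum_add_distrib, Finset.sum_sub_distrib]
  have h1 : ∑ i, wr a m i g = wtot a (m + 1) g := rfl
  have h2 : ∑ i, wr a (m + 1) i g = wtot a (m + 2) g := rfl
  rw [h1, h2]
  simp only [Finset.sum_const, Finset.card_univ, ZMod.card, smul_eq_mul, nsmul_eq_mul]
  push_cast
  ring

/-- The coefficients. -/
def wc (R m : ℕ) : ℤ := (-1) ^ (m + 1) * 2 ^ (R - m)

/-- The alternating sum of coset functions. -/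
def wY (a : ZMod 3 → F → G) (R : ℕ) (i : ZMod 3) (g : G) : ℤ :=
  ∑ m ∈ range (R + 1), wc R m * wy a m i g

include ha in
lemma wY_mul (R : ℕ) (i : ZMod 3) (g : G) (z : F) : wY a R i (g * a i z) = wY a R i g := by
  simp only [wY, wy_mul ha]

lemma wc_succ {R m : ℕ} (h : m + 1 ≤ R) : wc R m + 2 * wc R (m + 1) = 0 := by
  unfold wc
  obtain ⟨k, rfl⟩ := Nat.exists_eq_add_of_le h
  have e1 : m + 1 + k - m = k + 1 := by omega
  have e2 : m + 1 + k - (m + 1) = k := by omega
  rw [e1, e2]
  ring

include ha in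
theorem sum_wY (R : ℕ) (g : G) :
    ∑ i, wY a R i g = -(3 * 2 ^ R) * wtot a 0 g + wc R R * wtot a (R + 1) g := by
  have h : ∀ n ≤ R, ∑ m ∈ range (n + 1), wc R m * ∑ i, wy a m i g =
      -(3 * 2 ^ R) * wtot a 0 g + wc R n * wtot a (n + 1) g := by
    intro n
    induction n with
    | zero =>
      intro _
      rw [zero_add, Finset.sum_range_one, sum_wy_zero ha]
      simp only [wc, Nat.sub_zero]
      ring
    | succ n ih =>
      intro hn
      rw [Finset.sum_range_succ, ih (by omega), sum_wy_succ ha]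
      have := wc_succ hn
      linear_combination wtot a (n + 1) g * this
  have h2 : ∑ i, wY a R i g = ∑ m ∈ range (R + 1), wc R m * ∑ i, wy a m i g := by
    simp only [wY]
    rw [Finset.sum_comm]
    apply Finset.sum_congr rfl
    intro m _
    rw [Finset.mul_sum]
  rw [h2, h R le_rfl]

lemma wc_self (R : ℕ) : wc R R = 1 ∨ wc R R = -1 := by
  unfold wc
  rw [Nat.sub_self, pow_zero, mul_one]
  exact neg_one_pow_eq_or ℤ (R + 1)

end Pool.Agent.FourLin
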