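import Pool.Agent.FourLin.Adv
import Pool.Agent.FourLin.Words

/-!
Coset graphs of groups with three subgroups, and their perturbations.
-/

set_option linter.unusedSectionVars false
set_option linter.unusedSimpArgs false

namespace Pool.Agent.FourLin

open Finset

/-- A group with three subgroups `V i` and parametrisations `a i` of the intersections
`V i ⊓ V (i + 1)`, with coordinates `X i`, such that all short relations among elements of the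
subgroups are the obvious ones. -/
structure CosetGeo (F G : Type*) [AddCommGroup F] [Group G] where
  V : ZMod 3 → Subgroup G
  a : ZMod 3 → F → G
  a_add : ∀ i x y, a i (x + y) = a i x * a i y
  mem_iff : ∀ i g, (g ∈ V i ∧ g ∈ V (i + 1)) ↔ ∃ x, a i x = g
  two : ∀ i, ∀ p ∈ V i, ∀ q ∈ V (i + 1), ∀ r ∈ V i, ∀ s ∈ V (i + 1), p * q * r * s = 1 →
    p ∈ V (i + 1) ∨ q ∈ V i ∨ r ∈ V (i + 1) ∨ s ∈ V i
  four : ∀ j, ∀ p ∈ V (j + 2), ∀ q ∈ V (j + 1), ∀ r ∈ V j, ∀ s ∈ V (j + 1), p * q * r * s = 1 →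
    p ∈ V (j + 1) ∨ r ∈ V (j + 1) ∨ (∃ x y, q = a (j + 1) x * a j y) ∨
      (∃ x y, s = a j x * a (j + 1) y)
  three : ∀ p ∈ V 1, ∀ q ∈ V 2, ∀ r ∈ V 0, p * q * r = 1 → ∃ x y, p = a 0 x * a 1 y
  X : ZMod 3 → G → F
  X_mul : ∀ i g h, X i (g * h) = X i g + X i h
  X_a : ∀ i j x, X i (a j x) = if i = j then x else 0

namespace CosetGeo

variable {F G : Type*} [AddCommGroup F] [Group G] (D : CosetGeo F G)

lemma a_mem_left (i : ZMod 3) (x : F) : D.a i x ∈ D.V i := ((D.mem_iff i _).2 ⟨x, rfl⟩).1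

lemma a_mem_right (i : ZMod 3) (x : F) : D.a i x ∈ D.V (i + 1) :=
  ((D.mem_iff i _).2 ⟨x, rfl⟩).2

lemma three' : ∀ i, ∀ p ∈ D.V (i + 1), ∀ q ∈ D.V (i + 2), ∀ r ∈ D.V i, p * q * r = 1 →
    ∃ x y, p = D.a i x * D.a (i + 1) y := by
  have step : ∀ i, (∀ p ∈ D.V (i + 1), ∀ q ∈ D.V (i + 2), ∀ r ∈ D.V i, p * q * r = 1 →
    ∃ x y, p = D.a i x * D.a (i + 1) y) → (∀ p ∈ D.V (i + 1 + 1), ∀ q ∈ D.V (i + 1 + 2),
      ∀ r ∈ D.V (i + 1), p * q * r = 1 → ∃ x y, p = D.a (i + 1) x * D.a (i + 1 + 1) y) := by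
    intro i h p hp q hq r hr hpqr
    have e1 : i + 1 + 1 = i + 2 := by ring
    have e2 : i + 1 + 2 = i := by
      rw [add_assoc, show (1 + 2 : ZMod 3) = 0 by decide, add_zero]
    rw [e1] at hp
    rw [e2] at hq
    have h1 : r * p * q = 1 := by
      calc r * p * q = r * (p * q * r) * r⁻¹ := by group
        _ = 1 := by rw [hpqr]; group
    obtain ⟨x, y, hxy⟩ := h r hr p hp q hq h1
    have h2 : q * D.a i x = p⁻¹ * (D.a (i + 1) y)⁻¹ := by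
      have : q * r = p⁻¹ := by
        rw [eq_inv_iff_mul_eq_one]
        calc q * r * p = p⁻¹ * (p * q * r) * p := by group
          _ = 1 := by rw [hpqr]; group
      rw [← this, hxy]
      group
    have h3 : q * D.a i x ∈ D.V (i + 2) := by
      rw [h2]
      refine mul_mem (inv_mem hp) (inv_mem ?_)
      have := D.a_mem_right (i + 1) y
      rwa [e1] at this
    have h4 : q * D.a i x ∈ D.V (i + 2 + 1) := by
      have e3 : i + 2 + 1 = i := by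
        rw [add_assoc, show (2 + 1 : ZMod 3) = 0 by decide, add_zero]
      rw [e3]
      exact mul_mem hq (D.a_mem_left i x)
    obtain ⟨z, hz⟩ := (D.mem_iff (i + 2) _).1 ⟨h3, h4⟩
    refine ⟨-y, -z, ?_⟩
    rw [e1, a_neg D.a_add, a_neg D.a_add, hz, h2]
    group
  have h0 : ∀ p ∈ D.V (0 + 1), ∀ q ∈ D.V (0 + 2), ∀ r ∈ D.V 0, p * q * r = 1 →
      ∃ x y, p = D.a 0 x * D.a (0 + 1) y := by
    simpa only [zero_add] using D.three
  have h1 := step 0 h0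
  have h2 := step _ h1
  intro i
  fin_cases i
  · exact h0
  · exact h1
  · exact h2

/-- Two pairs define the same edge. -/
def eSetoid : Setoid (ZMod 3 × G) where
  r u v := u.1 = v.1 ∧ u.2⁻¹ * v.2 ∈ D.V u.1 ∧ u.2⁻¹ * v.2 ∈ D.V (u.1 + 1)
  iseqv := by
    refine ⟨fun u => ⟨rfl, ?_, ?_⟩, ?_, ?_⟩
    · simp
    · simp
    · rintro ⟨i, g⟩ ⟨j, h⟩ ⟨h1, h2, h3⟩
      dsimp only at h1 h2 h3 ⊢
      subst h1
      have : h⁻¹ * g = (g⁻¹ * h)⁻¹ := by group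
      refine ⟨rfl, ?_, ?_⟩ <;> rw [this] <;> exact inv_mem (by assumption)
    · rintro ⟨i, g⟩ ⟨j, h⟩ ⟨k, l⟩ ⟨h1, h2, h3⟩ ⟨h4, h5, h6⟩
      dsimp only at h1 h2 h3 h4 h5 h6 ⊢
      subst h1 h4
      have : g⁻¹ * l = (g⁻¹ * h) * (h⁻¹ * l) := by group
      refine ⟨rfl, ?_, ?_⟩ <;> rw [this] <;> exact mul_mem (by assumption) (by assumption)

/-- Two pairs define the same vertex. -/
def vSetoid : Setoid (ZMod 3 × G) where
  r u v := u.1 = v.1 ∧ u.2⁻¹ * v.2 ∈ D.V u.1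
  iseqv := by
    refine ⟨fun u => ⟨rfl, ?_⟩, ?_, ?_⟩
    · simp
    · rintro ⟨i, g⟩ ⟨j, h⟩ ⟨h1, h2⟩
      dsimp only at h1 h2 ⊢
      subst h1
      have : h⁻¹ * g = (g⁻¹ * h)⁻¹ := by group
      refine ⟨rfl, ?_⟩
      rw [this]
      exact inv_mem h2
    · rintro ⟨i, g⟩ ⟨j, h⟩ ⟨k, l⟩ ⟨h1, h2⟩ ⟨h4, h5⟩
      dsimp only at h1 h2 h4 h5 ⊢
      subst h1 h4
      have : g⁻¹ * l = (g⁻¹ * h) * (h⁻¹ * l) := by group
      refine ⟨rfl, ?_⟩
      rw [this]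
      exact mul_mem h2 h5

/-- Edges. -/
def E : Type _ := Quotient D.eSetoid

/-- Vertices. -/
def W : Type _ := Quotient D.vSetoid

/-- The edge of type `i` of `g`. -/
def mkE (i : ZMod 3) (g : G) : D.E := Quotient.mk D.eSetoid (i, g)

/-- The vertex of type `i` of `g`. -/
def mkW (i : ZMod 3) (g : G) : D.W := Quotient.mk D.vSetoid (i, g)

lemma mkE_eq {i j : ZMod 3} {g h : G} :
    D.mkE i g = D.mkE j h ↔ i = j ∧ g⁻¹ * h ∈ D.V i ∧ g⁻¹ * h ∈ D.V (i + 1) :=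
  Quotient.eq (r := D.eSetoid)

lemma mkW_eq {i j : ZMod 3} {g h : G} :
    D.mkW i g = D.mkW j h ↔ i = j ∧ g⁻¹ * h ∈ D.V i :=
  Quotient.eq (r := D.vSetoid)

lemma E_surj (e : D.E) : ∃ i g, e = D.mkE i g := by
  induction e using Quotient.ind with
  | _ u => exact ⟨u.1, u.2, rfl⟩

/-- The source of an edge. -/
def srcE : D.E → D.W :=
  Quotient.lift (fun u : ZMod 3 × G => D.mkW u.1 u.2) (by
    rintro ⟨i, g⟩ ⟨j, h⟩ ⟨h1, h2, h3⟩
    exact D.mkW_eq.2 ⟨h1, h2⟩)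

/-- The target of an edge. -/
def tgtE : D.E → D.W :=
  Quotient.lift (fun u : ZMod 3 × G => D.mkW (u.1 + 1) u.2) (by
    rintro ⟨i, g⟩ ⟨j, h⟩ ⟨h1, h2, h3⟩
    dsimp only at h1 h2 h3 ⊢
    subst h1
    exact D.mkW_eq.2 ⟨rfl, h3⟩)

/-- The colour of a vertex. -/
def colW : D.W → ZMod 3 :=
  Quotient.lift (fun u : ZMod 3 × G => u.1) (by
    rintro ⟨i, g⟩ ⟨j, h⟩ ⟨h1, h2⟩
    exact h1)

@[simp] lemma srcE_mk (i : ZMod 3) (g : G) : D.srcE (D.mkE i g) = D.mkW i g := rfl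
@[simp] lemma tgtE_mk (i : ZMod 3) (g : G) : D.tgtE (D.mkE i g) = D.mkW (i + 1) g := rfl
@[simp] lemma colW_mk (i : ZMod 3) (g : G) : D.colW (D.mkW i g) = i := rfl

/-- The coset graph. -/
def graph : TGraph D.W D.E G where
  src := D.srcE
  tgt := D.tgtE
  col := D.colW
  col_tgt := by
    intro e_g
    obtain ⟨i, g, rfl⟩ := D.E_surj e_g
    simp
  simple := by
    intro e_g
    obtain ⟨i, g, rfl⟩ := D.E_surj e_g
    intro e_h
    obtain ⟨j, h, rfl⟩ := D.E_surj e_h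
    intro h1 h2
    simp only [srcE_mk, tgtE_mk, mkW_eq] at h1 h2
    exact D.mkE_eq.2 ⟨h1.1, h1.2, h2.2⟩
  no2 := by
    intro e_g1
    obtain ⟨i1, g1, rfl⟩ := D.E_surj e_g1
    intro e_g2
    obtain ⟨i2, g2, rfl⟩ := D.E_surj e_g2
    intro e_g3
    obtain ⟨i3, g3, rfl⟩ := D.E_surj e_g3
    intro e_g4
    obtain ⟨i4, g4, rfl⟩ := D.E_surj e_g4
    intro h1 h2 h3 h4
    simp only [srcE_mk, tgtE_mk, mkW_eq] at h1 h2 h3 h4
    obtain ⟨rfl, h1⟩ := h1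
    obtain ⟨e2, h2⟩ := h2
    obtain rfl := add_right_cancel e2
    obtain ⟨rfl, h3⟩ := h3
    obtain ⟨-, h4⟩ := h4
    have := D.two i1 _ h1 _ h2 _ h3 _ h4 (by group)
    rcases this with h | h | h | h
    · exact Or.inl (D.mkE_eq.2 ⟨rfl, h1, h⟩)
    · exact Or.inr (Or.inl (D.mkE_eq.2 ⟨rfl, h, h2⟩))
    · exact Or.inr (Or.inr (Or.inl (D.mkE_eq.2 ⟨rfl, h3, h⟩)))
    · exact Or.inr (Or.inr (Or.inr (D.mkE_eq.2 ⟨rfl, h, h4⟩)))
  chord := by
    intro e_g1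
    obtain ⟨i1, g1, rfl⟩ := D.E_surj e_g1
    intro e_g2
    obtain ⟨i2, g2, rfl⟩ := D.E_surj e_g2
    intro e_g4
    obtain ⟨i4, g4, rfl⟩ := D.E_surj e_g4
    intro e_g3
    obtain ⟨j, g3, rfl⟩ := D.E_surj e_g3
    intro h1 h2 h3 h4
    simp only [srcE_mk, tgtE_mk, mkW_eq] at h1 h2 h3 h4
    obtain ⟨e1, h1⟩ := h1
    obtain rfl := add_right_cancel e1
    obtain ⟨rfl, h2⟩ := h2
    obtain ⟨rfl, h3⟩ := h3
    obtain ⟨-, h4⟩ := h4
    -- p = g1⁻¹ g2, q = g2⁻¹ g3, r = g3⁻¹ g4, s = g4⁻¹ g1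
    have e3 : i4 + 1 + 1 = i4 + 2 := by ring
    have h1' : g1⁻¹ * g2 ∈ D.V (i4 + 2) := by rwa [e3] at h1
    have h4' : g2⁻¹ * g3 ∈ D.V (i4 + 1) := by
      have := inv_mem h4
      rwa [mul_inv_rev, inv_inv] at this
    have h2' : g3⁻¹ * g4 ∈ D.V i4 := by
      have := inv_mem h2
      rwa [mul_inv_rev, inv_inv] at this
    rcases D.four i4 _ h1' _ h4' _ h2' _ h3 (by group) with h | h | ⟨x, y, h⟩ | ⟨x, y, h⟩
    · left
      exact D.mkE_eq.2 ⟨rfl, h, h1⟩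
    · left
      refine D.mkE_eq.2 ⟨rfl, ?_, h1⟩
      have : g1⁻¹ * g2 = ((g2⁻¹ * g3) * (g3⁻¹ * g4) * (g4⁻¹ * g1))⁻¹ := by group
      rw [this]
      exact inv_mem (mul_mem (mul_mem h4' h) h3)
    · right
      refine ⟨D.mkE (i4 + 1 + 1) (g2 * D.a (i4 + 1) x), ?_, ?_⟩
      · simp only [srcE_mk, tgtE_mk]
        refine D.mkW_eq.2 ⟨rfl, ?_⟩
        have : (g2 * D.a (i4 + 1) x)⁻¹ * g1 = (g1⁻¹ * g2 * D.a (i4 + 1) x)⁻¹ := by group
        rw [this]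
        exact inv_mem (mul_mem h1 (D.a_mem_right _ x))
      · simp only [srcE_mk, tgtE_mk]
        have e4 : i4 + 1 + 1 + 1 = i4 := (TGraph.z3 i4).2.2.1
        refine D.mkW_eq.2 ⟨e4, ?_⟩
        rw [e4]
        have : (g2 * D.a (i4 + 1) x)⁻¹ * g4 = D.a i4 y * (g3⁻¹ * g4) := by
          have : g3 = g2 * (D.a (i4 + 1) x * D.a i4 y) := by rw [← h]; group
          rw [this]
          group
        rw [this]
        exact mul_mem (D.a_mem_left _ y) h2'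
    · right
      refine ⟨D.mkE (i4 + 1 + 1) (g4 * D.a i4 x), ?_, ?_⟩
      · simp only [srcE_mk, tgtE_mk]
        refine D.mkW_eq.2 ⟨rfl, ?_⟩
        have : (g4 * D.a i4 x)⁻¹ * g1 = D.a (i4 + 1) y := by
          have : g1 = g4 * (D.a i4 x * D.a (i4 + 1) y) := by rw [← h]; group
          rw [this]
          group
        rw [this]
        exact D.a_mem_right _ y
      · simp only [srcE_mk, tgtE_mk]
        have e4 : i4 + 1 + 1 + 1 = i4 := (TGraph.z3 i4).2.2.1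
        refine D.mkW_eq.2 ⟨e4, ?_⟩
        rw [e4]
        have : (g4 * D.a i4 x)⁻¹ * g4 = (D.a i4 x)⁻¹ := by group
        rw [this]
        exact inv_mem (D.a_mem_left _ x)
  edge := fun t k => D.mkE k t
  tri := by
    intro e_g1
    obtain ⟨i1, g1, rfl⟩ := D.E_surj e_g1
    intro e_g2
    obtain ⟨i2, g2, rfl⟩ := D.E_surj e_g2
    intro e_g3
    obtain ⟨i3, g3, rfl⟩ := D.E_surj e_g3
    intro h1 h2 h3
    simp only [srcE_mk, tgtE_mk, mkW_eq] at h1 h2 h3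
    obtain ⟨rfl, h1⟩ := h1
    obtain ⟨rfl, h2⟩ := h2
    obtain ⟨e3, h3⟩ := h3
    have e4 : i1 + 1 + 1 = i1 + 2 := by ring
    rw [e4] at h2
    rw [e3] at h3
    obtain ⟨x, y, hxy⟩ := D.three' i1 _ h1 _ h2 _ h3 (by group)
    have hg2 : g1 * D.a i1 x = g2 * (D.a (i1 + 1) y)⁻¹ := by
      have : g2 = g1 * (D.a i1 x * D.a (i1 + 1) y) := by rw [← hxy]; group
      rw [this]
      group
    refine ⟨g1 * D.a i1 x, i1, ?_, ?_, ?_⟩
    · refine D.mkE_eq.2 ⟨rfl, ?_, ?_⟩ <;> rw [inv_mul_cancel_left]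
      · exact D.a_mem_left _ x
      · exact D.a_mem_right _ x
    · refine D.mkE_eq.2 ⟨rfl, ?_, ?_⟩ <;> rw [hg2, inv_mul_cancel_left]
      · exact inv_mem (D.a_mem_left _ y)
      · exact inv_mem (D.a_mem_right _ y)
    · refine D.mkE_eq.2 ⟨e4, ?_, ?_⟩
      · rw [e4, hg2]
        have : g3⁻¹ * (g2 * (D.a (i1 + 1) y)⁻¹) = (g2⁻¹ * g3)⁻¹ * (D.a (i1 + 1) y)⁻¹ := by group
        rw [this]
        refine mul_mem (inv_mem h2) (inv_mem ?_)
        have := D.a_mem_right (i1 + 1) y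
        rwa [e4] at this
      · rw [e3, ← mul_assoc]
        exact mul_mem h3 (D.a_mem_left _ x)
  edge_col := fun t k => rfl
  edge_next := fun t k => rfl

end CosetGeo

end Pool.Agent.FourLin
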