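import Pool.Agent.FourLin.Coset
import Pool.Agent.FourLin.Adv2

/-!
The perturbations of a coset graph.
-/

set_option linter.unusedSectionVars false
set_option linter.unusedSimpArgs false

namespace Pool.Agent.FourLin

open Finset

namespace CosetGeo

variable {p : ℕ} [Fact p.Prime] {G : Type*} [Group G] [Fintype G] [DecidableEq G]
variable (D : CosetGeo (ZMod p) G)

open Classical in
noncomputable instance : Fintype D.E :=
  Fintype.ofSurjective (fun u : ZMod 3 × G => D.mkE u.1 u.2) (by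
    intro e
    obtain ⟨i, g, rfl⟩ := D.E_surj e
    exact ⟨(i, g), rfl⟩)

noncomputable instance : DecidableEq D.E := Classical.decEq _

noncomputable instance : DecidableEq D.W := Classical.decEq _

lemma a_inj (i : ZMod 3) : Function.Injective (D.a i) := by
  intro x y h
  have := congrArg (D.X i) h
  rw [D.X_a, D.X_a] at this
  simpa using this

lemma mkE_mul (i : ZMod 3) (g : G) (x : ZMod p) : D.mkE i (g * D.a i x) = D.mkE i g := by
  refine D.mkE_eq.2 ⟨rfl, ?_, ?_⟩ <;>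
    rw [mul_inv_rev, mul_assoc, inv_mul_cancel, mul_one] <;> refine inv_mem ?_
  · exact D.a_mem_left _ _
  · exact D.a_mem_right _ _

theorem card_E_mul_le : Fintype.card D.E * p ≤ 3 * Fintype.card G := by
  classical
  have hsurj := D.E_surj
  choose i g hig using hsurj
  have hinj : Function.Injective
      (fun u : D.E × ZMod p => ((i u.1, g u.1 * D.a (i u.1) u.2) : ZMod 3 × G)) := by
    rintro ⟨e, x⟩ ⟨e', x'⟩ h
    simp only [Prod.mk.injEq] at h
    obtain ⟨h1, h2⟩ := h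
    have h3 : e = e' := by
      rw [hig e, hig e', ← D.mkE_mul (i e) (g e) x, ← D.mkE_mul (i e') (g e') x', h2, h1]
    subst h3
    have := D.a_inj _ (mul_left_cancel h2)
    rw [this]
  have := Fintype.card_le_of_injective _ hinj
  simpa [Fintype.card_prod, ZMod.card] using this

/-- The heights of edges. -/
def ht : D.E → ℤ :=
  Quotient.lift (fun u : ZMod 3 × G => ((D.X (u.1 + 1) u.2).val : ℤ) +
    if u.1 = 0 then 1 else 0) (by
    rintro ⟨i, g⟩ ⟨j, h⟩ ⟨h1, h2⟩
    dsimp only at h1 h2 ⊢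
    subst h1
    obtain ⟨x, hx⟩ := (D.mem_iff i _).1 h2
    have : h = g * D.a i x := by rw [hx]; group
    rw [this, D.X_mul, D.X_a, if_neg (TGraph.z3 i).1, add_zero])

lemma ht_mk (i : ZMod 3) (g : G) : D.ht (D.mkE i g) = ((D.X (i + 1) g).val : ℤ) +
    if i = 0 then 1 else 0 := rfl

/-- The heights of triangles. -/
def hf (g : G) : ℤ := ∑ k, ((D.X k g).val : ℤ) + 1

lemma sum_ht (g : G) : ∑ k, D.ht (D.mkE k g) = D.hf g := by
  have h1 : ∑ k, ((D.X (k + 1) g).val : ℤ) = ∑ k, ((D.X k g).val : ℤ) :=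
    Fintype.sum_equiv (Equiv.addRight (1 : ZMod 3)) _ _ (fun _ => rfl)
  simp only [ht_mk, Finset.sum_add_distrib, hf, h1]
  simp

lemma hf_pos (g : G) : 1 ≤ D.hf g := by
  unfold hf
  have : 0 ≤ ∑ k, ((D.X k g).val : ℤ) := Finset.sum_nonneg fun _ _ => by positivity
  linarith

lemma hf_lt (g : G) : D.hf g < 3 * p := by
  unfold hf
  have h : ∀ k, ((D.X k g).val : ℤ) ≤ p - 1 := by
    intro k
    have := ZMod.val_lt (D.X k g)
    omega
  have h3 : ∑ k, ((D.X k g).val : ℤ) ≤ ∑ _k : ZMod 3, ((p : ℤ) - 1) :=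
    Finset.sum_le_sum fun k _ => h k
  rw [Finset.sum_const, Finset.card_univ, ZMod.card, nsmul_eq_mul] at h3
  push_cast at h3
  linarith

lemma hf_ne {g h : G} {k : ZMod 3} (hgh : g ≠ h) (hk : D.mkE k g = D.mkE k h) :
    D.hf g ≠ D.hf h := by
  obtain ⟨-, h1⟩ := D.mkE_eq.1 hk
  obtain ⟨x, hx⟩ := (D.mem_iff k _).1 h1
  have hh : h = g * D.a k x := by rw [hx]; group
  have hx0 : x ≠ 0 := by
    rintro rfl
    rw [a_zero D.a_add, mul_one] at hh
    exact hgh hh.symm
  intro heq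
  unfold hf at heq
  rw [← Finset.add_sum_erase univ _ (mem_univ k),
    ← Finset.add_sum_erase univ (fun k => ((D.X k h).val : ℤ)) (mem_univ k)] at heq
  have h2 : ∑ j ∈ univ.erase k, ((D.X j g).val : ℤ) = ∑ j ∈ univ.erase k, ((D.X j h).val : ℤ) := by
    apply Finset.sum_congr rfl
    intro j hj
    rw [hh, D.X_mul, D.X_a, if_neg (Finset.ne_of_mem_erase hj), add_zero]
  rw [h2] at heq
  have h3 : (D.X k g).val = (D.X k h).val := by
    have : ((D.X k g).val : ℤ) = ((D.X k h).val : ℤ) := by linarith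
    exact_mod_cast this
  have h4 := ZMod.val_injective p h3
  rw [hh, D.X_mul, D.X_a, if_pos rfl] at h4
  exact hx0 (left_eq_add.1 h4)

/-- The perturbation functions on edges. -/
def pY (R : ℕ) (t : G) : D.E → ℤ :=
  Quotient.lift (fun u : ZMod 3 × G => wY D.a R u.1 (t⁻¹ * u.2)) (by
    rintro ⟨i, g⟩ ⟨j, h⟩ ⟨h1, h2⟩
    dsimp only at h1 h2 ⊢
    subst h1
    obtain ⟨x, hx⟩ := (D.mem_iff i _).1 h2
    have : t⁻¹ * h = t⁻¹ * g * D.a i x := by rw [hx]; group
    rw [this, wY_mul D.a_add])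

lemma pY_mk (R : ℕ) (t : G) (i : ZMod 3) (g : G) :
    D.pY R t (D.mkE i g) = wY D.a R i (t⁻¹ * g) := rfl

lemma sum_pY (R : ℕ) (t g : G) : ∑ k, D.pY R t (D.mkE k g) =
    -(3 * 2 ^ R) * wtot D.a 0 (t⁻¹ * g) + wc R R * wtot D.a (R + 1) (t⁻¹ * g) := by
  simp only [pY_mk]
  exact sum_wY D.a_add R _

/-- The basic weights, with integer values. -/
def wI (R : ℕ) (e : D.E) : ℤ := 3 * 2 ^ R * D.ht e

/-- The collapsing weights, with integer values. -/
def wtI (R : ℕ) (t : G) (e : D.E) : ℤ := 3 * 2 ^ R * D.ht e + D.hf t * D.pY R t e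

lemma sum_wI (R : ℕ) (g : G) : ∑ k, D.wI R (D.mkE k g) = 3 * 2 ^ R * D.hf g := by
  simp only [wI, ← Finset.mul_sum, sum_ht]

lemma sum_wtI (R : ℕ) (t g : G) : ∑ k, D.wtI R t (D.mkE k g) = 3 * 2 ^ R * D.hf g +
    D.hf t * (-(3 * 2 ^ R) * wtot D.a 0 (t⁻¹ * g) + wc R R * wtot D.a (R + 1) (t⁻¹ * g)) := by
  simp only [wtI, Finset.sum_add_distrib, ← Finset.mul_sum, sum_ht, sum_pY]

/-- Reduced words of length `R + 1` have different values, different from `1`. -/
def Good (R : ℕ) : Prop :=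
  p ≤ 2 ^ R ∧ (∀ g, 0 ≤ wtot D.a (R + 1) g ∧ wtot D.a (R + 1) g ≤ 1) ∧ wtot D.a (R + 1) 1 = 0

variable {D} {R : ℕ} (hG : D.Good R)

include hG in
lemma sum_wtI_self (t : G) : ∑ k, D.wtI R t (D.mkE k t) = 0 := by
  rw [sum_wtI, inv_mul_cancel, hG.2.2]
  simp only [wtot, if_true]
  ring

include hG in
lemma sum_wtI_other {t g : G} (h : g ≠ t) : ∃ δ : ℤ, ∑ k, D.wtI R t (D.mkE k g) =
    3 * 2 ^ R * D.hf g + wc R R * D.hf t * δ ∧ 0 ≤ δ ∧ δ ≤ 1 := by
  refine ⟨wtot D.a (R + 1) (t⁻¹ * g), ?_, hG.2.1 _⟩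
  rw [sum_wtI]
  have : t⁻¹ * g ≠ 1 := by
    intro h'
    apply h
    rw [inv_mul_eq_one] at h'
    exact h'.symm
  simp only [wtot, if_neg this]
  ring

include hG in
lemma hf_lt_D (g : G) : D.hf g < 3 * 2 ^ R := by
  have h1 := D.hf_lt g
  have h2 : (p : ℤ) ≤ 2 ^ R := by exact_mod_cast hG.1
  linarith

/-- The perturbations of the coset graph. -/
noncomputable def pert : Pert D.graph where
  w := fun e => (D.wI R e : ℝ)
  wt := fun t e => (D.wtI R t e : ℝ)
  pos := by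
    intro t
    have h : D.graph.tau t (fun e => (D.wI R e : ℝ)) = ((3 * 2 ^ R * D.hf t : ℤ) : ℝ) := by
      rw [← sum_wI]
      push_cast
      rfl
    rw [h]
    have := D.hf_pos t
    have : (0 : ℤ) < 3 * 2 ^ R * D.hf t := by positivity
    exact_mod_cast this
  zero := by
    intro t
    have h : D.graph.tau t (fun e => (D.wtI R t e : ℝ)) = ((0 : ℤ) : ℝ) := by
      rw [← sum_wtI_self hG t]
      push_cast
      rfl
    rw [h]
    simp
  pos' := by
    intro t g hgt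
    obtain ⟨δ, h1, h2, h3⟩ := sum_wtI_other hG hgt
    have h : D.graph.tau g (fun e => (D.wtI R t e : ℝ)) =
        ((3 * 2 ^ R * D.hf g + wc R R * D.hf t * δ : ℤ) : ℝ) := by
      rw [← h1]
      push_cast
      rfl
    rw [h]
    have h4 := D.hf_pos g
    have h5 := D.hf_pos t
    have h6 := hf_lt_D hG t
    have h7 : (3 : ℤ) * 2 ^ R ≤ 3 * 2 ^ R * D.hf g := by
      have : (0 : ℤ) < 3 * 2 ^ R := by positivity
      nlinarith
    have : (0 : ℤ) < 3 * 2 ^ R * D.hf g + wc R R * D.hf t * δ := by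
      rcases wc_self R with h | h <;> rw [h] <;> nlinarith
    exact_mod_cast this
  diff := by
    intro g h k hne hk
    have e : ∀ g, D.graph.tau g (fun e => (D.wI R e : ℝ)) = ((3 * 2 ^ R * D.hf g : ℤ) : ℝ) := by
      intro g
      rw [← sum_wI]
      push_cast
      rfl
    rw [e, e]
    intro heq
    have heq' : (3 : ℤ) * 2 ^ R * D.hf g = 3 * 2 ^ R * D.hf h := by exact_mod_cast heq
    have h0 : (3 : ℤ) * 2 ^ R ≠ 0 := by positivity
    exact D.hf_ne hne hk (mul_left_cancel₀ h0 heq')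
  diff' := by
    intro t g h k hne hk htg hth
    have e : ∀ g, D.graph.tau g (fun e => (D.wI R e : ℝ)) = ((3 * 2 ^ R * D.hf g : ℤ) : ℝ) := by
      intro g
      rw [← sum_wI]
      push_cast
      rfl
    obtain ⟨δ, h1, h2, h3⟩ := sum_wtI_other hG (Ne.symm htg)
    obtain ⟨δ', h1', h2', h3'⟩ := sum_wtI_other hG (Ne.symm hth)
    have e1 : D.graph.tau g (fun e => (D.wtI R t e : ℝ)) =
        ((3 * 2 ^ R * D.hf g + wc R R * D.hf t * δ : ℤ) : ℝ) := by
      rw [← h1]
      push_cast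
      rfl
    have e2 : D.graph.tau h (fun e => (D.wtI R t e : ℝ)) =
        ((3 * 2 ^ R * D.hf h + wc R R * D.hf t * δ' : ℤ) : ℝ) := by
      rw [← h1']
      push_cast
      rfl
    rw [e, e, e1, e2]
    have e3 : (((3 * 2 ^ R * D.hf g + wc R R * D.hf t * δ : ℤ) : ℝ) -
        ((3 * 2 ^ R * D.hf h + wc R R * D.hf t * δ' : ℤ) : ℝ)) =
        (((3 * 2 ^ R * D.hf g : ℤ) : ℝ) - ((3 * 2 ^ R * D.hf h : ℤ) : ℝ)) +
        ((wc R R * D.hf t * (δ - δ') : ℤ) : ℝ) := by
      push_cast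
      ring
    rw [e3]
    apply sign_add_of_lt
    have h5 := D.hf_pos t
    have h6 := hf_lt_D hG t
    have h7 : |wc R R * D.hf t * (δ - δ')| < |3 * 2 ^ R * D.hf g - 3 * 2 ^ R * D.hf h| := by
      have h8 : |wc R R * D.hf t * (δ - δ')| ≤ D.hf t := by
        rw [abs_mul, abs_mul]
        have h9 : |wc R R| = 1 := by rcases wc_self R with h | h <;> rw [h] <;> simp
        have h10 : |D.hf t| = D.hf t := abs_of_pos (by linarith)
        have h11 : |δ - δ'| ≤ 1 := by rw [abs_le]; constructor <;> linarith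
        rw [h9, h10, one_mul]
        nlinarith [abs_nonneg (δ - δ')]
      have h12 : (3 : ℤ) * 2 ^ R ≤ |3 * 2 ^ R * D.hf g - 3 * 2 ^ R * D.hf h| := by
        rw [← mul_sub, abs_mul]
        have h13 : |(3 : ℤ) * 2 ^ R| = 3 * 2 ^ R := abs_of_pos (by positivity)
        rw [h13]
        have h14 : 1 ≤ |D.hf g - D.hf h| := Int.one_le_abs (sub_ne_zero.2 (D.hf_ne hne hk))
        have : (0 : ℤ) < 3 * 2 ^ R := by positivity
        nlinarith
      linarith
    rw [← Int.cast_sub, ← Int.cast_abs, ← Int.cast_abs]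
    exact_mod_cast h7

end CosetGeo

end Pool.Agent.FourLin
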