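import Pool.Agent.FourLin.Adv

/-!
Relations between few coordinates of the base points, and the uniqueness of the circulation
supported on four given edges.
-/

set_option linter.unusedSectionVars false

namespace Pool.Agent.FourLin

open Finset

/-- A vector which satisfies all relations between the coordinates at the positions `pos` of the
elements of the range of `Λ` agrees there with an element of the range. -/
lemma exists_omega {J : Type*} [Fintype J] {n s : ℕ} (Λ : (J → ℝ) →ₗ[ℝ] (Fin n → ℝ))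
    (pos : Fin s → Fin n) (ζ : Fin n → ℝ)
    (h : ∀ c : Fin n → ℝ, (∀ j, j ∉ Set.range pos → c j = 0) →
      (∀ θ, ∑ j, c j * Λ θ j = 0) → ∑ j, c j * ζ j = 0) :
    ∃ ω, ∀ i, ζ (pos i) = Λ ω (pos i) := by
  classical
  set L : (J → ℝ) →ₗ[ℝ] (Fin s → ℝ) := LinearMap.funLeft ℝ ℝ pos ∘ₗ Λ with hL
  by_contra hcon
  have hnot : (fun i => ζ (pos i)) ∉ LinearMap.range L := by
    rintro ⟨ω, hω⟩
    exact hcon ⟨ω, fun i => (congrFun hω i).symm⟩
  obtain ⟨f, hf, hle⟩ := Submodule.exists_le_ker_of_notMem hnot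
  have hfs : ∀ y : Fin n → ℝ, f (fun i => y (pos i)) =
      ∑ j, (∑ i, if pos i = j then f (fun l => if i = l then 1 else 0) else 0) * y j := by
    intro y
    rw [LinearMap.pi_apply_eq_sum_univ f]
    simp only [Finset.sum_mul, ite_mul, zero_mul, smul_eq_mul]
    rw [Finset.sum_comm]
    apply Finset.sum_congr rfl
    intro i _
    rw [Finset.sum_ite_eq]
    simp only [mem_univ, if_true]
    ring
  apply hf
  rw [hfs]
  apply h
  · intro j hj
    apply Finset.sum_eq_zero
    intro i _
    rw [if_neg]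
    rintro rfl
    exact hj ⟨i, rfl⟩
  · intro θ
    rw [← hfs]
    exact hle ⟨θ, rfl⟩

variable {X I T : Type*} [DecidableEq X] [Fintype I] [DecidableEq I]

namespace TGraph

variable (Γ : TGraph X I T)

lemma par' {e e' : I} {x y : X} (hxy : x ≠ y) (h1 : Γ.Inc e x) (h2 : Γ.Inc e y)
    (h3 : Γ.Inc e' x) (h4 : Γ.Inc e' y) : e = e' := by
  rcases h3 with h3 | h3 <;> rcases h4 with h4 | h4
  · exact absurd (h3.symm.trans h4) hxy
  · exact Γ.par (h3 ▸ h1) (h4 ▸ h2)
  · exact Γ.par (h4 ▸ h2) (h3 ▸ h1)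
  · exact absurd (h3.symm.trans h4) hxy

/-- Two circulations supported on the same set of at most four edges are proportional. -/
theorem circ_unique {α β : I → ℝ} (hα : Γ.IsCirc α) (hβ : Γ.IsCirc β) {E : Finset I}
    (hE : E.card ≤ 4) (hαE : ∀ e, α e ≠ 0 → e ∈ E) (hβE : ∀ e, β e ≠ 0 → e ∈ E) {e0 : I}
    (he0 : α e0 ≠ 0) : ∀ e, β e = β e0 / α e0 * α e := by
  set l := β e0 / α e0 with hl
  set γ : I → ℝ := fun e => β e - l * α e with hγ
  have hγc : Γ.IsCirc γ := by
    intro x
    have h1 := hα x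
    have h2 := hβ x
    have : ∀ f : I → X, ∑ e, (if f e = x then γ e else 0) =
        ∑ e, (if f e = x then β e else 0) - l * ∑ e, (if f e = x then α e else 0) := by
      intro f
      rw [Finset.mul_sum, ← Finset.sum_sub_distrib]
      apply Finset.sum_congr rfl
      intro e _
      split_ifs
      · rfl
      · ring
    rw [this, this, h1, h2]
  have hγ0 : γ e0 = 0 := by
    simp only [hγ, hl]
    field_simp
    ring
  have hγE : ∀ e, γ e ≠ 0 → e ∈ E.erase e0 := by
    intro e he
    rw [Finset.mem_erase]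
    refine ⟨?_, ?_⟩
    · rintro rfl
      exact he hγ0
    · by_contra hcon
      have h1 : α e = 0 := by
        by_contra h
        exact hcon (hαE e h)
      have h2 : β e = 0 := by
        by_contra h
        exact hcon (hβE e h)
      apply he
      simp [hγ, h1, h2]
  suffices hz : ∀ e, γ e = 0 by
    intro e
    have := hz e
    simp only [hγ] at this
    linarith
  by_contra hcon
  push Not at hcon
  obtain ⟨e1, he1⟩ := hcon
  obtain ⟨e2, he2, h21, hi2⟩ := Γ.exists_other hγc he1 (x := Γ.tgt e1) (Or.inr rfl)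
  obtain ⟨e3, he3, h31, hi3⟩ := Γ.exists_other hγc he1 (x := Γ.src e1) (Or.inl rfl)
  have h23 : e2 ≠ e3 := by
    rintro rfl
    exact h21 (Γ.par hi3 hi2)
  have hne1 := Γ.src_ne_tgt e1
  have hcard : (E.erase e0).card ≤ 3 := by
    rw [Finset.card_erase_of_mem (hαE e0 he0)]
    omega
  have hsub : ({e1, e2, e3} : Finset I) ⊆ E.erase e0 := by
    intro e he
    simp only [mem_insert, mem_singleton] at he
    rcases he with rfl | rfl | rfl
    · exact hγE _ he1
    · exact hγE _ he2
    · exact hγE _ he3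
  have hc3 : ({e1, e2, e3} : Finset I).card = 3 := by
    rw [card_insert_of_notMem, card_insert_of_notMem, card_singleton]
    · simpa using h23
    · simp [h21.symm, h31.symm]
  have heq : ({e1, e2, e3} : Finset I) = E.erase e0 :=
    Finset.eq_of_subset_of_card_le hsub (by omega)
  have hmem : ∀ e, e ∈ E → e ≠ e0 → e = e1 ∨ e = e2 ∨ e = e3 := by
    intro e he hne
    have : e ∈ ({e1, e2, e3} : Finset I) := by
      rw [heq, Finset.mem_erase]
      exact ⟨hne, he⟩
    simpa using this
  have he01 : e0 ≠ e1 := by rintro rfl; exact he1 hγ0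
  have he02 : e0 ≠ e2 := by rintro rfl; exact he2 hγ0
  have he03 : e0 ≠ e3 := by rintro rfl; exact he3 hγ0
  -- the third vertex
  obtain ⟨c, hc2, hcb⟩ : ∃ c, Γ.Inc e2 c ∧ c ≠ Γ.tgt e1 := by
    rcases hi2 with h | h
    · exact ⟨Γ.tgt e2, Or.inr rfl, fun h' => Γ.src_ne_tgt e2 (h.trans h'.symm)⟩
    · exact ⟨Γ.src e2, Or.inl rfl, fun h' => Γ.src_ne_tgt e2 (h'.trans h.symm)⟩
  have hca : c ≠ Γ.src e1 := by
    rintro rfl
    exact h21 (Γ.par hc2 hi2)
  obtain ⟨e4, he4, h42, hi4⟩ := Γ.exists_other hγc he2 hc2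
  have hc3' : Γ.Inc e3 c := by
    have h5 := Finset.mem_erase.1 (hγE e4 he4)
    rcases hmem e4 h5.2 h5.1 with rfl | rfl | rfl
    · rcases hi4 with h | h
      · exact absurd h.symm hca
      · exact absurd h.symm hcb
    · exact absurd rfl h42
    · exact hi4
  have hend1 : ∀ x, Γ.Inc e1 x → x = Γ.src e1 ∨ x = Γ.tgt e1 ∨ x = c := by
    rintro x (h | h)
    · exact Or.inl h.symm
    · exact Or.inr (Or.inl h.symm)
  have hend2 : ∀ x, Γ.Inc e2 x → x = Γ.src e1 ∨ x = Γ.tgt e1 ∨ x = c := by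
    intro x hx
    by_contra hcon
    push Not at hcon
    rcases hx with h | h <;> rcases hi2 with h' | h' <;> rcases hc2 with h'' | h''
    · exact hcb (h''.symm.trans h')
    · exact hcon.2.1 (h.symm.trans h')
    · exact hcon.2.2 (h.symm.trans h'')
    · exact hcb (h''.symm.trans h')
    · exact hcb (h''.symm.trans h')
    · exact hcon.2.2 (h.symm.trans h'')
    · exact hcon.2.1 (h.symm.trans h')
    · exact hcb (h''.symm.trans h')
  have hend3 : ∀ x, Γ.Inc e3 x → x = Γ.src e1 ∨ x = Γ.tgt e1 ∨ x = c := by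
    intro x hx
    by_contra hcon
    push Not at hcon
    rcases hx with h | h <;> rcases hi3 with h' | h' <;> rcases hc3' with h'' | h''
    · exact hca (h''.symm.trans h')
    · exact hcon.1 (h.symm.trans h')
    · exact hcon.2.2 (h.symm.trans h'')
    · exact hca (h''.symm.trans h')
    · exact hca (h''.symm.trans h')
    · exact hcon.2.2 (h.symm.trans h'')
    · exact hcon.1 (h.symm.trans h')
    · exact hca (h''.symm.trans h')
  have hend0 : ∀ x, Γ.Inc e0 x → x = Γ.src e1 ∨ x = Γ.tgt e1 ∨ x = c := by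
    intro x hx
    obtain ⟨e5, he5, h50, hi5⟩ := Γ.exists_other hα he0 hx
    rcases hmem e5 (hαE e5 he5) h50 with rfl | rfl | rfl
    · exact hend1 x hi5
    · exact hend2 x hi5
    · exact hend3 x hi5
  have hne0 := Γ.src_ne_tgt e0
  have i1 : Γ.Inc e0 (Γ.src e0) := Or.inl rfl
  have i2 : Γ.Inc e0 (Γ.tgt e0) := Or.inr rfl
  rcases hend0 _ i1 with h | h | h <;> rcases hend0 _ i2 with h' | h' | h'
  · exact hne0 (h.trans h'.symm)
  · rw [h] at i1; rw [h'] at i2
    exact he01 (Γ.par i1 i2)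
  · rw [h] at i1; rw [h'] at i2
    exact he03 (Γ.par' hca.symm i1 i2 hi3 hc3')
  · rw [h] at i1; rw [h'] at i2
    exact he01 (Γ.par i2 i1)
  · exact hne0 (h.trans h'.symm)
  · rw [h] at i1; rw [h'] at i2
    exact he02 (Γ.par' hcb.symm i1 i2 hi2 hc2)
  · rw [h] at i1; rw [h'] at i2
    exact he03 (Γ.par' hca.symm i2 i1 hi3 hc3')
  · rw [h] at i1; rw [h'] at i2
    exact he02 (Γ.par' hcb.symm i2 i1 hi2 hc2)
  · exact hne0 (h.trans h'.symm)

end TGraph

end Pool.Agent.FourLin
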