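import Pool.Agent.FourLin.Coset

/-!
The group extension used for the construction of coset geometries.
-/

set_option linter.unusedSectionVars false
set_option linter.unusedSimpArgs false

namespace Pool.Agent.FourLin

open TensorProduct

/-- A group with two one-parameter subgroups, a module and a cocycle. -/
structure Loc (F K V Z : Type*) [Field F] [Field K] [Algebra F K] [Group V] [AddCommGroup Z]
    [Module K Z] where
  ρ : V →* (Z →ₗ[K] Z)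
  ψ : V → Z
  ψ_mul : ∀ g h, ψ (g * h) = ψ g + ρ g (ψ h)
  εE : V → F
  εF : V → F
  w : V → F
  εE_mul : ∀ g h, εE (g * h) = εE g + εE h
  εF_mul : ∀ g h, εF (g * h) = εF g + εF h
  w_mul : ∀ g h, w (g * h) = w g + w h + εE g * εF h
  aE : F → V
  aF : F → V
  aE_add : ∀ x y, aE (x + y) = aE x * aE y
  aF_add : ∀ x y, aF (x + y) = aF x * aF y
  εE_aE : ∀ x, εE (aE x) = x
  εF_aE : ∀ x, εF (aE x) = 0
  w_aE : ∀ x, w (aE x) = 0
  εE_aF : ∀ x, εE (aF x) = 0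
  εF_aF : ∀ x, εF (aF x) = x
  w_aF : ∀ x, w (aF x) = 0
  ψ_aE : ∀ x, ψ (aE x) = 0
  eq_aE : ∀ g, ψ g = 0 → g = aE (εE g)
  η : Z
  ψ_aF : ∀ x, ψ (aF x) = algebraMap F K x • η
  ρ_aF : ∀ x, ρ (aF x) η = η
  lam : Z →ₗ[K] K
  lam_ψ : ∀ g, lam (ψ g) = algebraMap F K (εF g)
  lam_ρ : ∀ g z, lam (ρ g z) = lam z
  τ : V →* V
  τ_aE : ∀ x, τ (aE x) = aF x
  τ_aF : ∀ x, τ (aF x) = aE x
  τ_inj : Function.Injective τ

variable {F K V Z : Type*} [Field F] [Field K] [Algebra F K] [Group V] [AddCommGroup Z]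
  [Module K Z]

namespace Loc

variable (L : Loc F K V Z)

lemma aE_zero : L.aE 0 = 1 := by
  have := L.aE_add 0 0
  rw [add_zero] at this
  exact left_eq_mul.1 this

lemma aF_zero : L.aF 0 = 1 := by
  have := L.aF_add 0 0
  rw [add_zero] at this
  exact left_eq_mul.1 this

lemma ψ_one : L.ψ 1 = 0 := by rw [← L.aE_zero]; exact L.ψ_aE 0

lemma w_one : L.w 1 = 0 := by rw [← L.aE_zero]; exact L.w_aE 0

lemma εE_one : L.εE 1 = 0 := by rw [← L.aE_zero]; exact L.εE_aE 0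

lemma εF_one : L.εF 1 = 0 := by rw [← L.aE_zero]; exact L.εF_aE 0

lemma ρ_inv (g : V) (z : Z) : L.ρ g⁻¹ (L.ρ g z) = z := by
  have := congrArg (fun f : Z →ₗ[K] Z => f z) (L.ρ.map_mul g⁻¹ g)
  simp only [inv_mul_cancel, map_one, Module.End.one_apply, Module.End.mul_apply] at this
  exact this.symm

lemma ρ_eq_zero {g : V} {z : Z} (h : L.ρ g z = 0) : z = 0 := by
  rw [← L.ρ_inv g z, h, map_zero]

lemma lam_η : L.lam L.η = 1 := by
  have h1 := L.lam_ψ (L.aF 1)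
  rw [L.ψ_aF, L.εF_aF, map_one, one_smul] at h1
  exact h1

end Loc

/-- The extension of `V × V` by `Z ⊗ Z`. -/
@[ext] structure QQ (L : Loc F K V Z) where
  g : V
  h : V
  c : Z ⊗[K] Z

namespace QQ

variable {L : Loc F K V Z}

instance : Mul (QQ L) := ⟨fun a b => ⟨a.g * b.g, a.h * b.h,
  a.c + TensorProduct.map (L.ρ a.g) (L.ρ a.h) b.c + L.ψ a.g ⊗ₜ[K] L.ρ a.h (L.ψ b.h)⟩⟩

instance : One (QQ L) := ⟨⟨1, 1, 0⟩⟩

instance : Inv (QQ L) := ⟨fun a => ⟨a.g⁻¹, a.h⁻¹,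
  -(TensorProduct.map (L.ρ a.g⁻¹) (L.ρ a.h⁻¹) a.c + L.ψ a.g⁻¹ ⊗ₜ[K] L.ρ a.h⁻¹ (L.ψ a.h))⟩⟩

@[simp] lemma mul_g (a b : QQ L) : (a * b).g = a.g * b.g := rfl
@[simp] lemma mul_h (a b : QQ L) : (a * b).h = a.h * b.h := rfl
lemma mul_c (a b : QQ L) : (a * b).c = a.c + TensorProduct.map (L.ρ a.g) (L.ρ a.h) b.c +
  L.ψ a.g ⊗ₜ[K] L.ρ a.h (L.ψ b.h) := rfl
@[simp] lemma one_g : (1 : QQ L).g = 1 := rfl
@[simp] lemma one_h : (1 : QQ L).h = 1 := rfl
@[simp] lemma one_c : (1 : QQ L).c = 0 := rfl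

instance : Group (QQ L) where
  mul_assoc := by
    intro x y z
    ext
    · simp [mul_assoc]
    · simp [mul_assoc]
    · simp only [mul_c, mul_g, mul_h, map_mul, TensorProduct.map_mul, Module.End.mul_apply,
        map_add, TensorProduct.map_tmul, L.ψ_mul, TensorProduct.add_tmul, TensorProduct.tmul_add]
      abel
  one_mul := by
    intro a
    ext
    · simp
    · simp
    · simp only [mul_c, one_g, one_h, one_c, L.ψ_one, map_one, TensorProduct.zero_tmul]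
      simp
  mul_one := by
    intro a
    ext
    · simp
    · simp
    · simp only [mul_c, one_g, one_h, one_c, L.ψ_one, map_zero, TensorProduct.tmul_zero]
      simp
  inv_mul_cancel := by
    intro a
    ext
    · show a.g⁻¹ * a.g = 1
      simp
    · show a.h⁻¹ * a.h = 1
      simp
    · show -(TensorProduct.map (L.ρ a.g⁻¹) (L.ρ a.h⁻¹) a.c +
        L.ψ a.g⁻¹ ⊗ₜ[K] L.ρ a.h⁻¹ (L.ψ a.h)) + TensorProduct.map (L.ρ a.g⁻¹) (L.ρ a.h⁻¹) a.c +
        L.ψ a.g⁻¹ ⊗ₜ[K] L.ρ a.h⁻¹ (L.ψ a.h) = 0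
      abel

/-- The first embedding. -/
def Lh (L : Loc F K V Z) : V →* QQ L where
  toFun g := ⟨g, L.aE (L.εE g), 0⟩
  map_one' := by
    ext
    · rfl
    · simp [L.εE_one, L.aE_zero]
    · rfl
  map_mul' := by
    intro a b
    ext
    · rfl
    · simp [L.εE_mul, L.aE_add]
    · simp [mul_c, L.ψ_aE]

/-- The second embedding. -/
def Rh (L : Loc F K V Z) : V →* QQ L where
  toFun g := ⟨L.aE (L.εE g), g, 0⟩
  map_one' := by
    ext
    · simp [L.εE_one, L.aE_zero]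
    · rfl
    · rfl
  map_mul' := by
    intro a b
    ext
    · simp [L.εE_mul, L.aE_add]
    · rfl
    · simp [mul_c, L.ψ_aE]

/-- The third homomorphism. -/
def Hh (L : Loc F K V Z) : V →* QQ L where
  toFun g := ⟨L.aF (L.εE g), L.aF (L.εF g), algebraMap F K (L.w g) • (L.η ⊗ₜ[K] L.η)⟩
  map_one' := by
    ext
    · simp [L.εE_one, L.aF_zero]
    · simp [L.εF_one, L.aF_zero]
    · simp [L.w_one]
  map_mul' := by
    intro a b
    ext
    · simp [L.εE_mul, L.aF_add]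
    · simp [L.εF_mul, L.aF_add]
    · simp only [mul_c, map_smul, TensorProduct.map_tmul, L.ρ_aF, L.ψ_aF, L.w_mul]
      rw [TensorProduct.smul_tmul_smul, ← add_smul, ← add_smul, map_add, map_add, map_mul]

@[simp] lemma Lh_g (g : V) : (Lh L g).g = g := rfl
@[simp] lemma Lh_h (g : V) : (Lh L g).h = L.aE (L.εE g) := rfl
@[simp] lemma Lh_c (g : V) : (Lh L g).c = 0 := rfl
@[simp] lemma Rh_g (g : V) : (Rh L g).g = L.aE (L.εE g) := rfl
@[simp] lemma Rh_h (g : V) : (Rh L g).h = g := rfl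
@[simp] lemma Rh_c (g : V) : (Rh L g).c = 0 := rfl
@[simp] lemma Hh_g (g : V) : (Hh L g).g = L.aF (L.εE g) := rfl
@[simp] lemma Hh_h (g : V) : (Hh L g).h = L.aF (L.εF g) := rfl
@[simp] lemma Hh_c (g : V) : (Hh L g).c = algebraMap F K (L.w g) • (L.η ⊗ₜ[K] L.η) := rfl

/-- Contraction of the first factor. -/
noncomputable def ev1 (ξ : Module.Dual K Z) : Z ⊗[K] Z →ₗ[K] Z :=
  (TensorProduct.lid K Z).toLinearMap ∘ₗ TensorProduct.map ξ LinearMap.id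

/-- Contraction of the second factor. -/
noncomputable def ev2 (ξ : Module.Dual K Z) : Z ⊗[K] Z →ₗ[K] Z :=
  (TensorProduct.rid K Z).toLinearMap ∘ₗ TensorProduct.map LinearMap.id ξ

@[simp] lemma ev1_tmul (ξ : Module.Dual K Z) (a b : Z) : ev1 ξ (a ⊗ₜ[K] b) = ξ a • b := by
  simp [ev1]

@[simp] lemma ev2_tmul (ξ : Module.Dual K Z) (a b : Z) : ev2 ξ (a ⊗ₜ[K] b) = ξ b • a := by
  simp [ev2]

lemma exists_dual_one {z : Z} (hz : z ≠ 0) : ∃ ξ : Module.Dual K Z, ξ z = 1 := by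
  obtain ⟨ξ, hξ⟩ : ∃ ξ : Module.Dual K Z, ξ z ≠ 0 := by
    by_contra h
    push Not at h
    exact hz ((Module.forall_dual_apply_eq_zero_iff K z).1 h)
  exact ⟨(ξ z)⁻¹ • ξ, by simp [hξ]⟩

lemma LR_c (g h : V) : (Lh L g * Rh L h).c =
    L.ψ g ⊗ₜ[K] L.ρ (L.aE (L.εE g)) (L.ψ h) := by
  simp [mul_c]

lemma RL_c (g h : V) : (Rh L h * Lh L g).c = 0 := by
  simp [mul_c, L.ψ_aE]

lemma RH_c (h k : V) : (Rh L h * Hh L k).c =
    algebraMap F K (L.w k) • (L.ρ (L.aE (L.εE h)) L.η ⊗ₜ[K] L.ρ h L.η) := by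
  simp [mul_c, L.ψ_aE]

lemma HL_c (k g : V) : (Hh L k * Lh L g).c = algebraMap F K (L.w k) • (L.η ⊗ₜ[K] L.η) := by
  simp [mul_c, L.ψ_aE]

theorem Q1 {g h g' h' : V} (heq : Lh L g * Rh L h = Rh L h' * Lh L g') :
    L.ψ g = 0 ∨ L.ψ h = 0 := by
  have h1 := congrArg QQ.c heq
  rw [LR_c, RL_c] at h1
  by_cases hg : L.ψ g = 0
  · exact Or.inl hg
  right
  obtain ⟨ξ, hξ⟩ := exists_dual_one (K := K) hg
  have h2 := congrArg (ev1 ξ) h1
  rw [ev1_tmul, hξ, one_smul, map_zero] at h2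
  exact L.ρ_eq_zero h2

theorem Q2 {g h h' k : V} (heq : Lh L g * Rh L h = Rh L h' * Hh L k) :
    L.ψ g = 0 ∨ ∃ s r, h = L.aE s * L.aF r := by
  have h1 := congrArg QQ.c heq
  have h0 := congrArg QQ.h heq
  rw [LR_c, RH_c] at h1
  simp only [mul_h, Lh_h, Rh_h, Hh_h] at h0
  by_cases hg : L.ψ g = 0
  · exact Or.inl hg
  right
  obtain ⟨ξ, hξ⟩ := exists_dual_one (K := K) hg
  have h2 := congrArg (ev1 ξ) h1
  rw [ev1_tmul, hξ, one_smul, map_smul, ev1_tmul, smul_smul] at h2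
  set s := algebraMap F K (L.w k) * ξ (L.ρ (L.aE (L.εE h')) L.η)
  have h3 : L.ρ h' L.η = L.ρ (L.aE (L.εE g)) (L.ρ h L.η) := by
    have : L.ρ (h' * L.aF (L.εF k)) L.η = L.ρ (L.aE (L.εE g) * h) L.η := by rw [h0]
    simpa [Module.End.mul_apply, L.ρ_aF] using this
  rw [h3, ← map_smul, ← sub_eq_zero, ← map_sub] at h2
  have h4 : L.ψ h = s • L.ρ h L.η := sub_eq_zero.1 (L.ρ_eq_zero h2)
  have h6 : algebraMap F K (L.εF h) = s := by
    have := congrArg L.lam h4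
    rwa [L.lam_ψ, map_smul, L.lam_ρ, L.lam_η, smul_eq_mul, mul_one] at this
  have h5 : L.ψ (h * L.aF (-L.εF h)) = 0 := by
    rw [L.ψ_mul, L.ψ_aF, h4, map_smul, ← add_smul, map_neg, h6, add_neg_cancel, zero_smul]
  refine ⟨L.εE (h * L.aF (-L.εF h)), L.εF h, ?_⟩
  rw [← L.eq_aE _ h5, mul_assoc, ← L.aF_add, neg_add_cancel, L.aF_zero, mul_one]

theorem Q3 {g h g' k : V} (heq : Lh L g * Rh L h = Hh L k * Lh L g') :
    L.ψ h = 0 ∨ ∃ s r, g = L.aF s * L.aE r := by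
  have h1 := congrArg QQ.c heq
  rw [LR_c, HL_c] at h1
  by_cases hh : L.ψ h = 0
  · exact Or.inl hh
  right
  have hb : L.ρ (L.aE (L.εE g)) (L.ψ h) ≠ 0 := fun h' => hh (L.ρ_eq_zero h')
  obtain ⟨ξ, hξ⟩ := exists_dual_one (K := K) hb
  have h2 := congrArg (ev2 ξ) h1
  rw [ev2_tmul, hξ, one_smul, map_smul, ev2_tmul, smul_smul] at h2
  set s := algebraMap F K (L.w k) * ξ L.η
  have h6 : algebraMap F K (L.εF g) = s := by
    have := congrArg L.lam h2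
    rwa [L.lam_ψ, map_smul, L.lam_η, smul_eq_mul, mul_one] at this
  have h5 : L.ψ (L.aF (-L.εF g) * g) = 0 := by
    rw [L.ψ_mul, L.ψ_aF, h2, map_smul, L.ρ_aF, ← add_smul, map_neg, h6, neg_add_cancel, zero_smul]
  refine ⟨L.εF g, L.εE (L.aF (-L.εF g) * g), ?_⟩
  rw [← L.eq_aE _ h5, ← mul_assoc, ← L.aF_add, add_neg_cancel, L.aF_zero, one_mul]

end QQ

end Pool.Agent.FourLin
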