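import Pool.Agent.FourLin.AdvZ

/-!
From perturbations to lower bounds for randomised four-linear decision trees.
-/

set_option linter.unusedSectionVars false
set_option linter.unusedSimpArgs false

namespace Pool.Agent.FourLin

open Finset

variable {X I T : Type*} [DecidableEq X] [Fintype I] [DecidableEq I] [Fintype T]
variable {Γ : TGraph X I T}

lemma exists_inputs (P : Pert Γ) (hw : ∀ e, ∃ z : ℤ, P.w e = z) (hwt : ∀ t e, ∃ z : ℤ,
    P.wt t e = z) {n : ℕ} (emb : I ↪ Fin n) {σ : ℝ} (hσ : σ = 1 ∨ σ = -1)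
    {Ω : Type} [Fintype Ω] (A : Ω → LTree n) (hA : ∀ ω, (A ω).Sparse 4) :
    ∃ (x : Fin n → ℤ) (y : T → Fin n → ℤ), Function.Injective x ∧
      (∀ t, Function.Injective (y t)) ∧ ¬ HasSol σ (toReal x) ∧
      (∀ t, HasSol σ (toReal (y t))) ∧
      ∀ ω, ∀ S : Finset T, (∀ t ∈ S, (A ω).answer (toReal (y t)) ≠ (A ω).answer (toReal x)) →
        S.card ≤ 2 * (A ω).cost (toReal x) := by
  classical
  obtain ⟨x, y, h1, h2, h3, h4, h5⟩ := adversaryZ P hw hwt emb hσ (⋃ ω, (A ω).questions)
    (Set.finite_iUnion fun ω => (A ω).questions_finite) (by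
      intro q hq
      obtain ⟨ω, hω⟩ := Set.mem_iUnion.1 hq
      exact LTree.sparse_questions (hA ω) q hω)
  refine ⟨x, y, h1, h2, h3, h4, ?_⟩
  intro ω S hS
  refine le_trans (Finset.card_le_card ?_) (LTree.card_answer_ne (toReal x)
    (fun t => toReal (y t)) (A ω) fun q hq => ?_)
  · intro t ht
    simpa using hS t ht
  · exact h5 q (Set.mem_iUnion.2 ⟨ω, hq⟩)

theorem solver_bound (P : Pert Γ) (hw : ∀ e, ∃ z : ℤ, P.w e = z) (hwt : ∀ t e, ∃ z : ℤ,
    P.wt t e = z) {n : ℕ} (emb : I ↪ Fin n) {σ : ℝ} (hσ : σ = 1 ∨ σ = -1)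
    {Ω : Type} [Fintype Ω] {E : ℝ} {μ : Ω → ℝ} {A : Ω → LTree n}
    (h : Solver σ n 4 E μ A) : (Fintype.card T : ℝ) ≤ 6 * E := by
  classical
  obtain ⟨hμ, hμ1, hA, hx⟩ := h
  obtain ⟨x, y, h1, h2, h3, h4, h5⟩ := exists_inputs P hw hwt emb hσ A hA
  set a : Ω → ℝ := fun ω =>
    if ((A ω).answer (toReal x) = true ↔ HasSol σ (toReal x)) then μ ω else 0 with ha
  set b : T → Ω → ℝ := fun t ω =>
    if ((A ω).answer (toReal (y t)) = true ↔ HasSol σ (toReal (y t))) then μ ω else 0 with hb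
  set c : T → Ω → ℝ := fun t ω =>
    if (A ω).answer (toReal (y t)) ≠ (A ω).answer (toReal x) then μ ω else 0 with hc
  have ha1 : 2 / 3 ≤ ∑ ω, a ω := by
    have := (hx x h1).1
    refine le_trans this (le_of_eq ?_)
    apply Finset.sum_congr rfl
    intro ω _
    simp only [ha]
  have hb1 : ∀ t, 2 / 3 ≤ ∑ ω, b t ω := by
    intro t
    have := (hx (y t) (h2 t)).1
    refine le_trans this (le_of_eq ?_)
    apply Finset.sum_congr rfl
    intro ω _
    simp only [hb]
  have hc1 : ∀ t, 1 / 3 ≤ ∑ ω, c t ω := by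
    intro t
    have : ∀ ω, a ω + b t ω - μ ω ≤ c t ω := by
      intro ω
      have := hμ ω
      have e3 : (A ω).answer (toReal (y t)) = true ↔
          ((A ω).answer (toReal (y t)) = true ↔ HasSol σ (toReal (y t))) := by
        simp [h4 t]
      simp only [ha, hb, hc]
      split_ifs with q1 q2 q3 q4 q5 q6 <;> first
        | linarith
        | (exfalso
           have e1 : (A ω).answer (toReal (y t)) = true := by tauto
           have e2 : ¬ (A ω).answer (toReal x) = true := fun h => h3 (q1.1 h)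
           have e4 : (A ω).answer (toReal (y t)) = (A ω).answer (toReal x) := by tauto
           rw [e4] at e1
           exact e2 e1)
    have h7 := Finset.sum_le_sum fun ω (_ : ω ∈ Finset.univ) => this ω
    rw [Finset.sum_sub_distrib, Finset.sum_add_distrib, hμ1] at h7
    have := hb1 t
    linarith
  have hc2 : ∀ ω, ∑ t, c t ω ≤ 2 * (μ ω * ((A ω).cost (toReal x) : ℝ)) := by
    intro ω
    have hcard := h5 ω (univ.filter fun t =>
      (A ω).answer (toReal (y t)) ≠ (A ω).answer (toReal x)) (by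
        intro t ht
        exact (mem_filter.1 ht).2)
    have e1 : ∑ t, c t ω = ((univ.filter fun t =>
        (A ω).answer (toReal (y t)) ≠ (A ω).answer (toReal x)).card : ℝ) * μ ω := by
      simp only [hc]
      rw [← Finset.sum_filter, Finset.sum_const, nsmul_eq_mul]
    rw [e1]
    have h8 : ((univ.filter fun t =>
        (A ω).answer (toReal (y t)) ≠ (A ω).answer (toReal x)).card : ℝ) ≤
        ((2 * (A ω).cost (toReal x) : ℕ) : ℝ) := by exact_mod_cast hcard
    have := mul_le_mul_of_nonneg_right h8 (hμ ω)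
    push_cast at this
    linarith
  have h9 : (Fintype.card T : ℝ) * (1 / 3) ≤ 2 * E := by
    calc (Fintype.card T : ℝ) * (1 / 3) = ∑ _t : T, (1 / 3 : ℝ) := by
          rw [Finset.sum_const, nsmul_eq_mul, Finset.card_univ]
      _ ≤ ∑ t, ∑ ω, c t ω := Finset.sum_le_sum fun t _ => hc1 t
      _ = ∑ ω, ∑ t, c t ω := Finset.sum_comm
      _ ≤ ∑ ω, 2 * (μ ω * ((A ω).cost (toReal x) : ℝ)) := Finset.sum_le_sum fun ω _ => hc2 ω
      _ = 2 * ∑ ω, μ ω * ((A ω).cost (toReal x) : ℝ) := by rw [Finset.mul_sum]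
      _ ≤ 2 * E := by
          have := (hx x h1).2
          linarith
  linarith

end Pool.Agent.FourLin
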