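import Mathlib

/-!
The choice of the parameters.
-/

namespace Pool.Agent.FourLin

/-- Choose `b` maximal with `136 * b ^ 2 + 290 * b + 3 ≤ log₂ n`, a prime `2 ^ (b - 1) < p ≤ 2 ^ b`
(Bertrand) and `R = b`. -/
theorem exists_params : ∃ N₀ : ℕ, ∀ n ≥ N₀, ∃ p R : ℕ, p.Prime ∧ p ≤ 2 ^ R ∧
    6 * p ^ (136 * (R + 2) + 18) ≤ n ∧
    (36 : ℝ) * (2 : ℝ) ^ (Real.sqrt (Real.logb 2 n) / 12) ≤ p := by
  have ht : Filter.Tendsto (fun n : ℕ => Real.sqrt (Real.logb 2 (n : ℝ))) Filter.atTop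
      Filter.atTop :=
    (Real.tendsto_sqrt_atTop.comp (Real.tendsto_logb_atTop (by norm_num))).comp
      tendsto_natCast_atTop_atTop
  obtain ⟨N, hN⟩ := Filter.eventually_atTop.1 (ht.eventually (Filter.eventually_ge_atTop (4000 : ℝ)))
  refine ⟨N + 1, fun n hn => ?_⟩
  have hx : 4000 ≤ Real.sqrt (Real.logb 2 (n : ℝ)) := hN n (by omega)
  have hn0 : (0 : ℝ) < n := by
    have : 0 < n := by omega
    exact_mod_cast this
  set x : ℝ := Real.sqrt (Real.logb 2 (n : ℝ)) with hxdef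
  have hl : x ^ 2 = Real.logb 2 n := by
    rw [hxdef]
    refine Real.sq_sqrt ?_
    by_contra hneg
    push Not at hneg
    rw [Real.sqrt_eq_zero_of_nonpos hneg.le] at hxdef
    linarith
  set b : ℕ := ⌈x / 12⌉₊ + 7 with hb
  have hb1 : x / 12 + 7 ≤ b := by
    rw [hb]
    push_cast
    have := Nat.le_ceil (x / 12)
    linarith
  have hb2 : (b : ℝ) ≤ x / 12 + 8 := by
    rw [hb]
    push_cast
    have := Nat.ceil_lt_add_one (show 0 ≤ x / 12 by linarith)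
    linarith
  obtain ⟨p, hp, hp1, hp2⟩ := Nat.exists_prime_lt_and_le_two_mul (2 ^ (b - 1)) (by positivity)
  have hpb : p ≤ 2 ^ b := by
    refine hp2.trans (le_of_eq ?_)
    rw [← pow_succ', show b - 1 + 1 = b by omega]
  refine ⟨p, b, hp, hpb, ?_, ?_⟩
  · have h1 : 6 * p ^ (136 * (b + 2) + 18) ≤ 2 ^ (3 + b * (136 * (b + 2) + 18)) := by
      have h6 : 2 ^ (3 + b * (136 * (b + 2) + 18)) = 2 ^ 3 * (2 ^ b) ^ (136 * (b + 2) + 18) := by
        rw [pow_add, pow_mul]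
      rw [h6]
      exact Nat.mul_le_mul (by norm_num) (Nat.pow_le_pow_left hpb _)
    refine h1.trans ?_
    have h2 : ((2 ^ (3 + b * (136 * (b + 2) + 18)) : ℕ) : ℝ) ≤ (n : ℝ) := by
      rw [Nat.cast_pow, Nat.cast_ofNat, ← Real.rpow_natCast]
      calc (2 : ℝ) ^ (((3 + b * (136 * (b + 2) + 18) : ℕ)) : ℝ)
          ≤ (2 : ℝ) ^ (Real.logb 2 (n : ℝ)) := by
            apply Real.rpow_le_rpow_of_exponent_le (by norm_num)
            rw [← hl]
            push_cast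
            have hb0 : (0 : ℝ) ≤ b := Nat.cast_nonneg b
            nlinarith
        _ = n := Real.rpow_logb (by norm_num) (by norm_num) hn0
    exact_mod_cast h2
  · have h3 : ((2 ^ (b - 1) : ℕ) : ℝ) ≤ (p : ℝ) := by exact_mod_cast hp1.le
    refine le_trans ?_ h3
    rw [Nat.cast_pow, Nat.cast_ofNat, ← Real.rpow_natCast]
    have h4 : (36 : ℝ) ≤ (2 : ℝ) ^ (6 : ℝ) := by
      rw [show (6 : ℝ) = ((6 : ℕ) : ℝ) by norm_num, Real.rpow_natCast]
      norm_num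
    calc (36 : ℝ) * (2 : ℝ) ^ (x / 12) ≤ (2 : ℝ) ^ (6 : ℝ) * (2 : ℝ) ^ (x / 12) :=
          mul_le_mul_of_nonneg_right h4 (by positivity)
      _ = (2 : ℝ) ^ (6 + x / 12) := (Real.rpow_add (by norm_num) _ _).symm
      _ ≤ (2 : ℝ) ^ ((b - 1 : ℕ) : ℝ) := by
          apply Real.rpow_le_rpow_of_exponent_le (by norm_num)
          have h5 : ((b - 1 : ℕ) : ℝ) = b - 1 := by
            rw [Nat.cast_sub (by omega), Nat.cast_one]
          rw [h5]
          linarith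

end Pool.Agent.FourLin
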