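import Pool.Agent.FourLin.Ext

/-!
The order of the group `QQ L`.
-/

set_option linter.unusedSectionVars false
set_option linter.unusedSimpArgs false

namespace Pool.Agent.FourLin

variable {F K V Z : Type*} [Field F] [Field K] [Algebra F K] [Group V] [AddCommGroup Z]
  [Module K Z]

namespace QQ

open TensorProduct

/-- the underlying set of `QQ L` -/
def equivProd (L : Loc F K V Z) : QQ L ≃ V × V × (Z ⊗[K] Z) where
  toFun a := (a.g, a.h, a.c)
  invFun b := ⟨b.1, b.2.1, b.2.2⟩
  left_inv _ := rfl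
  right_inv _ := rfl

instance (L : Loc F K V Z) [Finite V] [Finite K] [Module.Finite K Z] : Finite (QQ L) := by
  have : Finite (Z ⊗[K] Z) := Module.finite_of_finite K
  exact Finite.of_equiv _ (equivProd L).symm

/-- `QQ L` is in bijection with `V × V × (Z ⊗ Z)`, and `Z ⊗ Z` has dimension `36` over `K`. -/
theorem card_le (L : Loc F K V Z) [Finite V] [Finite K] [Module.Finite K Z] {p d : ℕ}
    (hK : Nat.card K = p ^ d) (hV : Nat.card V ≤ p ^ (4 * d + 3))
    (hZ : Module.finrank K Z = 6) : Nat.card (QQ L) ≤ p ^ (44 * d + 6) := by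
  have h1 : Nat.card (Z ⊗[K] Z) = (p ^ d) ^ 36 := by
    rw [Module.natCard_eq_pow_finrank (K := K), Module.finrank_tensorProduct, hK, hZ]
  rw [Nat.card_congr (equivProd L), Nat.card_prod, Nat.card_prod, h1]
  calc Nat.card V * (Nat.card V * (p ^ d) ^ 36)
      ≤ p ^ (4 * d + 3) * (p ^ (4 * d + 3) * (p ^ d) ^ 36) :=
        Nat.mul_le_mul hV (Nat.mul_le_mul_right _ hV)
    _ = p ^ (44 * d + 6) := by
        rw [← pow_mul, ← pow_add, ← pow_add]
        congr 1
        ring

end QQ

end Pool.Agent.FourLin
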