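import Pool.Agent.FourLin.Conc
import Pool.Agent.FourLin.CosetPert
import Pool.Agent.FourLin.Lower
import Pool.Agent.FourLin.Size
import Pool.Agent.FourLin.Num

/-!
The lower bound for four-linear decision trees.
-/

set_option linter.unusedSectionVars false
set_option linter.unusedSimpArgs false

namespace Pool.Agent.FourLin

open Polynomial

lemma exists_gen (p d : ℕ) [Fact p.Prime] (hd : d ≠ 0) : ∃ t : GaloisField p d,
    ∀ P : (ZMod p)[X], P.natDegree < d → aeval t P = 0 → P = 0 := by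
  let pb := Field.powerBasisOfFiniteOfSeparable (ZMod p) (GaloisField p d)
  refine ⟨pb.gen, ?_⟩
  intro P hP h0
  by_contra hne
  have h1 := pb.dim_le_natDegree_of_root hne h0
  have h2 : pb.dim = d := by rw [← pb.finrank, GaloisField.finrank p hd]
  omega

section

variable (p d : ℕ) [Fact p.Prime]

lemma card_units (hd : d ≠ 0) :
    Nat.card (M2 (GaloisField p d))ˣ ≤ p ^ (4 * d) := by
  calc Nat.card (M2 (GaloisField p d))ˣ ≤ Nat.card (M2 (GaloisField p d)) :=
        Nat.card_le_card_of_injective _ Units.val_injective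
    _ = (p ^ d) ^ 4 := by
        rw [Module.natCard_eq_pow_finrank (K := GaloisField p d), GaloisField.card p d hd,
          Module.finrank_matrix]
        simp
    _ = p ^ (4 * d) := by rw [← pow_mul, mul_comm]

lemma card_VC (hd : d ≠ 0) :
    Nat.card (VC (ZMod p) (GaloisField p d)) ≤ p ^ (4 * d + 3) := by
  have h1 : Nat.card (Heis (ZMod p)) = p ^ 3 := by
    rw [Nat.card_congr (Heis.equiv (ZMod p)), Nat.card_prod, Nat.card_prod, Nat.card_zmod]
    ring
  rw [Nat.card_prod, h1, pow_add]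
  exact Nat.mul_le_mul_right _ (card_units p d hd)

lemma finrank_ZC : Module.finrank (GaloisField p d) (ZC (GaloisField p d)) = 6 := by
  rw [Module.finrank_prod, Module.finrank_prod, Module.finrank_matrix]
  simp

/-- The factor without the cyclic group. -/
abbrev QT (t : GaloisField p d) : Type :=
  QQ (conc (F := ZMod p) t) × QQ (conc (F := ZMod p) t) × QQ (conc (F := ZMod p) t)

lemma card_QT (hd : d ≠ 0) (t : GaloisField p d) :
    Nat.card (M2 (GaloisField p d))ˣ * Nat.card (QT p d t) ≤ p ^ (136 * d + 18) := by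
  have h := QQ.card_le (conc (F := ZMod p) t) (p := p) (d := d) (GaloisField.card p d hd)
    (card_VC p d hd) (finrank_ZC p d)
  rw [Nat.card_prod, Nat.card_prod]
  calc _ ≤ p ^ (4 * d) * (p ^ (44 * d + 6) * (p ^ (44 * d + 6) * p ^ (44 * d + 6))) :=
        Nat.mul_le_mul (card_units p d hd) (Nat.mul_le_mul h (Nat.mul_le_mul h h))
    _ = p ^ (136 * d + 18) := by
        rw [← pow_add, ← pow_add, ← pow_add]
        congr 1
        ring

end

/-- The coset graphs. -/
theorem exists_graph (p R : ℕ) (hp : p.Prime) (hR : p ≤ 2 ^ R) :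
    ∃ N₁ : ℕ, 0 < N₁ ∧ N₁ ≤ p ^ (136 * (R + 2) + 18) ∧ ∀ M : ℕ, 0 < M →
      ∃ (X I T : Type) (_ : DecidableEq X) (_ : Fintype I) (_ : DecidableEq I) (_ : Fintype T)
        (Γ : TGraph X I T) (P : Pert Γ), (∀ e, ∃ z : ℤ, P.w e = z) ∧
        (∀ t e, ∃ z : ℤ, P.wt t e = z) ∧ Fintype.card T = M * N₁ ∧
        Fintype.card I * p ≤ 3 * (M * N₁) := by
  classical
  have : Fact p.Prime := ⟨hp⟩
  have hd : R + 2 ≠ 0 := by omega
  obtain ⟨t, ht⟩ := exists_gen p (R + 2) hd
  refine ⟨Nat.card (M2 (GaloisField p (R + 2)))ˣ * Nat.card (QT p (R + 2) t),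
    Nat.mul_pos Nat.card_pos Nat.card_pos, card_QT p (R + 2) hd t, ?_⟩
  intro M hM
  have : NeZero M := ⟨hM.ne'⟩
  set L := conc (F := ZMod p) t with hL
  set G := ((M2 (GaloisField p (R + 2)))ˣ × Multiplicative (ZMod M)) × QQ L × QQ L × QQ L with hG
  have : Finite (Multiplicative (ZMod M)) := inferInstanceAs (Finite (ZMod M))
  haveI : Fintype G := Fintype.ofFinite G
  let D : CosetGeo (ZMod p) G := L.geo (tri t (Multiplicative (ZMod M)))
  have hj : ∀ i x, prj L (Multiplicative (ZMod M)) (D.a i x) = nm t i x :=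
    prj_aa t (Multiplicative (ZMod M))
  have hgood : D.Good R := ⟨hR, fun g => wtot_bounds ht hj D.a_add (by omega) g,
    wtot_one ht hj (by omega)⟩
  have hcard : Fintype.card G = M * (Nat.card (M2 (GaloisField p (R + 2)))ˣ *
      Nat.card (QT p (R + 2) t)) := by
    rw [← Nat.card_eq_fintype_card, hG, Nat.card_prod, Nat.card_prod]
    have : Nat.card (Multiplicative (ZMod M)) = M := Nat.card_zmod M
    rw [this]
    ring
  refine ⟨D.W, D.E, G, Classical.decEq _, inferInstance, inferInstance, inferInstance,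
    D.graph, CosetGeo.pert hgood, fun e => ⟨_, rfl⟩, fun t e => ⟨_, rfl⟩, hcard, ?_⟩
  rw [← hcard]
  exact D.card_E_mul_le

/-- For large `n` there is a graph with at most `n` edges and many triangles. -/
theorem exists_large : ∃ N₀ : ℕ, ∀ n ≥ N₀,
    ∃ (X I T : Type) (_ : DecidableEq X) (_ : Fintype I) (_ : DecidableEq I) (_ : Fintype T)
      (Γ : TGraph X I T) (P : Pert Γ), (∀ e, ∃ z : ℤ, P.w e = z) ∧
      (∀ t e, ∃ z : ℤ, P.wt t e = z) ∧ Nonempty (I ↪ Fin n) ∧
      6 * ((n : ℝ) * (2 : ℝ) ^ (Real.sqrt (Real.logb 2 n) / 12)) ≤ Fintype.card T := by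
  obtain ⟨N₀, hN₀⟩ := exists_params
  refine ⟨max N₀ 1, ?_⟩
  intro n hn
  obtain ⟨p, R, hp, hR, hsize, hpn⟩ := hN₀ n (le_trans (le_max_left _ _) hn)
  have hn1 : 1 ≤ n := le_trans (le_max_right _ _) hn
  obtain ⟨N₁, hN1, hN2, hgr⟩ := exists_graph p R hp hR
  have h6 : 6 * N₁ ≤ n := le_trans (Nat.mul_le_mul_left 6 hN2) hsize
  set M := n * p / (3 * N₁) with hMdef
  have hnp : n ≤ n * p := Nat.le_mul_of_pos_right n hp.pos
  have hM : 0 < M := by
    apply Nat.div_pos _ (by omega)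
    omega
  have hM1 : 3 * (M * N₁) ≤ n * p := by
    have := Nat.div_mul_le_self (n * p) (3 * N₁)
    calc 3 * (M * N₁) = M * (3 * N₁) := by ring
      _ ≤ n * p := this
  have hM2 : n * p ≤ 6 * (M * N₁) := by
    have h1 : n * p < (M + 1) * (3 * N₁) := Nat.lt_mul_of_div_lt (Nat.lt_succ_self _) (by omega)
    nlinarith
  obtain ⟨X, I, T, i1, i2, i3, i4, Γ, P, hw, hwt, hT, hI⟩ := hgr M hM
  refine ⟨X, I, T, i1, i2, i3, i4, Γ, P, hw, hwt, ?_, ?_⟩
  · have h1 : Fintype.card I * p ≤ n * p := le_trans hI hM1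
    have h2 : Fintype.card I ≤ n := Nat.le_of_mul_le_mul_right h1 hp.pos
    have h3 : Fintype.card I ≤ Fintype.card (Fin n) := by rw [Fintype.card_fin]; exact h2
    exact Function.Embedding.nonempty_of_card_le h3
  · rw [hT]
    have h1 : ((n * p : ℕ) : ℝ) ≤ ((6 * (M * N₁) : ℕ) : ℝ) := by exact_mod_cast hM2
    have h2 : (n : ℝ) * ((36 : ℝ) * (2 : ℝ) ^ (Real.sqrt (Real.logb 2 n) / 12)) ≤ n * p :=
      mul_le_mul_of_nonneg_left hpn (Nat.cast_nonneg n)
    push_cast at h1 ⊢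
    linarith

/-- The lower bound for four-linear decision trees. -/
theorem main : ∃ N₀ : ℕ, ∀ n ≥ N₀, ∀ σ : ℝ, σ = 1 ∨ σ = -1 →
    ∀ (Ω : Type) [Fintype Ω] (E : ℝ) (μ : Ω → ℝ) (A : Ω → LTree n), Solver σ n 4 E μ A →
      (n : ℝ) * (2 : ℝ) ^ (Real.sqrt (Real.logb 2 n) / 12) ≤ E := by
  obtain ⟨N₀, hN₀⟩ := exists_large
  refine ⟨N₀, ?_⟩
  intro n hn σ hσ Ω _ E μ A h
  obtain ⟨X, I, T, i1, i2, i3, i4, Γ, P, hw, hwt, ⟨emb⟩, hT⟩ := hN₀ n hn
  have h1 := solver_bound P hw hwt emb hσ h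
  linarith

end Pool.Agent.FourLin
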