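import Pool.Agent.FourLin.LocalDefs

/-!
Decision trees for three-sum in which every question looks at a fixed number of the inputs and is
answered by the signs of finitely many polynomials in them.
-/

namespace Pool.Agent.FourLin

namespace DTree

variable {n s : ℕ}

/-- The questions of a tree. -/
def questions : DTree n s → Set (Question n s)
  | leaf _ => ∅
  | node q next => insert q (⋃ r, (next r).questions)

lemma questions_finite (A : DTree n s) : A.questions.Finite := by
  induction A with
  | leaf r => exact Set.finite_empty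
  | node q next ih => exact (Set.finite_iUnion ih).insert _

/-- If every question of the tree distinguishes the input `x` from at most `b` of the inputs
`y t`, then the answer on `x` differs from the answer on `y t` for at most `b * cost` values
of `t`. -/
lemma card_answer_ne {T : Type*} (x : Fin n → ℤ) (y : T → Fin n → ℤ) {b : ℕ} (A : DTree n s)
    (h : ∀ q ∈ A.questions, ∀ S : Finset T, (∀ t ∈ S, q.reply (y t) ≠ q.reply x) → S.card ≤ b) :
    ∀ S : Finset T, (∀ t ∈ S, A.answer (y t) ≠ A.answer x) → S.card ≤ b * A.cost x := by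
  classical
  induction A with
  | leaf r =>
    intro S hS
    have : S = ∅ := by
      rw [Finset.eq_empty_iff_forall_notMem]
      intro t ht
      exact hS t ht rfl
    simp [this]
  | node q next ih =>
    intro S hS
    have h1 := h q (Set.mem_insert _ _) (S.filter fun t => q.reply (y t) ≠ q.reply x)
      (fun t ht => (Finset.mem_filter.1 ht).2)
    have h2 := ih (q.reply x) (fun q' hq' => h q' (Set.mem_insert_of_mem _
      (Set.mem_iUnion.2 ⟨q.reply x, hq'⟩))) (S.filter fun t => ¬ q.reply (y t) ≠ q.reply x)
      (fun t ht => by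
        obtain ⟨ht1, ht2⟩ := Finset.mem_filter.1 ht
        have h3 := hS t ht1
        rw [not_not] at ht2
        simp only [answer, ht2] at h3
        exact h3)
    calc S.card = _ := (Finset.card_filter_add_card_filter_not
          (fun t => q.reply (y t) ≠ q.reply x)).symm
      _ ≤ b + b * (next (q.reply x)).cost x := Nat.add_le_add h1 h2
      _ = b * (node q next).cost x := by simp only [cost]; ring

end DTree

/-- The bound for a family of inputs `y t` with solutions near an input `x` without. -/
theorem local_bound {T : Type*} [Fintype T] {σ : ℤ} {n s b : ℕ} {E : ℝ} {Ω : Type} [Fintype Ω]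
    {μ : Ω → ℝ} {A : Ω → DTree n s} (h : LocalSolver σ n s E μ A)
    (hin : ∀ Q : Set (Question n s), Q.Finite → ∃ (x : Fin n → ℤ) (y : T → Fin n → ℤ),
      Function.Injective x ∧ (∀ t, Function.Injective (y t)) ∧ ¬ HasTriple σ x ∧
      (∀ t, HasTriple σ (y t)) ∧ ∀ q ∈ Q, ∀ S : Finset T,
        (∀ t ∈ S, q.reply (y t) ≠ q.reply x) → S.card ≤ b) :
    (Fintype.card T : ℝ) ≤ 3 * b * E := by
  classical
  obtain ⟨hμ, hμ1, hx⟩ := h
  obtain ⟨x, y, h1, h2, h3, h4, h5⟩ := hin (⋃ ω, (A ω).questions)
    (Set.finite_iUnion fun ω => (A ω).questions_finite)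
  have h5' : ∀ ω, ∀ S : Finset T, (∀ t ∈ S, (A ω).answer (y t) ≠ (A ω).answer x) →
      S.card ≤ b * (A ω).cost x := fun ω =>
    DTree.card_answer_ne x y (A ω) fun q hq => h5 q (Set.mem_iUnion.2 ⟨ω, hq⟩)
  set a : Ω → ℝ := fun ω => if Correct σ (A ω) x then μ ω else 0 with ha
  set b' : T → Ω → ℝ := fun t ω => if Correct σ (A ω) (y t) then μ ω else 0 with hb
  set c : T → Ω → ℝ := fun t ω => if (A ω).answer (y t) ≠ (A ω).answer x then μ ω else 0 with hc
  have ha1 : 2 / 3 ≤ ∑ ω, a ω := by
    refine le_trans (hx x h1).1 (le_of_eq ?_)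
    apply Finset.sum_congr rfl
    intro ω _
    simp only [ha]
  have hb1 : ∀ t, 2 / 3 ≤ ∑ ω, b' t ω := by
    intro t
    refine le_trans (hx (y t) (h2 t)).1 (le_of_eq ?_)
    apply Finset.sum_congr rfl
    intro ω _
    simp only [hb]
  have hc1 : ∀ t, 1 / 3 ≤ ∑ ω, c t ω := by
    intro t
    have : ∀ ω, a ω + b' t ω - μ ω ≤ c t ω := by
      intro ω
      have h0 := hμ ω
      by_cases q1 : Correct σ (A ω) x
      · by_cases q2 : Correct σ (A ω) (y t)
        · have q3 : (A ω).answer (y t) ≠ (A ω).answer x := by
            have e1 : (A ω).answer (y t) = true := q2.2 (h4 t)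
            have e2 : (A ω).answer x = false := by
              rw [← Bool.not_eq_true]
              intro h
              exact h3 (q1.1 h)
            rw [e1, e2]
            simp
          simp only [ha, hb, hc, if_pos q1, if_pos q2, if_pos q3]
          linarith
        · simp only [ha, hb, hc, if_pos q1, if_neg q2]
          split_ifs <;> linarith
      · simp only [ha, hb, hc, if_neg q1]
        split_ifs <;> linarith
    have h7 := Finset.sum_le_sum fun ω (_ : ω ∈ Finset.univ) => this ω
    rw [Finset.sum_sub_distrib, Finset.sum_add_distrib, hμ1] at h7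
    have := hb1 t
    linarith
  have hc2 : ∀ ω, ∑ t, c t ω ≤ b * (μ ω * ((A ω).cost x : ℝ)) := by
    intro ω
    have hcard := h5' ω (Finset.univ.filter fun t => (A ω).answer (y t) ≠ (A ω).answer x)
      (fun t ht => (Finset.mem_filter.1 ht).2)
    have e1 : ∑ t, c t ω = ((Finset.univ.filter fun t =>
        (A ω).answer (y t) ≠ (A ω).answer x).card : ℝ) * μ ω := by
      simp only [hc]
      rw [← Finset.sum_filter, Finset.sum_const, nsmul_eq_mul]
    rw [e1]
    have h8 : ((Finset.univ.filter fun t => (A ω).answer (y t) ≠ (A ω).answer x).card : ℝ) ≤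
        ((b * (A ω).cost x : ℕ) : ℝ) := by exact_mod_cast hcard
    have := mul_le_mul_of_nonneg_right h8 (hμ ω)
    push_cast at this
    linarith
  have h9 : (Fintype.card T : ℝ) * (1 / 3) ≤ b * E := by
    calc (Fintype.card T : ℝ) * (1 / 3) = ∑ _t : T, (1 / 3 : ℝ) := by
          rw [Finset.sum_const, nsmul_eq_mul, Finset.card_univ]
      _ ≤ ∑ t, ∑ ω, c t ω := Finset.sum_le_sum fun t _ => hc1 t
      _ = ∑ ω, ∑ t, c t ω := Finset.sum_comm
      _ ≤ ∑ ω, b * (μ ω * ((A ω).cost x : ℝ)) := Finset.sum_le_sum fun ω _ => hc2 ω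
      _ = b * ∑ ω, μ ω * ((A ω).cost x : ℝ) := by rw [Finset.mul_sum]
      _ ≤ b * E := mul_le_mul_of_nonneg_left (hx x h1).2 (Nat.cast_nonneg _)
  linarith

end Pool.Agent.FourLin
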