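import Pool.Agent.FourLin.Point
import Pool.Agent.FourLin.Local

/-!
From a linear space of base points with perturbations to inputs.
-/

namespace Pool.Agent.FourLin

open Finset Filter

/-- A linear family of base points `Λ θ` and a family of perturbations: `z none` has no solution,
`z (some t)` has one, and for every choice of `s` positions the perturbations `z (some t)` and
`z none` agree there up to a positive factor and a base point, for all but `b` values of `t`. -/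
structure Frame (σ : ℤ) (n s b : ℕ) (J T : Type*) where
  Λ : (J → ℝ) →ₗ[ℝ] (Fin n → ℝ)
  int : ∀ θ : J → ℤ, ∃ x : Fin n → ℤ, ∀ i, Λ (fun j => (θ j : ℝ)) i = (x i : ℝ)
  z : Option T → Fin n → ℝ
  zint : ∀ o i, ∃ m : ℤ, z o i = m
  inj : ∀ o i j, i ≠ j → (∀ θ, Λ θ i = Λ θ j) → z o i ≠ z o j
  nosol : ∀ i j k, i ≠ j → i ≠ k → j ≠ k → (∀ θ, Λ θ i + Λ θ j = σ * Λ θ k) →
    z none i + z none j ≠ σ * z none k
  sol : ∀ t, ∃ i j k, i ≠ j ∧ i ≠ k ∧ j ≠ k ∧ (∀ θ, Λ θ i + Λ θ j = σ * Λ θ k) ∧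
    z (some t) i + z (some t) j = σ * z (some t) k
  good : ∀ pos : Fin s → Fin n, ∀ S : Finset T,
    (∀ t ∈ S, ¬ ∃ c : ℝ, 0 < c ∧ ∃ ω : J → ℝ, ∀ i,
      z (some t) (pos i) = c * z none (pos i) + Λ ω (pos i)) → S.card ≤ b

lemma sum_form3 {n : ℕ} (σ : ℤ) (i j k : Fin n) (u : Fin n → ℝ) :
    ∑ l, (Pi.single i 1 + Pi.single j 1 - (σ : ℝ) • Pi.single k 1 : Fin n → ℝ) l * u l =
      u i + u j - σ * u k := by
  simp only [Pi.sub_apply, Pi.add_apply, Pi.smul_apply, smul_eq_mul, sub_mul, add_mul,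
    Finset.sum_sub_distrib, Finset.sum_add_distrib, Pi.single_apply, ite_mul, mul_ite,
    mul_one, mul_zero, one_mul, zero_mul, Finset.sum_ite_eq', mem_univ, if_true]

lemma sum_form2 {n : ℕ} (i j : Fin n) (u : Fin n → ℝ) :
    ∑ l, (Pi.single i 1 - Pi.single j 1 : Fin n → ℝ) l * u l = u i - u j := by
  simp only [Pi.sub_apply, sub_mul, Finset.sum_sub_distrib, Pi.single_apply, ite_mul,
    one_mul, zero_mul, Finset.sum_ite_eq', mem_univ, if_true]

theorem Frame.inputs {σ : ℤ} {n s b : ℕ} {J T : Type*} [Fintype J] [Finite T]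
    (F : Frame σ n s b J T) (Q : Set (Question n s)) (hQ : Q.Finite) :
    ∃ (x : Fin n → ℤ) (y : T → Fin n → ℤ),
      Function.Injective x ∧ (∀ t, Function.Injective (y t)) ∧ ¬ HasTriple σ x ∧
      (∀ t, HasTriple σ (y t)) ∧ ∀ q ∈ Q, ∀ S : Finset T,
        (∀ t ∈ S, q.reply (y t) ≠ q.reply x) → S.card ≤ b := by
  classical
  set F3 : Fin n × Fin n × Fin n → (Fin n → ℝ) :=
    fun i => Pi.single i.1 1 + Pi.single i.2.1 1 - (σ : ℝ) • Pi.single i.2.2 1 with hF3
  set F2 : Fin n × Fin n → (Fin n → ℝ) := fun i => Pi.single i.1 1 - Pi.single i.2 1 with hF2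
  have hQ' : (⋃ q ∈ Q, Set.range fun j => (q.pos, q.P j)).Finite :=
    hQ.biUnion fun q _ => Set.finite_range _
  obtain ⟨x, h1, h2, h3⟩ := exists_point F.Λ F.int F.z F.zint _ hQ'
    (Set.range F3 ∪ Set.range F2) ((Set.finite_range _).union (Set.finite_range _))
  have hinj : ∀ o, Function.Injective (x o) := by
    intro o i j hij
    by_contra hne
    obtain ⟨g1, g2⟩ := h2 o (F2 (i, j)) (Or.inr ⟨_, rfl⟩) (by
      simp only [hF2]
      rw [sum_form2, hij, sub_self])
    simp only [hF2, sum_form2] at g1 g2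
    exact F.inj o i j hne (fun θ => sub_eq_zero.1 (g1 θ)) (sub_eq_zero.1 g2)
  refine ⟨x none, fun t => x (some t), hinj _, fun t => hinj _, ?_, ?_, ?_⟩
  · rintro ⟨i, j, k, hij, hik, hjk, hsol⟩
    obtain ⟨g1, g2⟩ := h2 none (F3 (i, j, k)) (Or.inl ⟨_, rfl⟩) (by
      simp only [hF3]
      rw [sum_form3, sub_eq_zero]
      exact_mod_cast hsol)
    simp only [hF3, sum_form3] at g1 g2
    exact F.nosol i j k hij hik hjk (fun θ => sub_eq_zero.1 (g1 θ)) (sub_eq_zero.1 g2)
  · intro t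
    obtain ⟨i, j, k, hij, hik, hjk, g1, g2⟩ := F.sol t
    refine ⟨i, j, k, hij, hik, hjk, ?_⟩
    have := h1 (some t) (F3 (i, j, k)) (fun θ => by
      simp only [hF3]
      rw [sum_form3, g1, sub_self]) (by
      simp only [hF3]
      rw [sum_form3, g2, sub_self])
    simp only [hF3, sum_form3] at this
    have h4 := sub_eq_zero.1 this
    exact_mod_cast h4
  · intro q hq S hS
    apply F.good q.pos S
    intro t ht hex
    apply hS t ht
    funext j
    exact h3 (q.pos, q.P j) (Set.mem_biUnion hq ⟨j, rfl⟩) (some t) none hex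

theorem Frame.bound {σ : ℤ} {n s b : ℕ} {J T : Type*} [Fintype J] [Fintype T]
    (F : Frame σ n s b J T) {E : ℝ} {Ω : Type} [Fintype Ω] {μ : Ω → ℝ} {A : Ω → DTree n s}
    (h : LocalSolver σ n s E μ A) : (Fintype.card T : ℝ) ≤ 3 * b * E :=
  local_bound h F.inputs

end Pool.Agent.FourLin
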