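import Pool.Agent.FourLin.Adv2
import Pool.Agent.FourLin.Dual
import Pool.Agent.FourLin.Frame

/-!
The adversary for questions about four input numbers.
-/

set_option linter.unusedSectionVars false
set_option linter.unusedSimpArgs false

namespace Pool.Agent.FourLin

open Finset Filter

variable {X I T : Type*} [DecidableEq X] [Fintype I] [DecidableEq I] [Fintype T]
variable {Γ : TGraph X I T}

/-- The vertices on edges. -/
def vset (Γ : TGraph X I T) : Finset X := univ.image Γ.src ∪ univ.image Γ.tgt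

lemma src_mem (e : I) : Γ.src e ∈ vset Γ :=
  Finset.mem_union_left _ (Finset.mem_image_of_mem _ (mem_univ e))

lemma tgt_mem (e : I) : Γ.tgt e ∈ vset Γ :=
  Finset.mem_union_right _ (Finset.mem_image_of_mem _ (mem_univ e))

/-- Base points: differences of potentials on the edges, arbitrary numbers elsewhere. -/
noncomputable def base (Γ : TGraph X I T) (σ : ℝ) {n : ℕ} (emb : I ↪ Fin n) :
    (vset Γ ⊕ Fin n → ℝ) →ₗ[ℝ] (Fin n → ℝ) where
  toFun θ := Function.extend emb (fun e => sg Γ σ e *
    (θ (Sum.inl ⟨Γ.src e, src_mem e⟩) - θ (Sum.inl ⟨Γ.tgt e, tgt_mem e⟩)))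
    (fun j => θ (Sum.inr j))
  map_add' θ θ' := by
    funext j
    by_cases hj : ∃ e, emb e = j
    · obtain ⟨e, rfl⟩ := hj
      simp only [Pi.add_apply, emb.injective.extend_apply]
      ring
    · simp only [Pi.add_apply, Function.extend_apply' _ _ _ hj]
  map_smul' r θ := by
    funext j
    by_cases hj : ∃ e, emb e = j
    · obtain ⟨e, rfl⟩ := hj
      simp only [Pi.smul_apply, emb.injective.extend_apply, RingHom.id_apply, smul_eq_mul]
      ring
    · simp only [Pi.smul_apply, Function.extend_apply' _ _ _ hj, RingHom.id_apply, smul_eq_mul]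

lemma base_apply (σ : ℝ) {n : ℕ} (emb : I ↪ Fin n) (θ : vset Γ ⊕ Fin n → ℝ) (j : Fin n) :
    base Γ σ emb θ j = Function.extend emb (fun e => sg Γ σ e *
    (θ (Sum.inl ⟨Γ.src e, src_mem e⟩) - θ (Sum.inl ⟨Γ.tgt e, tgt_mem e⟩)))
    (fun j => θ (Sum.inr j)) j := rfl

lemma base_edge (σ : ℝ) {n : ℕ} (emb : I ↪ Fin n) (θ : vset Γ ⊕ Fin n → ℝ) (e : I) :
    base Γ σ emb θ (emb e) = sg Γ σ e *
      (θ (Sum.inl ⟨Γ.src e, src_mem e⟩) - θ (Sum.inl ⟨Γ.tgt e, tgt_mem e⟩)) := by
  rw [base_apply, emb.injective.extend_apply]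

lemma sum_base (σ : ℝ) {n : ℕ} (emb : I ↪ Fin n) (θ : vset Γ ⊕ Fin n → ℝ) (c : Fin n → ℝ)
    [DecidablePred fun j => ∀ e, emb e ≠ j] :
    ∑ j, c j * base Γ σ emb θ j = ∑ e, c (emb e) * (sg Γ σ e *
      (θ (Sum.inl ⟨Γ.src e, src_mem e⟩) - θ (Sum.inl ⟨Γ.tgt e, tgt_mem e⟩))) +
      ∑ j ∈ univ.filter (fun j => ∀ e, emb e ≠ j), c j * θ (Sum.inr j) := by
  simp only [base_apply]
  rw [sum_extend]

lemma of_base_eq_zero (σ : ℝ) {n : ℕ} (emb : I ↪ Fin n) (c : Fin n → ℝ)
    (h : ∀ θ, ∑ j, c j * base Γ σ emb θ j = 0) : (∀ j, (∀ e, emb e ≠ j) → c j = 0) ∧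
      Γ.IsCirc (fun e => c (emb e) * sg Γ σ e) := by
  classical
  have h' := fun θ => (sum_base σ emb θ c).symm.trans (h θ)
  refine ⟨?_, ?_⟩
  · intro j hj
    have := h' (Sum.elim 0 (Pi.single j 1))
    simp only [Sum.elim_inl, Sum.elim_inr, Pi.zero_apply, sub_self, mul_zero,
      Finset.sum_const_zero, zero_add] at this
    rw [Finset.sum_eq_single j] at this
    · simpa using this
    · intro b _ hb
      simp [Pi.single_eq_of_ne hb]
    · intro hn
      exact absurd (by simpa using hj) hn
  · apply TGraph.isCirc_of_potential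
    intro p
    have := h' (Sum.elim (fun x => p x) 0)
    simp only [Sum.elim_inl, Sum.elim_inr, Pi.zero_apply, mul_zero, Finset.sum_const_zero,
      add_zero] at this
    rw [← this]
    apply Finset.sum_congr rfl
    intro _ _
    ring

/-- The perturbation of the inputs attached to a weight function on the edges. -/
noncomputable def zed (Γ : TGraph X I T) (σ : ℝ) {n : ℕ} (emb : I ↪ Fin n) (w : I → ℝ) :
    Fin n → ℝ :=
  Function.extend emb (fun e => sg Γ σ e * w e) 0

lemma sum_zed (σ : ℝ) {n : ℕ} (emb : I ↪ Fin n) (w : I → ℝ) (c : Fin n → ℝ) :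
    ∑ j, c j * zed Γ σ emb w j = ∑ e, (c (emb e) * sg Γ σ e) * w e := by
  classical
  unfold zed
  rw [sum_extend]
  simp only [Pi.zero_apply, mul_zero, Finset.sum_const_zero, add_zero]
  apply Finset.sum_congr rfl
  intro _ _
  ring

lemma card_edges {n s : ℕ} (emb : I ↪ Fin n) (pos : Fin s → Fin n)
    [DecidablePred fun e => emb e ∈ Set.range pos] :
    (univ.filter fun e => emb e ∈ Set.range pos).card ≤ s := by
  classical
  calc (univ.filter fun e => emb e ∈ Set.range pos).card =
      ((univ.filter fun e => emb e ∈ Set.range pos).map emb).card := (Finset.card_map _).symm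
    _ ≤ (univ.image pos).card := by
        apply Finset.card_le_card
        intro j hj
        rw [Finset.mem_map] at hj
        obtain ⟨e, he, rfl⟩ := hj
        obtain ⟨i, hi⟩ := (Finset.mem_filter.1 he).2
        rw [← hi]
        exact Finset.mem_image_of_mem _ (mem_univ i)
    _ ≤ (univ : Finset (Fin s)).card := Finset.card_image_le
    _ = s := by simp

lemma good_four (P : Pert Γ) {n : ℕ} (emb : I ↪ Fin n) {σ : ℝ} (hσ : σ = 1 ∨ σ = -1)
    (pos : Fin 4 → Fin n) (S : Finset T)
    (hS : ∀ t ∈ S, ¬ ∃ c : ℝ, 0 < c ∧ ∃ ω : vset Γ ⊕ Fin n → ℝ, ∀ i,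
      zed Γ σ emb (P.wt t) (pos i) = c * zed Γ σ emb P.w (pos i) + base Γ σ emb ω (pos i)) :
    S.card ≤ 2 := by
  classical
  set E : Finset I := univ.filter fun e => emb e ∈ Set.range pos with hE
  have hEcard : E.card ≤ 4 := card_edges emb pos
  have hsupp : ∀ c : Fin n → ℝ, (∀ j, j ∉ Set.range pos → c j = 0) → ∀ e,
      c (emb e) * sg Γ σ e ≠ 0 → e ∈ E := by
    intro c hc e he
    rw [hE, Finset.mem_filter]
    refine ⟨mem_univ _, ?_⟩
    by_contra hcon
    exact he (by rw [hc _ hcon, zero_mul])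
  by_cases hex : ∃ c : Fin n → ℝ, c ≠ 0 ∧ (∀ j, j ∉ Set.range pos → c j = 0) ∧
      ∀ θ, ∑ j, c j * base Γ σ emb θ j = 0
  · obtain ⟨c0, hc0, hc0s, hc0r⟩ := hex
    obtain ⟨hd0, hcirc0⟩ := of_base_eq_zero σ emb c0 hc0r
    set α0 : I → ℝ := fun e => c0 (emb e) * sg Γ σ e with hα0
    obtain ⟨e0, he0⟩ : ∃ e, α0 e ≠ 0 := by
      by_contra hcon
      push Not at hcon
      apply hc0
      funext j
      by_cases hj : ∃ e, emb e = j
      · obtain ⟨e, rfl⟩ := hj
        exact (mul_eq_zero.1 (hcon e)).resolve_right (sg_ne_zero hσ e)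
      · exact hd0 j (fun e he => hj ⟨e, he⟩)
    have hcard0 : (univ.filter (α0 · ≠ 0)).card ≤ 4 := by
      refine le_trans (Finset.card_le_card ?_) hEcard
      intro e he
      exact hsupp c0 hc0s e (Finset.mem_filter.1 he).2
    have hw0 : ∑ e, α0 e * P.w e ≠ 0 := P.ne_zero hcirc0 hcard0 (fun h => he0 (congrFun h e0))
    refine le_trans (Finset.card_le_card ?_) (P.card_sign_ne hcirc0 hcard0)
    intro t ht
    rw [Finset.mem_filter]
    refine ⟨mem_univ _, ?_⟩
    intro hsgn
    apply hS t ht
    set c : ℝ := (∑ e, α0 e * P.wt t e) / (∑ e, α0 e * P.w e) with hc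
    have hcpos : 0 < c := by
      rcases lt_or_gt_of_ne hw0 with h | h
      · rw [sign_neg h, sign_eq_neg_one_iff] at hsgn
        exact div_pos_of_neg_of_neg hsgn h
      · rw [sign_pos h, sign_eq_one_iff] at hsgn
        exact div_pos hsgn h
    refine ⟨c, hcpos, ?_⟩
    obtain ⟨ω, hω⟩ := exists_omega (base Γ σ emb) pos
      (fun j => zed Γ σ emb (P.wt t) j - c * zed Γ σ emb P.w j) (by
        intro c' hc's hc'r
        obtain ⟨-, hcirc'⟩ := of_base_eq_zero σ emb c' hc'r
        have huniq := Γ.circ_unique hcirc0 hcirc' hEcard (hsupp c0 hc0s) (hsupp c' hc's) he0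
        simp only [mul_sub, Finset.sum_sub_distrib]
        have h1 := sum_zed (Γ := Γ) σ emb (P.wt t) c'
        have h2 : ∑ j, c' j * (c * zed Γ σ emb P.w j) =
            c * ∑ e, (c' (emb e) * sg Γ σ e) * P.w e := by
          rw [← sum_zed σ emb P.w c', Finset.mul_sum]
          apply Finset.sum_congr rfl
          intro _ _
          ring
        rw [h1, h2]
        set l := c' (emb e0) * sg Γ σ e0 / α0 e0 with hl
        have h3 : ∀ u : I → ℝ, ∑ e, (c' (emb e) * sg Γ σ e) * u e = l * ∑ e, α0 e * u e := by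
          intro u
          rw [Finset.mul_sum]
          apply Finset.sum_congr rfl
          intro e _
          rw [huniq e]
          ring
        rw [h3, h3, hc]
        field_simp
        ring)
    exact ⟨ω, fun i => by have := hω i; linarith⟩
  · have : S = ∅ := by
      rw [Finset.eq_empty_iff_forall_notMem]
      intro t ht
      apply hS t ht
      refine ⟨1, one_pos, ?_⟩
      obtain ⟨ω, hω⟩ := exists_omega (base Γ σ emb) pos
        (fun j => zed Γ σ emb (P.wt t) j - zed Γ σ emb P.w j) (by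
          intro c hcs hcr
          have : c = 0 := by
            by_contra h0
            exact hex ⟨c, h0, hcs, hcr⟩
          simp [this])
      exact ⟨ω, fun i => by have := hω i; linarith⟩
    simp [this]

/-- The frame attached to a graph in which every four-cycle has a chord, and a suitable family of
integral perturbations. -/
noncomputable def fourFrame (P : Pert Γ) (hw : ∀ e, ∃ m : ℤ, P.w e = m)
    (hwt : ∀ t e, ∃ m : ℤ, P.wt t e = m) {n : ℕ} (emb : I ↪ Fin n) {σ : ℤ}
    (hσ : σ = 1 ∨ σ = -1) : Frame σ n 4 2 (vset Γ ⊕ Fin n) T where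
  Λ := base Γ σ emb
  int θ := by
    have hsg : ∀ e, ∃ m : ℤ, sg Γ (σ : ℝ) e = m := by
      intro e
      unfold sg
      split_ifs
      · exact ⟨-σ, by push_cast; rfl⟩
      · exact ⟨1, by norm_num⟩
    have : ∀ i, ∃ m : ℤ, base Γ σ emb (fun j => (θ j : ℝ)) i = m := by
      intro i
      by_cases hi : ∃ e, emb e = i
      · obtain ⟨e, rfl⟩ := hi
        obtain ⟨m, hm⟩ := hsg e
        rw [base_edge, hm]
        exact ⟨m * (θ (Sum.inl ⟨Γ.src e, src_mem e⟩) - θ (Sum.inl ⟨Γ.tgt e, tgt_mem e⟩)),
          by push_cast; rfl⟩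
      · refine ⟨θ (Sum.inr i), ?_⟩
        rw [base_apply, Function.extend_apply' _ _ _ hi]
    exact ⟨fun i => (this i).choose, fun i => (this i).choose_spec⟩
  z o := zed Γ σ emb (o.elim P.w P.wt)
  zint o i := by
    have hsg : ∀ e, ∃ m : ℤ, sg Γ (σ : ℝ) e = m := by
      intro e
      unfold sg
      split_ifs
      · exact ⟨-σ, by push_cast; rfl⟩
      · exact ⟨1, by norm_num⟩
    by_cases hi : ∃ e, emb e = i
    · obtain ⟨e, rfl⟩ := hi
      obtain ⟨m, hm⟩ := hsg e
      obtain ⟨m', hm'⟩ : ∃ m : ℤ, (o.elim P.w P.wt) e = m := by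
        cases o with
        | none => exact hw e
        | some t => exact hwt t e
      refine ⟨m * m', ?_⟩
      unfold zed
      rw [emb.injective.extend_apply, hm, hm']
      push_cast
      rfl
    · refine ⟨0, ?_⟩
      unfold zed
      rw [Function.extend_apply' _ _ _ hi]
      simp
  inj o i j hij h := by
    exfalso
    have hσ' : (σ : ℝ) = 1 ∨ (σ : ℝ) = -1 := by
      rcases hσ with rfl | rfl
      · left; norm_num
      · right; norm_num
    obtain ⟨h2, h3⟩ := of_base_eq_zero (σ : ℝ) emb (Pi.single i 1 - Pi.single j 1) (fun θ => by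
      rw [sum_form2, h, sub_self])
    have hi : (Pi.single i 1 - Pi.single j 1 : Fin n → ℝ) i ≠ 0 := by
      simp only [Pi.sub_apply, Pi.single_eq_same, Pi.single_eq_of_ne hij, sub_zero]
      exact one_ne_zero
    have hj : (Pi.single i 1 - Pi.single j 1 : Fin n → ℝ) j ≠ 0 := by
      simp only [Pi.sub_apply, Pi.single_eq_same, Pi.single_eq_of_ne (Ne.symm hij), zero_sub]
      norm_num
    obtain ⟨a, ha⟩ : ∃ a, emb a = i := by
      by_contra h; push Not at h; exact hi (h2 i h)
    obtain ⟨b, hb⟩ : ∃ b, emb b = j := by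
      by_contra h; push Not at h; exact hj (h2 j h)
    have h4 := TGraph.circ_two h3 (a := a) (b := b) (by
      intro e he
      have h5 := left_ne_zero_of_mul he
      simp only [Pi.sub_apply, Pi.single_apply] at h5
      by_contra hcon
      push Not at hcon
      have e1 : emb e ≠ i := fun h => hcon.1 (emb.injective (h.trans ha.symm))
      have e2 : emb e ≠ j := fun h => hcon.2 (emb.injective (h.trans hb.symm))
      simp [e1, e2] at h5)
    have h5 := congrFun h4 a
    simp only [ha, Pi.zero_apply] at h5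
    exact mul_ne_zero hi (sg_ne_zero hσ' a) h5
  nosol i j k hij hik hjk h hsol := by
    have hσ' : (σ : ℝ) = 1 ∨ (σ : ℝ) = -1 := by
      rcases hσ with rfl | rfl
      · left; norm_num
      · right; norm_num
    set c : Fin n → ℝ := Pi.single i 1 + Pi.single j 1 - (σ : ℝ) • Pi.single k 1 with hc
    obtain ⟨h2, h3⟩ := of_base_eq_zero (σ : ℝ) emb c (fun θ => by
      rw [hc, sum_form3, h, sub_self])
    have hi : c i ≠ 0 := by
      simp [hc, Pi.single_eq_of_ne hij, Pi.single_eq_of_ne hik]
    obtain ⟨a, ha⟩ : ∃ a, emb a = i := by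
      by_contra h; push Not at h; exact hi (h2 i h)
    have hsupp : {l | c l ≠ 0}.ncard ≤ 4 := by
      calc _ ≤ ({i, j, k} : Set (Fin n)).ncard := by
            apply Set.ncard_le_ncard _ (Set.toFinite _)
            intro l hl
            by_contra hcon
            simp only [Set.mem_insert_iff, Set.mem_singleton_iff, not_or] at hcon
            apply hl
            simp [hc, Pi.single_eq_of_ne hcon.1, Pi.single_eq_of_ne hcon.2.1,
              Pi.single_eq_of_ne hcon.2.2]
        _ ≤ 3 := by
            have := Set.ncard_insert_le i ({j, k} : Set (Fin n))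
            have := Set.ncard_insert_le j ({k} : Set (Fin n))
            have := Set.ncard_singleton k
            omega
        _ ≤ 4 := by norm_num
    have hcard := card_filter_le emb c (sg Γ σ) 4 hsupp
    have hnz : (fun e => c (emb e) * sg Γ σ e) ≠ 0 := by
      intro h
      have h5 := congrFun h a
      simp only [ha, Pi.zero_apply] at h5
      exact mul_ne_zero hi (sg_ne_zero hσ' a) h5
    have h6 := P.ne_zero h3 hcard hnz
    rw [← sum_zed, hc, sum_form3] at h6
    exact h6 (sub_eq_zero.2 hsol)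
  sol t := by
    have hσ2 : (σ : ℝ) * σ = 1 := by
      rcases hσ with rfl | rfl <;> norm_num
    have hcoln : ∀ k k', k ≠ k' → emb (Γ.edge t k) ≠ emb (Γ.edge t k') := by
      intro k k' hk h
      have := emb.injective h
      have h1 := Γ.edge_col t k
      rw [this, Γ.edge_col] at h1
      exact hk h1.symm
    have n0 := Γ.edge_next t 0
    have n1 := Γ.edge_next t 1
    have n2 := Γ.edge_next t 2
    rw [show (0 + 1 : ZMod 3) = 1 by decide] at n0
    rw [show (1 + 1 : ZMod 3) = 2 by decide] at n1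
    rw [show (2 + 1 : ZMod 3) = 0 by decide] at n2
    refine ⟨emb (Γ.edge t 0), emb (Γ.edge t 1), emb (Γ.edge t 2), hcoln _ _ (by decide),
      hcoln _ _ (by decide), hcoln _ _ (by decide), ?_, ?_⟩
    · intro θ
      simp only [base_edge, sg, Γ.edge_col, if_true, n0, n1, n2]
      rw [if_neg (by decide), if_neg (by decide)]
      linear_combination (θ (Sum.inl ⟨Γ.src (Γ.edge t 2), src_mem _⟩) -
        θ (Sum.inl ⟨Γ.src (Γ.edge t 0), src_mem _⟩)) * hσ2
    · have hz := P.zero t
      unfold TGraph.tau at hz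
      have h3 : (Finset.univ : Finset (ZMod 3)) = {0, 1, 2} := by decide
      rw [h3, Finset.sum_insert (by decide), Finset.sum_insert (by decide),
        Finset.sum_singleton] at hz
      simp only [zed, emb.injective.extend_apply, sg, Γ.edge_col, if_true, Option.elim]
      rw [if_neg (by decide), if_neg (by decide)]
      linear_combination hz + P.wt t (Γ.edge t 2) * hσ2
  good pos S hS := by
    have hσ' : (σ : ℝ) = 1 ∨ (σ : ℝ) = -1 := by
      rcases hσ with rfl | rfl
      · left; norm_num
      · right; norm_num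
    exact good_four P emb hσ' pos S hS

end Pool.Agent.FourLin
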