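import Pool.Agent.FourLin.FourFrame

/-!
The adversary for questions about three input numbers.
-/

set_option linter.unusedSectionVars false
set_option linter.unusedSimpArgs false

namespace Pool.Agent.FourLin

open Finset Filter

/-- The positions of the numbers `a i`, `b j` and `c k`. -/
abbrev Idx (m : ℕ) : Type := (Fin m ⊕ Fin m) ⊕ Fin (2 * m)

variable {m n : ℕ}

/-- The numbers `a i = α + i δ`, `b j = β + j δ`, `c k = σ (α + β + k δ)`. -/
def val3 (σ : ℝ) (α β δ : ℝ) : Idx m → ℝ
  | Sum.inl (Sum.inl i) => α + i * δ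
  | Sum.inl (Sum.inr j) => β + j * δ
  | Sum.inr k => σ * (α + β + k * δ)

/-- The perturbations. -/
def per3 (σ : ℝ) : Option (Fin m × Fin m) → Idx m → ℝ
  | none, Sum.inl (Sum.inl i) => (i : ℝ) ^ 2
  | none, Sum.inl (Sum.inr j) => (j : ℝ) ^ 2
  | none, Sum.inr _ => -σ
  | some t, Sum.inl (Sum.inl i) => ((i : ℝ) - t.1) ^ 2
  | some t, Sum.inl (Sum.inr j) => ((j : ℝ) - t.2) ^ 2
  | some _, Sum.inr _ => 0

/-- The base points. -/
noncomputable def base3 (σ : ℝ) (emb : Idx m ↪ Fin n) :
    (Fin 3 ⊕ Fin n → ℝ) →ₗ[ℝ] (Fin n → ℝ) where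
  toFun θ := Function.extend emb
    (val3 σ (θ (Sum.inl 0)) (θ (Sum.inl 1)) (θ (Sum.inl 2))) (fun j => θ (Sum.inr j))
  map_add' θ θ' := by
    funext j
    by_cases hj : ∃ e, emb e = j
    · obtain ⟨e, rfl⟩ := hj
      simp only [Pi.add_apply, emb.injective.extend_apply]
      rcases e with (i | i) | i <;> simp only [val3] <;> ring
    · simp only [Pi.add_apply, Function.extend_apply' _ _ _ hj]
  map_smul' r θ := by
    funext j
    by_cases hj : ∃ e, emb e = j
    · obtain ⟨e, rfl⟩ := hj
      simp only [Pi.smul_apply, emb.injective.extend_apply, RingHom.id_apply, smul_eq_mul]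
      rcases e with (i | i) | i <;> simp only [val3] <;> ring
    · simp only [Pi.smul_apply, Function.extend_apply' _ _ _ hj, RingHom.id_apply, smul_eq_mul]

lemma base3_apply (σ : ℝ) (emb : Idx m ↪ Fin n) (θ : Fin 3 ⊕ Fin n → ℝ) (j : Fin n) :
    base3 σ emb θ j = Function.extend emb
      (val3 σ (θ (Sum.inl 0)) (θ (Sum.inl 1)) (θ (Sum.inl 2))) (fun j => θ (Sum.inr j)) j := rfl

lemma base3_emb (σ : ℝ) (emb : Idx m ↪ Fin n) (θ : Fin 3 ⊕ Fin n → ℝ) (e : Idx m) :
    base3 σ emb θ (emb e) = val3 σ (θ (Sum.inl 0)) (θ (Sum.inl 1)) (θ (Sum.inl 2)) e := by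
  rw [base3_apply, emb.injective.extend_apply]

/-- The perturbations of the inputs. -/
noncomputable def zed3 (σ : ℝ) (emb : Idx m ↪ Fin n) (o : Option (Fin m × Fin m)) : Fin n → ℝ :=
  Function.extend emb (per3 σ o) 0

lemma zed3_emb (σ : ℝ) (emb : Idx m ↪ Fin n) (o : Option (Fin m × Fin m)) (e : Idx m) :
    zed3 σ emb o (emb e) = per3 σ o e := by
  rw [zed3, emb.injective.extend_apply]

lemma sum_zed3 (σ : ℝ) (emb : Idx m ↪ Fin n) (o : Option (Fin m × Fin m)) (c : Fin n → ℝ) :
    ∑ j, c j * zed3 σ emb o j = ∑ e, c (emb e) * per3 σ o e := by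
  classical
  unfold zed3
  rw [sum_extend]
  simp only [Pi.zero_apply, mul_zero, Finset.sum_const_zero, add_zero]

lemma rel3 {σ : ℝ} {emb : Idx m ↪ Fin n} {c : Fin n → ℝ}
    (h : ∀ θ, ∑ j, c j * base3 σ emb θ j = 0) : (∀ j, (∀ e, emb e ≠ j) → c j = 0) ∧
      ∀ α β δ : ℝ, ∑ e, c (emb e) * val3 σ α β δ e = 0 := by
  classical
  have h' : ∀ θ : Fin 3 ⊕ Fin n → ℝ,
      ∑ e, c (emb e) * val3 σ (θ (Sum.inl 0)) (θ (Sum.inl 1)) (θ (Sum.inl 2)) e +
      ∑ j ∈ univ.filter (fun j => ∀ e, emb e ≠ j), c j * θ (Sum.inr j) = 0 := by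
    intro θ
    rw [← h θ]
    simp only [base3_apply]
    rw [sum_extend]
  have hv : ∀ e : Idx m, val3 σ 0 0 0 e = 0 := by
    rintro ((i | i) | i) <;> simp [val3]
  refine ⟨?_, ?_⟩
  · intro j hj
    have := h' (Sum.elim 0 (Pi.single j 1))
    simp only [Sum.elim_inl, Sum.elim_inr, Pi.zero_apply, hv, mul_zero,
      Finset.sum_const_zero, zero_add] at this
    rw [Finset.sum_eq_single j] at this
    · simpa using this
    · intro b _ hb
      simp [Pi.single_eq_of_ne hb]
    · intro hn
      exact absurd (by simpa using hj) hn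
  · intro α β δ
    have := h' (Sum.elim ![α, β, δ] 0)
    simpa using this

lemma count_zero {ι : Type*} [Fintype ι] {a : ι → ℝ} [DecidablePred (a · ≠ 0)]
    (h : (univ.filter (a · ≠ 0)).card = 0) : ∀ i, a i = 0 := by
  intro i
  by_contra hi
  rw [Finset.card_eq_zero, Finset.filter_eq_empty_iff] at h
  exact h (mem_univ i) hi

lemma count_one {ι : Type*} [Fintype ι] {a : ι → ℝ} [DecidablePred (a · ≠ 0)]
    (h : (univ.filter (a · ≠ 0)).card = 1) : ∃ i, a i ≠ 0 ∧ ∀ u : ι → ℝ, ∑ l, a l * u l =
      a i * u i := by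
  obtain ⟨i, hi⟩ := Finset.card_eq_one.1 h
  have h1 : i ∈ univ.filter (a · ≠ 0) := by rw [hi]; exact Finset.mem_singleton_self i
  refine ⟨i, (Finset.mem_filter.1 h1).2, fun u => ?_⟩
  apply Finset.sum_eq_single i
  · intro l _ hl
    have : a l = 0 := by
      by_contra h0
      have h2 : l ∈ univ.filter (a · ≠ 0) := Finset.mem_filter.2 ⟨mem_univ l, h0⟩
      rw [hi, Finset.mem_singleton] at h2
      exact hl h2
    rw [this, zero_mul]
  · intro h; exact absurd (mem_univ i) h

lemma count_ne_one {ι : Type*} [Fintype ι] {a : ι → ℝ} [DecidablePred (a · ≠ 0)]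
    (h : ∑ l, a l = 0) : (univ.filter (a · ≠ 0)).card ≠ 1 := by
  intro h1
  obtain ⟨i, hi, hu⟩ := count_one h1
  have := hu 1
  simp only [Pi.one_apply, mul_one] at this
  exact hi (this.symm.trans h)

lemma count_ne_zero {ι : Type*} [Fintype ι] {a : ι → ℝ} [DecidablePred (a · ≠ 0)]
    (h : ∑ l, a l ≠ 0) : (univ.filter (a · ≠ 0)).card ≠ 0 := by
  intro h1
  apply h
  apply Finset.sum_eq_zero
  intro i _
  exact count_zero h1 i

/-- Relations between three coordinates. -/
lemma classify3 {σ : ℝ} (hσ : σ = 1 ∨ σ = -1) {c : Idx m → ℝ} [DecidablePred (c · ≠ 0)]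
    (h : ∀ α β δ : ℝ, ∑ e, c e * val3 σ α β δ e = 0)
    (hcard : (univ.filter (c · ≠ 0)).card ≤ 3) :
    ((∀ t, ∑ e, c e * per3 σ (some t) e = ∑ e, c e * per3 σ none e) ∧ ∑ e, c e = 0) ∨
    ∃ (i j : Fin m) (k : Fin (2 * m)) (G : ℝ), (k : ℕ) = i + j ∧ G ≠ 0 ∧
      c (Sum.inl (Sum.inl i)) ≠ 0 ∧ c (Sum.inl (Sum.inr j)) ≠ 0 ∧ c (Sum.inr k) ≠ 0 ∧
      ∑ e, c e * per3 σ none e = - G * ((i : ℝ) ^ 2 + (j : ℝ) ^ 2 + 1) := by
  classical
  have hσ0 : σ ≠ 0 := by rcases hσ with rfl | rfl <;> norm_num
  have hσ2 : σ * σ = 1 := by rcases hσ with rfl | rfl <;> norm_num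
  set a : Fin m → ℝ := fun i => c (Sum.inl (Sum.inl i)) with ha
  set b : Fin m → ℝ := fun i => c (Sum.inl (Sum.inr i)) with hb
  set g : Fin (2 * m) → ℝ := fun i => c (Sum.inr i) with hg
  have hsplit : ∀ u : Idx m → ℝ, ∑ e, c e * u e = ∑ i, a i * u (Sum.inl (Sum.inl i)) +
      ∑ i, b i * u (Sum.inl (Sum.inr i)) + ∑ i, g i * u (Sum.inr i) := by
    intro u
    rw [Fintype.sum_sum_type, Fintype.sum_sum_type]
  have hcount : (univ.filter (c · ≠ 0)).card = (univ.filter (a · ≠ 0)).card +
      (univ.filter (b · ≠ 0)).card + (univ.filter (g · ≠ 0)).card := by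
    rw [Finset.card_filter, Fintype.sum_sum_type, Fintype.sum_sum_type, Finset.card_filter,
      Finset.card_filter, Finset.card_filter]
  rw [hcount] at hcard
  have r1 := h 1 0 0
  have r2 := h 0 1 0
  have r3 := h 0 0 1
  rw [hsplit] at r1 r2 r3
  simp only [val3, mul_zero, add_zero, zero_add, mul_one, Finset.sum_const_zero] at r1 r2 r3
  rw [← Finset.sum_mul] at r1 r2
  have r3' : ∑ i, a i * (i : ℝ) + ∑ i, b i * (i : ℝ) + (∑ i, g i * (i : ℝ)) * σ = 0 := by
    rw [Finset.sum_mul]
    rw [← r3]
    congr 1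
    apply Finset.sum_congr rfl
    intro i _
    ring
  by_cases hG : ∑ i, g i = 0
  · left
    have sa : ∑ i, a i = 0 := by
      rw [hG] at r1
      linarith
    have sb : ∑ i, b i = 0 := by
      rw [hG] at r2
      linarith
    have hall : ∑ e, c e = 0 := by
      have := hsplit 1
      simp only [Pi.one_apply, mul_one] at this
      rw [this, sa, sb, hG]
      ring
    refine ⟨?_, hall⟩
    have ca := count_ne_one sa
    have cb := count_ne_one sb
    have cg := count_ne_one hG
    have hsq : ∀ (f : Fin m → ℝ) (s : ℝ), ∑ i, f i = 0 → ∑ i, f i * (i : ℝ) = 0 →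
        ∑ i, f i * ((i : ℝ) - s) ^ 2 = ∑ i, f i * (i : ℝ) ^ 2 := by
      intro f s h1 h2
      have : ∀ i, f i * ((i : ℝ) - s) ^ 2 =
          f i * (i : ℝ) ^ 2 - 2 * s * (f i * (i : ℝ)) + s ^ 2 * f i := by
        intro i; ring
      simp only [this, Finset.sum_add_distrib, Finset.sum_sub_distrib, ← Finset.mul_sum]
      rw [h1, h2]
      ring
    intro t
    rw [hsplit, hsplit]
    simp only [per3]
    have hgs : ∑ i, g i * -σ = 0 := by
      rw [← Finset.sum_mul, hG, zero_mul]
    rw [hgs]
    simp only [mul_zero, Finset.sum_const_zero, add_zero]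
    have hcases : ((univ.filter (a · ≠ 0)).card = 0 ∧ (univ.filter (b · ≠ 0)).card = 0) ∨
        ((univ.filter (a · ≠ 0)).card = 0 ∧ (univ.filter (g · ≠ 0)).card = 0) ∨
        ((univ.filter (b · ≠ 0)).card = 0 ∧ (univ.filter (g · ≠ 0)).card = 0) := by omega
    rcases hcases with ⟨h1, h2⟩ | ⟨h1, h2⟩ | ⟨h1, h2⟩
    · simp only [count_zero h1, count_zero h2, zero_mul, Finset.sum_const_zero]
    · have z1 := count_zero h1
      have z2 := count_zero h2
      simp only [z1, z2, zero_mul, Finset.sum_const_zero, zero_add, add_zero] at r3' ⊢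
      exact hsq b _ sb r3'
    · have z1 := count_zero h1
      have z2 := count_zero h2
      simp only [z1, z2, zero_mul, Finset.sum_const_zero, zero_add, add_zero] at r3' ⊢
      exact hsq a _ sa r3'
  · right
    have sa : ∑ i, a i ≠ 0 := by
      intro h0
      rw [h0, zero_add] at r1
      exact mul_ne_zero hG hσ0 (by linarith)
    have sb : ∑ i, b i ≠ 0 := by
      intro h0
      rw [h0, zero_add] at r2
      exact mul_ne_zero hG hσ0 (by linarith)
    have ca := count_ne_zero sa
    have cb := count_ne_zero sb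
    have cg := count_ne_zero hG
    obtain ⟨i, hi, ui⟩ := count_one (a := a) (by omega)
    obtain ⟨j, hj, uj⟩ := count_one (a := b) (by omega)
    obtain ⟨k, hk, uk⟩ := count_one (a := g) (by omega)
    have ea : ∑ i, a i = a i := by
      have := ui 1
      simpa using this
    have eb : ∑ i, b i = b j := by
      have := uj 1
      simpa using this
    have eg : ∑ i, g i = g k := by
      have := uk 1
      simpa using this
    rw [ea, eg] at r1
    rw [eb, eg] at r2
    rw [ui (fun i => (i : ℝ)), uj (fun i => (i : ℝ)), uk (fun i => (i : ℝ))] at r3'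
    have fa : a i = - (g k * σ) := by linarith
    have fb : b j = - (g k * σ) := by linarith
    have hgs : g k * σ ≠ 0 := mul_ne_zero hk hσ0
    refine ⟨i, j, k, g k * σ, ?_, hgs, hi, hj, hk, ?_⟩
    · rw [fa, fb] at r3'
      have : g k * σ * ((k : ℝ) - (i + j)) = 0 := by linarith
      rcases mul_eq_zero.1 this with h0 | h0
      · exact absurd h0 hgs
      · have h1 : (k : ℝ) = i + j := by linarith
        exact_mod_cast h1
    · rw [hsplit]
      simp only [per3]
      rw [ui (fun i => (i : ℝ) ^ 2), uj (fun i => (i : ℝ) ^ 2), uk (fun _ => -σ), fa, fb]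
      ring

lemma good_three (emb : Idx m ↪ Fin n) {σ : ℝ} (hσ : σ = 1 ∨ σ = -1)
    (pos : Fin 3 → Fin n) (S : Finset (Fin m × Fin m))
    (hS : ∀ t ∈ S, ¬ ∃ c : ℝ, 0 < c ∧ ∃ ω : Fin 3 ⊕ Fin n → ℝ, ∀ i,
      zed3 σ emb (some t) (pos i) = c * zed3 σ emb none (pos i) + base3 σ emb ω (pos i)) :
    S.card ≤ 1 := by
  classical
  have hσ2 : σ * σ = 1 := by rcases hσ with rfl | rfl <;> norm_num
  by_cases hex : ∃ (i j : Fin m) (k : Fin (2 * m)), (k : ℕ) = i + j ∧
      emb (Sum.inl (Sum.inl i)) ∈ Set.range pos ∧ emb (Sum.inl (Sum.inr j)) ∈ Set.range pos ∧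
      emb (Sum.inr k) ∈ Set.range pos
  · obtain ⟨i, j, k, hk, hi', hj', hk'⟩ := hex
    refine le_trans (Finset.card_le_card (t := {(i, j)}) ?_) (by simp)
    intro t ht
    rw [Finset.mem_singleton]
    by_contra hne
    apply hS t ht
    have hpos : 0 < ((i : ℝ) - t.1) ^ 2 + ((j : ℝ) - t.2) ^ 2 := by
      by_contra hcon
      have g1 := sq_nonneg ((i : ℝ) - t.1)
      have g2 := sq_nonneg ((j : ℝ) - t.2)
      have h1 : ((i : ℝ) - t.1) ^ 2 = 0 := by linarith
      have h2 : ((j : ℝ) - t.2) ^ 2 = 0 := by linarith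
      have h3 : (i : ℝ) = t.1 := by
        have := pow_eq_zero_iff (two_ne_zero) |>.1 h1
        linarith
      have h4 : (j : ℝ) = t.2 := by
        have := pow_eq_zero_iff (two_ne_zero) |>.1 h2
        linarith
      apply hne
      apply Prod.ext
      · apply Fin.ext
        exact_mod_cast h3.symm
      · apply Fin.ext
        exact_mod_cast h4.symm
    have hden : 0 < (i : ℝ) ^ 2 + (j : ℝ) ^ 2 + 1 := by positivity
    refine ⟨(((i : ℝ) - t.1) ^ 2 + ((j : ℝ) - t.2) ^ 2) / ((i : ℝ) ^ 2 + (j : ℝ) ^ 2 + 1),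
      div_pos hpos hden, ?_⟩
    set c : ℝ := (((i : ℝ) - t.1) ^ 2 + ((j : ℝ) - t.2) ^ 2) / ((i : ℝ) ^ 2 + (j : ℝ) ^ 2 + 1)
      with hc
    have hU : ({emb (Sum.inl (Sum.inl i)), emb (Sum.inl (Sum.inr j)), emb (Sum.inr k)} :
        Finset (Fin n)) = univ.image pos := by
      apply Finset.eq_of_subset_of_card_le
      · intro l hl
        simp only [mem_insert, mem_singleton] at hl
        rw [Finset.mem_image]
        rcases hl with rfl | rfl | rfl
        · obtain ⟨x, hx⟩ := hi'
          exact ⟨x, mem_univ _, hx⟩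
        · obtain ⟨x, hx⟩ := hj'
          exact ⟨x, mem_univ _, hx⟩
        · obtain ⟨x, hx⟩ := hk'
          exact ⟨x, mem_univ _, hx⟩
      · rw [card_insert_of_notMem, card_insert_of_notMem, card_singleton]
        · refine le_trans Finset.card_image_le ?_
          simp
        · simp
        · simp
    obtain ⟨ω, hω⟩ := exists_omega (base3 σ emb) pos
      (fun l => zed3 σ emb (some t) l - c * zed3 σ emb none l) (by
        intro c' hc's hc'r
        have hsum : ∀ y : Fin n → ℝ, ∑ l, c' l * y l = c' (emb (Sum.inl (Sum.inl i))) *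
            y (emb (Sum.inl (Sum.inl i))) + (c' (emb (Sum.inl (Sum.inr j))) *
            y (emb (Sum.inl (Sum.inr j))) + c' (emb (Sum.inr k)) * y (emb (Sum.inr k))) := by
          intro y
          have : ∑ l, c' l * y l = ∑ l ∈ univ.image pos, c' l * y l := by
            symm
            apply Finset.sum_subset (Finset.subset_univ _)
            intro l _ hl
            rw [hc's l, zero_mul]
            rintro ⟨x, hx⟩
            exact hl (Finset.mem_image.2 ⟨x, mem_univ _, hx⟩)
          rw [this, ← hU, Finset.sum_insert, Finset.sum_insert, Finset.sum_singleton]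
          · simp
          · simp
        have r1 := hc'r (Sum.elim ![1, 0, 0] 0)
        have r2 := hc'r (Sum.elim ![0, 1, 0] 0)
        rw [hsum] at r1 r2 ⊢
        simp only [base3_emb, val3, Sum.elim_inl, Matrix.cons_val_zero, Matrix.cons_val_one,
          Matrix.cons_val, mul_zero, add_zero, zero_add, mul_one] at r1 r2
        simp only [zed3_emb, per3]
        have f1 : c' (emb (Sum.inl (Sum.inl i))) = - (c' (emb (Sum.inr k)) * σ) := by linarith
        have f2 : c' (emb (Sum.inl (Sum.inr j))) = - (c' (emb (Sum.inr k)) * σ) := by linarith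
        rw [f1, f2]
        have h5 : c * ((i : ℝ) ^ 2 + (j : ℝ) ^ 2 + 1) =
            ((i : ℝ) - t.1) ^ 2 + ((j : ℝ) - t.2) ^ 2 := by
          rw [hc]
          field_simp
        linear_combination (c' (emb (Sum.inr k)) * σ) * h5)
    exact ⟨ω, fun l => by have := hω l; linarith⟩
  · have : S = ∅ := by
      rw [Finset.eq_empty_iff_forall_notMem]
      intro t ht
      apply hS t ht
      refine ⟨1, one_pos, ?_⟩
      obtain ⟨ω, hω⟩ := exists_omega (base3 σ emb) pos
        (fun j => zed3 σ emb (some t) j - zed3 σ emb none j) (by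
          intro c hcs hcr
          obtain ⟨-, hrel⟩ := rel3 hcr
          have hcard : (univ.filter fun e => c (emb e) ≠ 0).card ≤ 3 := by
            refine le_trans (Finset.card_le_card ?_) (card_edges emb pos)
            intro e he
            rw [Finset.mem_filter] at he ⊢
            refine ⟨mem_univ _, ?_⟩
            by_contra hcon
            exact he.2 (hcs _ hcon)
          simp only [mul_sub, Finset.sum_sub_distrib]
          rw [sum_zed3, sum_zed3, sub_eq_zero]
          rcases classify3 hσ (c := fun e => c (emb e)) hrel hcard with ⟨h1, -⟩ |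
            ⟨i, j, k, G, hk, -, n1, n2, n3, -⟩
          · exact h1 t
          · exfalso
            apply hex
            refine ⟨i, j, k, hk, ?_, ?_, ?_⟩
            · by_contra hcon; exact n1 (hcs _ hcon)
            · by_contra hcon; exact n2 (hcs _ hcon)
            · by_contra hcon; exact n3 (hcs _ hcon))
      exact ⟨ω, fun i => by have := hω i; linarith⟩
    simp [this]

/-- The frame for questions about three input numbers. -/
noncomputable def threeFrame (emb : Idx m ↪ Fin n) {σ : ℤ} (hσ : σ = 1 ∨ σ = -1) :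
    Frame σ n 3 1 (Fin 3 ⊕ Fin n) (Fin m × Fin m) where
  Λ := base3 σ emb
  int θ := by
    have : ∀ i, ∃ l : ℤ, base3 (σ : ℝ) emb (fun j => (θ j : ℝ)) i = l := by
      intro i
      by_cases hi : ∃ e, emb e = i
      · obtain ⟨e, rfl⟩ := hi
        rw [base3_emb]
        rcases e with (i | i) | i
        · exact ⟨θ (Sum.inl 0) + i * θ (Sum.inl 2), by simp only [val3]; push_cast; ring⟩
        · exact ⟨θ (Sum.inl 1) + i * θ (Sum.inl 2), by simp only [val3]; push_cast; ring⟩
        · exact ⟨σ * (θ (Sum.inl 0) + θ (Sum.inl 1) + i * θ (Sum.inl 2)),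
            by simp only [val3]; push_cast; ring⟩
      · refine ⟨θ (Sum.inr i), ?_⟩
        rw [base3_apply, Function.extend_apply' _ _ _ hi]
    exact ⟨fun i => (this i).choose, fun i => (this i).choose_spec⟩
  z := zed3 σ emb
  zint o i := by
    by_cases hi : ∃ e, emb e = i
    · obtain ⟨e, rfl⟩ := hi
      rw [zed3_emb]
      rcases o with _ | t <;> rcases e with (i | i) | i
      · exact ⟨i ^ 2, by simp only [per3]; push_cast; ring⟩
      · exact ⟨i ^ 2, by simp only [per3]; push_cast; ring⟩
      · exact ⟨-σ, by simp only [per3]; push_cast; ring⟩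
      · exact ⟨((i : ℤ) - t.1) ^ 2, by simp only [per3]; push_cast; ring⟩
      · exact ⟨((i : ℤ) - t.2) ^ 2, by simp only [per3]; push_cast; ring⟩
      · exact ⟨0, by simp only [per3]; push_cast; ring⟩
    · refine ⟨0, ?_⟩
      unfold zed3
      rw [Function.extend_apply' _ _ _ hi]
      simp
  inj o i j hij h := by
    exfalso
    have hσ0 : (σ : ℝ) ≠ 0 := by rcases hσ with rfl | rfl <;> norm_num
    obtain ⟨h2, -⟩ := rel3 (σ := (σ : ℝ)) (emb := emb) (c := Pi.single i 1 - Pi.single j 1)
      (fun θ => by rw [sum_form2, h, sub_self])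
    have hi : (Pi.single i 1 - Pi.single j 1 : Fin n → ℝ) i ≠ 0 := by
      simp only [Pi.sub_apply, Pi.single_eq_same, Pi.single_eq_of_ne hij, sub_zero]
      exact one_ne_zero
    have hj : (Pi.single i 1 - Pi.single j 1 : Fin n → ℝ) j ≠ 0 := by
      simp only [Pi.sub_apply, Pi.single_eq_same, Pi.single_eq_of_ne (Ne.symm hij), zero_sub]
      norm_num
    obtain ⟨a, ha⟩ : ∃ a, emb a = i := by
      by_contra h; push Not at h; exact hi (h2 i h)
    obtain ⟨b, hb⟩ : ∃ b, emb b = j := by
      by_contra h; push Not at h; exact hj (h2 j h)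
    subst ha hb
    have hab : a ≠ b := fun h => hij (by rw [h])
    have r1 := h (Sum.elim ![1, 0, 0] 0)
    have r2 := h (Sum.elim ![0, 1, 0] 0)
    have r3 := h (Sum.elim ![0, 0, 1] 0)
    simp only [base3_emb, Sum.elim_inl, Matrix.cons_val_zero, Matrix.cons_val_one,
      Matrix.cons_val] at r1 r2 r3
    rcases a with (a | a) | a <;> rcases b with (b | b) | b <;> simp only [val3] at r1 r2 r3
    · have h4 : (a : ℝ) = b := by linarith
      have h5 : a = b := Fin.ext (by exact_mod_cast h4)
      exact hab (by rw [h5])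
    · linarith
    · exact hσ0 (by linarith)
    · linarith
    · have h4 : (a : ℝ) = b := by linarith
      have h5 : a = b := Fin.ext (by exact_mod_cast h4)
      exact hab (by rw [h5])
    · exact hσ0 (by linarith)
    · exact hσ0 (by linarith)
    · exact hσ0 (by linarith)
    · have h4 : (a : ℝ) = b := by
        apply mul_left_cancel₀ hσ0
        linarith
      have h5 : a = b := Fin.ext (by exact_mod_cast h4)
      exact hab (by rw [h5])
  nosol i j k hij hik hjk h hsol := by
    classical
    have hσ' : (σ : ℝ) = 1 ∨ (σ : ℝ) = -1 := by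
      rcases hσ with rfl | rfl
      · left; norm_num
      · right; norm_num
    set c : Fin n → ℝ := Pi.single i 1 + Pi.single j 1 - (σ : ℝ) • Pi.single k 1 with hc
    obtain ⟨h2, hrel⟩ := rel3 (σ := (σ : ℝ)) (emb := emb) (c := c)
      (fun θ => by rw [hc, sum_form3, h, sub_self])
    have hsupp : (univ.filter (c · ≠ 0)).card ≤ 3 := by
      calc _ ≤ ({i, j, k} : Finset (Fin n)).card := by
            apply Finset.card_le_card
            intro l hl
            by_contra hcon
            simp only [Finset.mem_insert, Finset.mem_singleton, not_or] at hcon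
            apply (Finset.mem_filter.1 hl).2
            simp [hc, Pi.single_eq_of_ne hcon.1, Pi.single_eq_of_ne hcon.2.1,
              Pi.single_eq_of_ne hcon.2.2]
        _ ≤ 3 := Finset.card_le_three
    have hcard : (univ.filter fun e => c (emb e) ≠ 0).card ≤ 3 := by
      rw [← Finset.card_map emb]
      refine le_trans (Finset.card_le_card ?_) hsupp
      intro l hl
      rw [Finset.mem_map] at hl
      obtain ⟨e, he, rfl⟩ := hl
      exact Finset.mem_filter.2 ⟨mem_univ _, (Finset.mem_filter.1 he).2⟩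
    rcases classify3 hσ' (c := fun e => c (emb e)) hrel hcard with ⟨-, h1⟩ |
      ⟨i', j', k', G, hk, hG, n1, n2, n3, hval⟩
    · have h3 : ∑ l, c l * (1 : Fin n → ℝ) l = 0 := by
        have h4 : ∀ l, (1 : Fin n → ℝ) l = Function.extend emb (fun _ => (1 : ℝ))
            (fun _ => (1 : ℝ)) l := by
          intro l
          by_cases hl : ∃ e, emb e = l
          · obtain ⟨e, rfl⟩ := hl
            rw [emb.injective.extend_apply]
            rfl
          · rw [Function.extend_apply' _ _ _ hl]
            rfl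
        simp only [h4]
        rw [sum_extend]
        simp only [mul_one]
        rw [h1, zero_add]
        apply Finset.sum_eq_zero
        intro l hl
        exact h2 l (Finset.mem_filter.1 hl).2
      rw [hc, sum_form3] at h3
      simp only [Pi.one_apply, mul_one] at h3
      rcases hσ' with h | h <;> rw [h] at h3 <;> norm_num at h3
    · have h3 : ∑ l, c l * zed3 (σ : ℝ) emb none l = 0 := by
        rw [hc, sum_form3]
        exact sub_eq_zero.2 hsol
      rw [sum_zed3, hval] at h3
      have h4 : (0 : ℝ) < (i' : ℝ) ^ 2 + (j' : ℝ) ^ 2 + 1 := by positivity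
      rcases mul_eq_zero.1 h3 with h5 | h5
      · exact hG (neg_eq_zero.1 h5)
      · exact h4.ne' h5
  sol t := by
    have hσ2 : (σ : ℝ) * σ = 1 := by
      rcases hσ with rfl | rfl <;> norm_num
    have hlt : (t.1 : ℕ) + t.2 < 2 * m := by
      have := t.1.2
      have := t.2.2
      omega
    refine ⟨emb (Sum.inl (Sum.inl t.1)), emb (Sum.inl (Sum.inr t.2)),
      emb (Sum.inr ⟨t.1 + t.2, hlt⟩), ?_, ?_, ?_, ?_, ?_⟩
    · intro h
      have := emb.injective h
      simp at this
    · intro h
      have := emb.injective h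
      simp at this
    · intro h
      have := emb.injective h
      simp at this
    · intro θ
      simp only [base3_emb, val3]
      push_cast
      linear_combination (-(θ (Sum.inl 0) + θ (Sum.inl 1) +
        ((t.1 : ℝ) + (t.2 : ℝ)) * θ (Sum.inl 2))) * hσ2
    · simp only [zed3_emb, per3]
      ring
  good pos S hS := by
    have hσ' : (σ : ℝ) = 1 ∨ (σ : ℝ) = -1 := by
      rcases hσ with rfl | rfl
      · left; norm_num
      · right; norm_num
    exact good_three emb hσ' pos S hS

end Pool.Agent.FourLin
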