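import Pool.Agent.FourLin.Final
import Pool.Agent.FourLin.FourFrame
import Pool.Agent.FourLin.Three

/-!
The lower bounds for polynomial questions about four, and about three, input numbers.
-/

namespace Pool.Agent.FourLin

/-- The lower bound for questions about four input numbers. -/
theorem main_local : ∃ N₀ : ℕ, ∀ n ≥ N₀, ∀ σ : ℤ, σ = 1 ∨ σ = -1 →
    ∀ (Ω : Type) [Fintype Ω] (E : ℝ) (μ : Ω → ℝ) (A : Ω → DTree n 4),
      LocalSolver σ n 4 E μ A →
      (n : ℝ) * (2 : ℝ) ^ (Real.sqrt (Real.logb 2 n) / 12) ≤ E := by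
  obtain ⟨N₀, hN₀⟩ := exists_large
  refine ⟨N₀, ?_⟩
  intro n hn σ hσ Ω _ E μ A h
  obtain ⟨X, I, T, i1, i2, i3, i4, Γ, P, hw, hwt, ⟨emb⟩, hT⟩ := hN₀ n hn
  have h1 := (fourFrame P hw hwt emb hσ).bound h
  push_cast at h1
  linarith

/-- The lower bound for questions about three input numbers. -/
theorem main_three (n : ℕ) (hn : 4 ≤ n) (σ : ℤ) (hσ : σ = 1 ∨ σ = -1)
    (Ω : Type) [Fintype Ω] (E : ℝ) (μ : Ω → ℝ) (A : Ω → DTree n 3)
    (h : LocalSolver σ n 3 E μ A) : (n : ℝ) ^ 2 / 192 ≤ E := by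
  obtain ⟨emb⟩ : Nonempty (Idx (n / 4) ↪ Fin n) := by
    apply Function.Embedding.nonempty_of_card_le
    simp only [Fintype.card_sum, Fintype.card_fin]
    omega
  have h1 := (threeFrame emb hσ).bound h
  simp only [Fintype.card_prod, Fintype.card_fin] at h1
  push_cast at h1
  have h2 : (n : ℝ) ≤ 8 * ((n / 4 : ℕ) : ℝ) := by
    have : n ≤ 8 * (n / 4) := by omega
    exact_mod_cast this
  have h3 : (0 : ℝ) ≤ n := Nat.cast_nonneg n
  nlinarith

end Pool.Agent.FourLin
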