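import Pool.Agent.FourLin.Final

/-!
The three-sum problem: superlinear lower bound for four-linear decision trees.
-/

namespace Pool.Agent.FourLin.FourLinearResult

open Pool.Agent.FourLin

/-- For all large `n`: a randomised linear decision procedure in which every question is the sign
of an affine form with real coefficients in at most four of the `n` input numbers, and which
decides three-sum on `n` distinct integers with error probability at most `1/3`, has expected
number of questions at least `n * 2 ^ (√(log₂ n) / 12)` on some input. Here `σ = 1` is the question
`a + b = c`, and `σ = -1` is the question `a + b + c = 0`. -/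
theorem result : ∃ N₀ : ℕ, ∀ n ≥ N₀, ∀ σ : ℝ, σ = 1 ∨ σ = -1 →
    ∀ (Ω : Type) [Fintype Ω] (E : ℝ) (μ : Ω → ℝ) (A : Ω → LTree n), Solver σ n 4 E μ A →
      (n : ℝ) * (2 : ℝ) ^ (Real.sqrt (Real.logb 2 n) / 12) ≤ E :=
  main

end Pool.Agent.FourLin.FourLinearResult
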