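import Pool.Agent.FourLin.FinalLocal

/-!
The three-sum problem: superlinear lower bound for decision trees with polynomial questions about
four input numbers.
-/

namespace Pool.Agent.Results.MP_13bec0_lc.FourLocal

open Pool.Agent.FourLin

/-- For all large `n`: a randomised decision procedure in which every question looks at four of
the `n` input numbers and is answered by the signs of finitely many real polynomials in these four
numbers (any number of polynomials, of any degree), and which decides three-sum on `n` distinct
integers with error probability at most `1/3`, has expected number of questions at least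
`n * 2 ^ (√(log₂ n) / 12)` on some input. Here `σ = 1` is the question `a + b = c`, and `σ = -1` is
the question `a + b + c = 0`. -/
theorem result : ∃ N₀ : ℕ, ∀ n ≥ N₀, ∀ σ : ℤ, σ = 1 ∨ σ = -1 →
    ∀ (Ω : Type) [Fintype Ω] (E : ℝ) (μ : Ω → ℝ) (A : Ω → DTree n 4),
      LocalSolver σ n 4 E μ A →
      (n : ℝ) * (2 : ℝ) ^ (Real.sqrt (Real.logb 2 n) / 12) ≤ E :=
  main_local

end Pool.Agent.Results.MP_13bec0_lc.FourLocal
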