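import Pool.Agent.FourLin.Ext

/-!
The coset geometry of three copies of a group in `G0 × Q × Q × Q`.
-/

set_option linter.unusedSectionVars false
set_option linter.unusedSimpArgs false

namespace Pool.Agent.FourLin

variable {F K V Z : Type*} [Field F] [Field K] [Algebra F K] [Group V] [AddCommGroup Z]
  [Module K Z]

/-- Three homomorphisms to a group with the same amalgamation pattern. -/
structure Tri (L : Loc F K V Z) (G0 : Type*) [Group G0] where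
  j0 : V →* G0
  j1 : V →* G0
  j2 : V →* G0
  h01 : ∀ x, j0 (L.aE x) = j1 (L.aE x)
  h02 : ∀ x, j0 (L.aF x) = j2 (L.aE x)
  h12 : ∀ x, j1 (L.aF x) = j2 (L.aF x)

namespace Loc

variable (L : Loc F K V Z) {G0 : Type*} [Group G0] (J : Tri L G0)

/-- The first copy. -/
def s0 : V →* G0 × QQ L × QQ L × QQ L :=
  J.j0.prod ((QQ.Lh L).prod (((QQ.Lh L).comp L.τ).prod (QQ.Hh L)))

/-- The second copy. -/
def s1 : V →* G0 × QQ L × QQ L × QQ L :=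
  J.j1.prod ((QQ.Rh L).prod ((QQ.Hh L).prod ((QQ.Lh L).comp L.τ)))

/-- The third copy. -/
def s2 : V →* G0 × QQ L × QQ L × QQ L :=
  J.j2.prod ((QQ.Hh L).prod ((QQ.Rh L).prod ((QQ.Rh L).comp L.τ)))

lemma LR_aE (x : F) : QQ.Lh L (L.aE x) = QQ.Rh L (L.aE x) := by
  ext <;> simp [L.εE_aE]

lemma LH_aF (x : F) : QQ.Lh L (L.aF x) = QQ.Hh L (L.aE x) := by
  ext
  · simp [L.εE_aE]
  · simp [L.εE_aF, L.εF_aE, L.aE_zero, L.aF_zero]
  · simp [L.w_aE]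

lemma RH_aF (x : F) : QQ.Rh L (L.aF x) = QQ.Hh L (L.aF x) := by
  ext
  · simp [L.εE_aF, L.aE_zero, L.aF_zero]
  · simp [L.εF_aF]
  · simp [L.w_aF]

lemma s01 (x : F) : L.s0 J (L.aE x) = L.s1 J (L.aE x) := by
  simp only [s0, s1, MonoidHom.prod_apply, MonoidHom.comp_apply, J.h01, L.τ_aE, L.LR_aE, L.LH_aF]

lemma s02 (x : F) : L.s0 J (L.aF x) = L.s2 J (L.aE x) := by
  simp only [s0, s2, MonoidHom.prod_apply, MonoidHom.comp_apply, J.h02, L.τ_aE, L.τ_aF, L.LR_aE,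
    L.LH_aF, L.RH_aF]

lemma s12 (x : F) : L.s1 J (L.aF x) = L.s2 J (L.aF x) := by
  simp only [s1, s2, MonoidHom.prod_apply, MonoidHom.comp_apply, J.h12, L.τ_aE, L.τ_aF, L.LR_aE,
    L.LH_aF, L.RH_aF]

lemma τ_eq_aE {g : V} {x : F} (h : L.τ g = L.aE x) : g = L.aF x := by
  rw [← L.τ_aF] at h
  exact L.τ_inj h

/-- The three subgroups. -/
def VV : ZMod 3 → Subgroup (G0 × QQ L × QQ L × QQ L) :=
  ![(L.s0 J).range, (L.s1 J).range, (L.s2 J).range]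

/-- The three one-parameter subgroups. -/
def aa : ZMod 3 → F → G0 × QQ L × QQ L × QQ L :=
  ![fun x => L.s0 J (L.aE x), fun x => L.s1 J (L.aF x), fun x => L.s0 J (L.aF x)]

/-- The three coordinates. -/
def XX : ZMod 3 → (G0 × QQ L × QQ L × QQ L) → F :=
  ![fun u => L.εE u.2.1.g, fun u => L.εF u.2.1.h, fun u => L.εF u.2.1.g]

lemma VV0 : L.VV J 0 = (L.s0 J).range := rfl
lemma VV1 : L.VV J 1 = (L.s1 J).range := rfl
lemma VV2 : L.VV J 2 = (L.s2 J).range := rfl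

lemma aa0 (x : F) : L.aa J 0 x = L.s0 J (L.aE x) := rfl
lemma aa1 (x : F) : L.aa J 1 x = L.s1 J (L.aF x) := rfl
lemma aa2 (x : F) : L.aa J 2 x = L.s0 J (L.aF x) := rfl

/-- The coset geometry. -/
def geo : CosetGeo F (G0 × QQ L × QQ L × QQ L) where
  V := L.VV J
  a := L.aa J
  a_add := by
    intro i x y
    fin_cases i
    · show L.s0 J _ = L.s0 J _ * L.s0 J _
      rw [L.aE_add, map_mul]
    · show L.s1 J _ = L.s1 J _ * L.s1 J _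
      rw [L.aF_add, map_mul]
    · show L.s0 J _ = L.s0 J _ * L.s0 J _
      rw [L.aF_add, map_mul]
  mem_iff := by
    intro i u
    fin_cases i
    · show (u ∈ (L.s0 J).range ∧ u ∈ (L.s1 J).range) ↔ ∃ x, L.s0 J (L.aE x) = u
      constructor
      · rintro ⟨⟨g, rfl⟩, ⟨h, hh⟩⟩
        have h1 := congrArg (fun v => v.2.1.g) hh
        exact ⟨_, congrArg (L.s0 J) h1⟩
      · rintro ⟨x, rfl⟩
        exact ⟨⟨_, rfl⟩, ⟨_, (L.s01 J x).symm⟩⟩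
    · show (u ∈ (L.s1 J).range ∧ u ∈ (L.s2 J).range) ↔ ∃ x, L.s1 J (L.aF x) = u
      constructor
      · rintro ⟨⟨g, rfl⟩, ⟨h, hh⟩⟩
        have h1 := congrArg (fun v => v.2.2.2.g) hh
        exact ⟨_, congrArg (L.s1 J) (L.τ_eq_aE h1.symm).symm⟩
      · rintro ⟨x, rfl⟩
        exact ⟨⟨_, rfl⟩, ⟨_, (L.s12 J x).symm⟩⟩
    · show (u ∈ (L.s2 J).range ∧ u ∈ (L.s0 J).range) ↔ ∃ x, L.s0 J (L.aF x) = u
      constructor
      · rintro ⟨⟨g, rfl⟩, ⟨h, hh⟩⟩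
        have h1 := congrArg (fun v => v.2.2.1.h) hh
        exact ⟨_, (L.s02 J _).trans (congrArg (L.s2 J) h1)⟩
      · rintro ⟨x, rfl⟩
        exact ⟨⟨_, (L.s02 J x).symm⟩, ⟨_, rfl⟩⟩
  two := by
    intro i
    fin_cases i
    · show ∀ p ∈ (L.s0 J).range, ∀ q ∈ (L.s1 J).range, ∀ r ∈ (L.s0 J).range,
        ∀ s ∈ (L.s1 J).range, p * q * r * s = 1 → p ∈ (L.s1 J).range ∨ q ∈ (L.s0 J).range ∨
          r ∈ (L.s1 J).range ∨ s ∈ (L.s0 J).range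
      rintro _ ⟨g, rfl⟩ _ ⟨h, rfl⟩ _ ⟨g', rfl⟩ _ ⟨h', rfl⟩ heq
      have h1 : QQ.Lh L g * QQ.Rh L h * QQ.Lh L g' * QQ.Rh L h' = 1 :=
        congrArg (fun v => v.2.1) heq
      have h2 : QQ.Lh L g * QQ.Rh L h = QQ.Rh L h'⁻¹ * QQ.Lh L g'⁻¹ := by
        rw [map_inv, map_inv, ← mul_inv_rev, eq_inv_iff_mul_eq_one, ← mul_assoc]
        exact h1
      rcases QQ.Q1 h2 with h3 | h3
      · left
        exact ⟨_, (L.s01 J _).symm.trans (congrArg (L.s0 J) (L.eq_aE _ h3).symm)⟩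
      · right; left
        exact ⟨_, (L.s01 J _).trans (congrArg (L.s1 J) (L.eq_aE _ h3).symm)⟩
    · show ∀ p ∈ (L.s1 J).range, ∀ q ∈ (L.s2 J).range, ∀ r ∈ (L.s1 J).range,
        ∀ s ∈ (L.s2 J).range, p * q * r * s = 1 → p ∈ (L.s2 J).range ∨ q ∈ (L.s1 J).range ∨
          r ∈ (L.s2 J).range ∨ s ∈ (L.s1 J).range
      rintro _ ⟨g, rfl⟩ _ ⟨h, rfl⟩ _ ⟨g', rfl⟩ _ ⟨h', rfl⟩ heq
      have h1 : QQ.Lh L (L.τ g) * QQ.Rh L (L.τ h) * QQ.Lh L (L.τ g') * QQ.Rh L (L.τ h') = 1 :=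
        congrArg (fun v => v.2.2.2) heq
      have h2 : QQ.Lh L (L.τ g) * QQ.Rh L (L.τ h) =
          QQ.Rh L (L.τ h')⁻¹ * QQ.Lh L (L.τ g')⁻¹ := by
        rw [map_inv, map_inv, ← mul_inv_rev, eq_inv_iff_mul_eq_one, ← mul_assoc]
        exact h1
      rcases QQ.Q1 h2 with h3 | h3
      · left
        exact ⟨_, (L.s12 J _).symm.trans (congrArg (L.s1 J) (L.τ_eq_aE (L.eq_aE _ h3)).symm)⟩
      · right; left
        exact ⟨_, (L.s12 J _).trans (congrArg (L.s2 J) (L.τ_eq_aE (L.eq_aE _ h3)).symm)⟩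
    · show ∀ p ∈ (L.s2 J).range, ∀ q ∈ (L.s0 J).range, ∀ r ∈ (L.s2 J).range,
        ∀ s ∈ (L.s0 J).range, p * q * r * s = 1 → p ∈ (L.s0 J).range ∨ q ∈ (L.s2 J).range ∨
          r ∈ (L.s0 J).range ∨ s ∈ (L.s2 J).range
      rintro _ ⟨g, rfl⟩ _ ⟨h, rfl⟩ _ ⟨g', rfl⟩ _ ⟨h', rfl⟩ heq
      have h1 : QQ.Rh L g * QQ.Lh L (L.τ h) * QQ.Rh L g' * QQ.Lh L (L.τ h') = 1 :=
        congrArg (fun v => v.2.2.1) heq
      have h2 : QQ.Lh L (L.τ h) * QQ.Rh L g' =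
          QQ.Rh L g⁻¹ * QQ.Lh L (L.τ h')⁻¹ := by
        rw [map_inv, map_inv, eq_inv_mul_iff_mul_eq, ← mul_inv_eq_one, inv_inv, ← mul_assoc]
        exact h1
      rcases QQ.Q1 h2 with h3 | h3
      · right; left
        exact ⟨_, (L.s02 J _).symm.trans (congrArg (L.s0 J) (L.τ_eq_aE (L.eq_aE _ h3)).symm)⟩
      · right; right; left
        exact ⟨_, (L.s02 J _).trans (congrArg (L.s2 J) (L.eq_aE _ h3).symm)⟩
  four := by
    intro j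
    fin_cases j
    · show ∀ p ∈ (L.s2 J).range, ∀ q ∈ (L.s1 J).range, ∀ r ∈ (L.s0 J).range,
        ∀ s ∈ (L.s1 J).range, p * q * r * s = 1 → p ∈ (L.s1 J).range ∨ r ∈ (L.s1 J).range ∨
          (∃ x y, q = L.s1 J (L.aF x) * L.s0 J (L.aE y)) ∨
          (∃ x y, s = L.s0 J (L.aE x) * L.s1 J (L.aF y))
      rintro _ ⟨p, rfl⟩ _ ⟨q, rfl⟩ _ ⟨r, rfl⟩ _ ⟨s, rfl⟩ heq
      have h1 : QQ.Hh L p * QQ.Rh L q * QQ.Lh L r * QQ.Rh L s = 1 :=
        congrArg (fun v => v.2.1) heq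
      have h2 : QQ.Lh L r * QQ.Rh L s = QQ.Rh L q⁻¹ * QQ.Hh L p⁻¹ := by
        rw [map_inv, map_inv, ← mul_inv_rev, eq_inv_iff_mul_eq_one]
        have := congrArg (fun v => (QQ.Hh L p * QQ.Rh L q)⁻¹ * v * (QQ.Hh L p * QQ.Rh L q)) h1
        simpa [mul_assoc] using this
      rcases QQ.Q2 h2 with h3 | ⟨x, y, h3⟩
      · right; left
        exact ⟨_, (L.s01 J _).symm.trans (congrArg (L.s0 J) (L.eq_aE _ h3).symm)⟩
      · right; right; right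
        refine ⟨x, y, ?_⟩
        rw [h3, map_mul, L.s01]
    · show ∀ p ∈ (L.s0 J).range, ∀ q ∈ (L.s2 J).range, ∀ r ∈ (L.s1 J).range,
        ∀ s ∈ (L.s2 J).range, p * q * r * s = 1 → p ∈ (L.s2 J).range ∨ r ∈ (L.s2 J).range ∨
          (∃ x y, q = L.s0 J (L.aF x) * L.s1 J (L.aF y)) ∨
          (∃ x y, s = L.s1 J (L.aF x) * L.s0 J (L.aF y))
      rintro _ ⟨p, rfl⟩ _ ⟨q, rfl⟩ _ ⟨r, rfl⟩ _ ⟨s, rfl⟩ heq
      have h1 : QQ.Lh L (L.τ p) * QQ.Rh L q * QQ.Hh L r * QQ.Rh L s = 1 :=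
        congrArg (fun v => v.2.2.1) heq
      have h2 : QQ.Lh L (L.τ p) * QQ.Rh L q = QQ.Rh L s⁻¹ * QQ.Hh L r⁻¹ := by
        rw [map_inv, map_inv, ← mul_inv_rev, eq_inv_iff_mul_eq_one, ← mul_assoc]
        exact h1
      rcases QQ.Q2 h2 with h3 | ⟨x, y, h3⟩
      · left
        exact ⟨_, (L.s02 J _).symm.trans (congrArg (L.s0 J) (L.τ_eq_aE (L.eq_aE _ h3)).symm)⟩
      · right; right; left
        refine ⟨x, y, ?_⟩
        rw [h3, map_mul, L.s02, L.s12]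
    · show ∀ p ∈ (L.s1 J).range, ∀ q ∈ (L.s0 J).range, ∀ r ∈ (L.s2 J).range,
        ∀ s ∈ (L.s0 J).range, p * q * r * s = 1 → p ∈ (L.s0 J).range ∨ r ∈ (L.s0 J).range ∨
          (∃ x y, q = L.s0 J (L.aE x) * L.s0 J (L.aF y)) ∨
          (∃ x y, s = L.s0 J (L.aF x) * L.s0 J (L.aE y))
      rintro _ ⟨p, rfl⟩ _ ⟨q, rfl⟩ _ ⟨r, rfl⟩ _ ⟨s, rfl⟩ heq
      have h1 : QQ.Hh L p * QQ.Lh L (L.τ q) * QQ.Rh L r * QQ.Lh L (L.τ s) = 1 :=
        congrArg (fun v => v.2.2.1) heq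
      have h2 : QQ.Lh L (L.τ q) * QQ.Rh L r = QQ.Hh L p⁻¹ * QQ.Lh L (L.τ s)⁻¹ := by
        rw [map_inv, map_inv, eq_inv_mul_iff_mul_eq, ← mul_inv_eq_one, inv_inv, ← mul_assoc]
        exact h1
      rcases QQ.Q3 h2 with h3 | ⟨x, y, h3⟩
      · right; left
        exact ⟨_, (L.s02 J _).trans (congrArg (L.s2 J) (L.eq_aE _ h3).symm)⟩
      · right; right; left
        refine ⟨x, y, ?_⟩
        have h4 : q = L.aE x * L.aF y := by
          apply L.τ_inj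
          rw [h3, map_mul, L.τ_aE, L.τ_aF]
        rw [h4, map_mul]
  three := by
    show ∀ p ∈ (L.s1 J).range, ∀ q ∈ (L.s2 J).range, ∀ r ∈ (L.s0 J).range, p * q * r = 1 →
      ∃ x y, p = L.s0 J (L.aE x) * L.s1 J (L.aF y)
    rintro _ ⟨p, rfl⟩ _ ⟨q, rfl⟩ _ ⟨r, rfl⟩ heq
    have h1 : p * L.aF (L.εF q) * L.aE (L.εE r) = 1 := congrArg (fun v => v.2.1.h) heq
    have h2 : p = L.aE (-L.εE r) * L.aF (-L.εF q) := by
      rw [a_neg (a := fun (_ : ZMod 3) => L.aE) (fun _ => L.aE_add) 0,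
        a_neg (a := fun (_ : ZMod 3) => L.aF) (fun _ => L.aF_add) 0, ← mul_inv_rev,
        eq_inv_iff_mul_eq_one, ← mul_assoc]
      exact h1
    refine ⟨-L.εE r, -L.εF q, ?_⟩
    rw [h2, map_mul, L.s01]
  X := L.XX
  X_mul := by
    intro i g h
    fin_cases i
    · exact L.εE_mul _ _
    · exact L.εF_mul _ _
    · exact L.εF_mul _ _
  X_a := by
    intro i j x
    fin_cases i
    · fin_cases j
      · exact L.εE_aE x
      · show L.εE (L.aE (L.εE (L.aF x))) = 0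
        rw [L.εE_aE, L.εE_aF]
      · exact L.εE_aF x
    · fin_cases j
      · show L.εF (L.aE (L.εE (L.aE x))) = 0
        rw [L.εF_aE]
      · exact L.εF_aF x
      · show L.εF (L.aE (L.εE (L.aF x))) = 0
        rw [L.εF_aE]
    · fin_cases j
      · exact L.εF_aE x
      · show L.εF (L.aE (L.εE (L.aF x))) = 0
        rw [L.εF_aE]
      · exact L.εF_aF x

end Loc

end Pool.Agent.FourLin
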