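import Mathlib

/-!
Iterated limits, and the signs of polynomials along them.
-/

namespace Pool.Agent.FourLin

open Filter

/-- Vectors of large numbers of very different size: the last coordinate is large, and every other
coordinate is very large compared with the later ones. -/
def scale : (k : ℕ) → Filter (Fin k → ℝ)
  | 0 => ⊤
  | k + 1 => (scale k).bind fun a =>
      (atTop : Filter ℝ).map fun t => (Fin.cons t a : Fin (k + 1) → ℝ)

lemma eventually_scale_succ {k : ℕ} {p : (Fin (k + 1) → ℝ) → Prop} :
    (∀ᶠ a in scale (k + 1), p a) ↔ ∀ᶠ a in scale k, ∀ᶠ t in atTop, p (Fin.cons t a) := by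
  rw [scale, eventually_bind]
  simp only [eventually_map]

instance scale_neBot (k : ℕ) : (scale k).NeBot := by
  induction k with
  | zero => exact inferInstanceAs (NeBot (⊤ : Filter (Fin 0 → ℝ)))
  | succ k ih =>
    rw [neBot_iff, Ne, ← eventually_false_iff_eq_bot]
    intro h
    rw [eventually_scale_succ] at h
    obtain ⟨a, ha⟩ := h.exists
    obtain ⟨t, ht⟩ := ha.exists
    exact ht

lemma tendsto_scale_succ {k : ℕ} {S : (Fin k → ℝ) → (Fin k → ℝ)}
    (hS : Tendsto S (scale k) (scale k)) {r : (Fin k → ℝ) → ℝ → ℝ}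
    (hr : ∀ a, Tendsto (r a) atTop atTop) :
    Tendsto (fun b : Fin (k + 1) → ℝ =>
      (Fin.cons (r (Fin.tail b) (b 0)) (S (Fin.tail b)) : Fin (k + 1) → ℝ))
      (scale (k + 1)) (scale (k + 1)) := by
  intro p hp
  have hp' : ∀ᶠ a in scale (k + 1), p a := hp
  rw [eventually_scale_succ] at hp'
  show ∀ᶠ b in scale (k + 1), p _
  rw [eventually_scale_succ]
  filter_upwards [hS.eventually hp'] with a ha
  filter_upwards [(hr a).eventually ha] with t ht
  simpa using ht

lemma tendsto_scale (k : ℕ) (ω : Fin (k + 1) → ℝ) (h : -1 < ω (Fin.last k)) :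
    Tendsto (fun (a : Fin (k + 1) → ℝ) i => a i + a (Fin.last k) * ω i)
      (scale (k + 1)) (scale (k + 1)) := by
  induction k with
  | zero =>
    have := tendsto_scale_succ (k := 0) (S := id) tendsto_id
      (r := fun _ t => (1 + ω 0) * t) (fun a =>
        tendsto_id.const_mul_atTop (by
          have : (Fin.last 0 : Fin 1) = 0 := rfl
          rw [this] at h
          linarith))
    refine this.congr ?_
    intro b
    funext i
    have hi : i = 0 := Subsingleton.elim (α := Fin 1) i 0
    subst hi
    simp only [Fin.cons_zero]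
    have : (Fin.last 0 : Fin 1) = 0 := rfl
    rw [this]
    ring
  | succ k ih =>
    have := tendsto_scale_succ (ih (fun i => ω i.succ) (by rwa [Fin.succ_last]))
      (r := fun a t => t + a (Fin.last k) * ω 0)
      (fun a => tendsto_atTop_add_const_right _ _ tendsto_id)
    refine this.congr ?_
    intro b
    funext i
    refine Fin.cases ?_ (fun i => ?_) i
    · simp only [Fin.cons_zero, Fin.tail, Fin.succ_last]
    · simp only [Fin.cons_succ, Fin.tail, Fin.succ_last]

lemma exists_int {k : ℕ} {p : (Fin k → ℝ) → Prop} (h : ∀ᶠ a in scale k, p a) :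
    ∃ a : Fin k → ℤ, p fun i => (a i : ℝ) := by
  induction k with
  | zero =>
    obtain ⟨a, ha⟩ := h.exists
    have h0 : a = fun i => ((Fin.elim0 i : ℤ) : ℝ) := funext fun i => Fin.elim0 i
    exact ⟨fun i => Fin.elim0 i, h0 ▸ ha⟩
  | succ k ih =>
    rw [eventually_scale_succ] at h
    obtain ⟨a, ha⟩ := ih h
    obtain ⟨t, ht⟩ := (tendsto_intCast_atTop_atTop.eventually ha).exists
    refine ⟨Fin.cons t a, ?_⟩
    have h0 : (fun i => (((Fin.cons t a : Fin (k + 1) → ℤ) i : ℤ) : ℝ)) =
        Fin.cons (t : ℝ) (fun i => (a i : ℝ)) := by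
      funext i
      refine Fin.cases ?_ (fun i => ?_) i
      · rw [Fin.cons_zero, Fin.cons_zero]
      · rw [Fin.cons_succ, Fin.cons_succ]
    rw [h0]
    exact ht

lemma eventually_sign_eval (p : Polynomial ℝ) :
    ∀ᶠ t in atTop, SignType.sign (p.eval t) = SignType.sign p.leadingCoeff := by
  by_cases hd : 0 < p.degree
  · have h0 : p ≠ 0 := by
      rintro rfl
      simp at hd
    have hl : p.leadingCoeff ≠ 0 := Polynomial.leadingCoeff_ne_zero.2 h0
    rcases lt_or_gt_of_ne hl with h | h
    · have := p.tendsto_atBot_of_leadingCoeff_nonpos hd h.le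
      filter_upwards [this.eventually_lt_atBot 0] with t ht
      rw [sign_neg h, sign_neg ht]
    · have := p.tendsto_atTop_of_leadingCoeff_nonneg hd h.le
      filter_upwards [this.eventually_gt_atTop 0] with t ht
      rw [sign_pos h, sign_pos ht]
  · have h : p = Polynomial.C (p.coeff 0) := Polynomial.eq_C_of_degree_le_zero (not_lt.1 hd)
    refine Eventually.of_forall fun t => ?_
    rw [h, Polynomial.eval_C, Polynomial.leadingCoeff_C]

/-- A polynomial has a constant sign along the iterated limit, which is not zero if the polynomial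
is not zero. -/
theorem exists_sign {k : ℕ} (P : MvPolynomial (Fin k) ℝ) :
    ∃ s : SignType, (P ≠ 0 → s ≠ 0) ∧
      ∀ᶠ a in scale k, SignType.sign (MvPolynomial.eval a P) = s := by
  induction k with
  | zero =>
    obtain ⟨c, rfl⟩ := MvPolynomial.C_surjective (Fin 0) P
    refine ⟨SignType.sign c, fun h => ?_, ?_⟩
    · rw [Ne, sign_eq_zero_iff]
      rintro rfl
      exact h (map_zero _)
    · simp
  | succ k ih =>
    by_cases hP : P = 0
    · subst hP
      exact ⟨0, fun h => absurd rfl h, by simp⟩
    · set Q := MvPolynomial.finSuccEquiv ℝ k P with hQ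
      have hQ0 : Q ≠ 0 := by
        rw [hQ, Ne, EmbeddingLike.map_eq_zero_iff]
        exact hP
      have hl : Q.leadingCoeff ≠ 0 := Polynomial.leadingCoeff_ne_zero.2 hQ0
      obtain ⟨s, hs, hev⟩ := ih Q.leadingCoeff
      refine ⟨s, fun _ => hs hl, ?_⟩
      rw [eventually_scale_succ]
      filter_upwards [hev] with a ha
      have hla : MvPolynomial.eval a Q.leadingCoeff ≠ 0 := by
        intro h0
        rw [h0, sign_zero] at ha
        exact hs hl ha.symm
      have hlc : (Polynomial.map (MvPolynomial.eval a) Q).leadingCoeff =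
          MvPolynomial.eval a Q.leadingCoeff :=
        Polynomial.leadingCoeff_map_of_leadingCoeff_ne_zero _ hla
      filter_upwards [eventually_sign_eval (Polynomial.map (MvPolynomial.eval a) Q)] with t ht
      rw [MvPolynomial.eval_eq_eval_mv_eval', ← hQ, ht, hlc, ha]

end Pool.Agent.FourLin
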