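import Mathlib

/-!
Decision trees for three-sum in which every question looks at a fixed number of the inputs and is
answered by the signs of finitely many polynomials in them: definitions.
-/

namespace Pool.Agent.FourLin

/-- Three pairwise distinct positions `i`, `j`, `k` with `x i + x j = σ * x k`. For `σ = 1` this is
the question whether `a + b = c` has a solution in three different elements of the input, and for
`σ = -1` whether `a + b + c = 0` has one. -/
def HasTriple {n : ℕ} (σ : ℤ) (x : Fin n → ℤ) : Prop :=
  ∃ i j k, i ≠ j ∧ i ≠ k ∧ j ≠ k ∧ x i + x j = σ * x k

/-- A question looks at the `s` input numbers at the positions `pos` and asks for the signs of the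
`m` polynomials `P 0, P 1, ...` in these numbers. The number `m` of polynomials and their degrees
are arbitrary, the coefficients are arbitrary real numbers. -/
structure Question (n s : ℕ) where
  pos : Fin s → Fin n
  m : ℕ
  P : Fin m → MvPolynomial (Fin s) ℝ

/-- The signs (negative, zero or positive) of the polynomials of the question on the input `x`. -/
noncomputable def Question.reply {n s : ℕ} (q : Question n s) (x : Fin n → ℤ) :
    Fin q.m → SignType :=
  fun j => SignType.sign (MvPolynomial.eval (fun i => (x (q.pos i) : ℝ)) (q.P j))

/-- A decision tree: at an inner node a question is asked and the tree continues according to its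
reply, a leaf gives the answer. -/
inductive DTree (n s : ℕ)
  | leaf (r : Bool) : DTree n s
  | node (q : Question n s) (next : (Fin q.m → SignType) → DTree n s) : DTree n s

/-- The answer of the tree on the input `x`. -/
noncomputable def DTree.answer {n s : ℕ} (x : Fin n → ℤ) : DTree n s → Bool
  | leaf r => r
  | node q next => (next (q.reply x)).answer x

/-- The number of questions which the tree asks on the input `x`. -/
noncomputable def DTree.cost {n s : ℕ} (x : Fin n → ℤ) : DTree n s → ℕ
  | leaf _ => 0
  | node q next => (next (q.reply x)).cost x + 1

/-- The tree gives the correct answer on the input `x`. -/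
def Correct {n s : ℕ} (σ : ℤ) (A : DTree n s) (x : Fin n → ℤ) : Prop :=
  A.answer x = true ↔ HasTriple σ x

open Classical in
/-- A randomised decision procedure, given by a probability distribution `μ` on a finite
family `A` of decision trees with questions about `s` input numbers. On every input of `n`
distinct integers the answer is correct with probability at least `2/3`, and the expected number
of questions is at most `E`. -/
def LocalSolver {Ω : Type} [Fintype Ω] (σ : ℤ) (n s : ℕ) (E : ℝ) (μ : Ω → ℝ)
    (A : Ω → DTree n s) : Prop :=
  (∀ ω, 0 ≤ μ ω) ∧ ∑ ω, μ ω = 1 ∧ ∀ x : Fin n → ℤ, Function.Injective x →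
    (2 / 3 ≤ ∑ ω, if Correct σ (A ω) x then μ ω else 0) ∧
      ∑ ω, μ ω * ((A ω).cost x : ℝ) ≤ E

end Pool.Agent.FourLin
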