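import Pool.Agent.FourLin.Iter

/-!
Inputs `x = Λ θ + M z` with `M` large and the coordinates of `θ` very large: signs of polynomials
in few coordinates.
-/

namespace Pool.Agent.FourLin

open Finset Filter

/-- The input attached to the parameters `a`, whose last coordinate is the scale of `z`. -/
noncomputable def pt {k n : ℕ} (Λ : (Fin k → ℝ) →ₗ[ℝ] (Fin n → ℝ)) (z : Fin n → ℝ)
    (a : Fin (k + 1) → ℝ) (i : Fin n) : ℝ :=
  Λ (fun j => a j.castSucc) i + a (Fin.last k) * z i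

/-- The coordinates of `pt` as polynomials in the parameters. -/
noncomputable def ptPoly {k n : ℕ} (Λ : (Fin k → ℝ) →ₗ[ℝ] (Fin n → ℝ)) (z : Fin n → ℝ)
    (i : Fin n) : MvPolynomial (Fin (k + 1)) ℝ :=
  ∑ j : Fin k, MvPolynomial.C (Λ (fun l => if j = l then 1 else 0) i) *
      MvPolynomial.X j.castSucc + MvPolynomial.C (z i) * MvPolynomial.X (Fin.last k)

lemma eval_ptPoly {k n : ℕ} (Λ : (Fin k → ℝ) →ₗ[ℝ] (Fin n → ℝ)) (z : Fin n → ℝ)
    (a : Fin (k + 1) → ℝ) (i : Fin n) : MvPolynomial.eval a (ptPoly Λ z i) = pt Λ z a i := by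
  unfold ptPoly pt
  rw [LinearMap.pi_apply_eq_sum_univ Λ]
  simp only [map_add, map_sum, map_mul, MvPolynomial.eval_C, MvPolynomial.eval_X,
    Finset.sum_apply, Pi.smul_apply, smul_eq_mul]
  congr 1
  · apply Finset.sum_congr rfl
    intro j _
    ring
  · ring

lemma pt_shift {k n : ℕ} (Λ : (Fin k → ℝ) →ₗ[ℝ] (Fin n → ℝ)) {z z' : Fin n → ℝ} {c : ℝ}
    {ω : Fin k → ℝ} {i : Fin n} (h : z i = c * z' i + Λ ω i) (a : Fin (k + 1) → ℝ) :
    pt Λ z a i = pt Λ z' (fun j => a j + a (Fin.last k) *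
      (Fin.snoc ω (c - 1) : Fin (k + 1) → ℝ) j) i := by
  unfold pt
  have h1 : (fun j : Fin k => a j.castSucc + a (Fin.last k) *
      (Fin.snoc ω (c - 1) : Fin (k + 1) → ℝ) j.castSucc) =
      (fun j => a j.castSucc) + a (Fin.last k) • ω := by
    funext j
    simp [Fin.snoc_castSucc]
  rw [h1, map_add, map_smul]
  simp only [Pi.add_apply, Pi.smul_apply, smul_eq_mul, Fin.snoc_last]
  rw [h]
  ring

lemma exists_point_fin {k n : ℕ} (Λ : (Fin k → ℝ) →ₗ[ℝ] (Fin n → ℝ))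
    (hΛ : ∀ θ : Fin k → ℤ, ∃ x : Fin n → ℤ, ∀ i, Λ (fun j => (θ j : ℝ)) i = (x i : ℝ))
    {O : Type*} [Finite O] (z : O → Fin n → ℝ) (hz : ∀ o i, ∃ m : ℤ, z o i = m) {s : ℕ}
    (Q : Set ((Fin s → Fin n) × MvPolynomial (Fin s) ℝ)) (hQ : Q.Finite)
    (C : Set (Fin n → ℝ)) (hC : C.Finite) :
    ∃ x : O → Fin n → ℤ,
      (∀ o, ∀ c : Fin n → ℝ, (∀ θ, ∑ i, c i * Λ θ i = 0) → ∑ i, c i * z o i = 0 →
        ∑ i, c i * (x o i : ℝ) = 0) ∧
      (∀ o, ∀ c ∈ C, ∑ i, c i * (x o i : ℝ) = 0 →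
        (∀ θ, ∑ i, c i * Λ θ i = 0) ∧ ∑ i, c i * z o i = 0) ∧
      ∀ q ∈ Q, ∀ o o', (∃ c : ℝ, 0 < c ∧ ∃ ω : Fin k → ℝ, ∀ i,
          z o (q.1 i) = c * z o' (q.1 i) + Λ ω (q.1 i)) →
        SignType.sign (MvPolynomial.eval (fun i => (x o (q.1 i) : ℝ)) q.2) =
          SignType.sign (MvPolynomial.eval (fun i => (x o' (q.1 i) : ℝ)) q.2) := by
  classical
  -- signs of the questions
  have hsign : ∀ (q : (Fin s → Fin n) × MvPolynomial (Fin s) ℝ) (o : O), ∃ S : SignType,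
      ∀ᶠ a in scale (k + 1),
        SignType.sign (MvPolynomial.eval (fun i => pt Λ (z o) a (q.1 i)) q.2) = S := by
    intro q o
    obtain ⟨S, -, hS⟩ := exists_sign (MvPolynomial.bind₁ (fun i => ptPoly Λ (z o) (q.1 i)) q.2)
    refine ⟨S, ?_⟩
    filter_upwards [hS] with a ha
    rw [← ha]
    congr 1
    rw [← MvPolynomial.coe_aeval_eq_eval, ← MvPolynomial.coe_aeval_eq_eval]
    simp only [RingHom.coe_coe, MvPolynomial.aeval_bind₁]
    congr 2
    funext i
    rw [← eval_ptPoly, ← MvPolynomial.coe_aeval_eq_eval]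
    rfl
  choose S hS using hsign
  have hSeq : ∀ q o o', (∃ c : ℝ, 0 < c ∧ ∃ ω : Fin k → ℝ, ∀ i,
      z o (q.1 i) = c * z o' (q.1 i) + Λ ω (q.1 i)) → S q o = S q o' := by
    rintro q o o' ⟨c, hc, ω, h⟩
    have hT := tendsto_scale k (Fin.snoc ω (c - 1) : Fin (k + 1) → ℝ) (by
      rw [Fin.snoc_last]
      linarith)
    obtain ⟨a, h1, h2⟩ := ((hS q o).and (hT.eventually (hS q o'))).exists
    rw [← h1, ← h2, funext fun i => pt_shift Λ (h i) a]
  -- the linear forms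
  have hlin : ∀ (o : O) (c : Fin n → ℝ), ∀ᶠ a in scale (k + 1),
      ∑ i, c i * pt Λ (z o) a i = 0 →
        (∀ θ, ∑ i, c i * Λ θ i = 0) ∧ ∑ i, c i * z o i = 0 := by
    intro o c
    set h : MvPolynomial (Fin (k + 1)) ℝ := ∑ i, MvPolynomial.C (c i) * ptPoly Λ (z o) i with hh
    have hev : ∀ a, MvPolynomial.eval a h = ∑ i, c i * pt Λ (z o) a i := by
      intro a
      simp only [hh, map_sum, map_mul, MvPolynomial.eval_C, eval_ptPoly]
    by_cases h0 : h = 0
    · refine Eventually.of_forall fun a _ => ⟨fun θ => ?_, ?_⟩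
      · have := hev (Fin.snoc θ 0)
        rw [h0, map_zero] at this
        rw [this]
        apply Finset.sum_congr rfl
        intro i _
        simp [pt, Fin.snoc_last, Fin.snoc_castSucc]
      · have := hev (Fin.snoc 0 1)
        rw [h0, map_zero] at this
        rw [this]
        apply Finset.sum_congr rfl
        intro i _
        have h1 : (fun j : Fin k => (Fin.snoc (0 : Fin k → ℝ) 1 : Fin (k + 1) → ℝ) j.castSucc) =
            0 := by
          funext j
          simp [Fin.snoc_castSucc]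
        unfold pt
        rw [h1, map_zero, Fin.snoc_last]
        simp
    · obtain ⟨S, hS, hev'⟩ := exists_sign h
      filter_upwards [hev'] with a ha h1
      rw [hev, h1, sign_zero] at ha
      exact absurd ha.symm (hS h0)
  have hall : ∀ᶠ a in scale (k + 1),
      (∀ q ∈ Q, ∀ o, SignType.sign (MvPolynomial.eval (fun i => pt Λ (z o) a (q.1 i)) q.2) =
        S q o) ∧
      ∀ o, ∀ c ∈ C, ∑ i, c i * pt Λ (z o) a i = 0 →
        (∀ θ, ∑ i, c i * Λ θ i = 0) ∧ ∑ i, c i * z o i = 0 := by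
    refine Eventually.and ?_ ?_
    · rw [eventually_all_finite hQ]
      intro q _
      rw [eventually_all]
      intro o
      exact hS q o
    · rw [eventually_all]
      intro o
      rw [eventually_all_finite hC]
      intro c _
      exact hlin o c
  obtain ⟨a, ha1, ha2⟩ := exists_int hall
  have hx : ∀ (o : O) (i : Fin n), ∃ m : ℤ, (m : ℝ) = pt Λ (z o) (fun j => (a j : ℝ)) i := by
    intro o i
    obtain ⟨x, hx⟩ := hΛ (fun j => a j.castSucc)
    obtain ⟨m, hm⟩ := hz o i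
    refine ⟨x i + a (Fin.last k) * m, ?_⟩
    unfold pt
    rw [hx, hm]
    push_cast
    ring
  choose x hx using hx
  refine ⟨x, ?_, ?_, ?_⟩
  · intro o c h1 h2
    simp only [hx, pt, mul_add, Finset.sum_add_distrib]
    rw [h1, zero_add]
    have : ∑ i, c i * ((a (Fin.last k) : ℝ) * z o i) =
        (a (Fin.last k) : ℝ) * ∑ i, c i * z o i := by
      rw [Finset.mul_sum]
      apply Finset.sum_congr rfl
      intro i _
      ring
    rw [this, h2, mul_zero]
  · intro o c hc h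
    simp only [hx] at h
    exact ha2 o c hc h
  · intro q hq o o' h
    simp only [hx]
    rw [ha1 q hq o, ha1 q hq o', hSeq q o o' h]

/-- Existence of integer inputs `x o` which follow the perturbations `z o`: a linear form from `C`
vanishes at `x o` only if it vanishes on the range of `Λ` and at `z o`, and if `z o` and `z o'`
agree on the positions of a question up to a positive factor and an element of the range of `Λ`,
then the question has the same answer on `x o` and `x o'`. -/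
theorem exists_point {J : Type*} [Fintype J] {n : ℕ} (Λ : (J → ℝ) →ₗ[ℝ] (Fin n → ℝ))
    (hΛ : ∀ θ : J → ℤ, ∃ x : Fin n → ℤ, ∀ i, Λ (fun j => (θ j : ℝ)) i = (x i : ℝ))
    {O : Type*} [Finite O] (z : O → Fin n → ℝ) (hz : ∀ o i, ∃ m : ℤ, z o i = m) {s : ℕ}
    (Q : Set ((Fin s → Fin n) × MvPolynomial (Fin s) ℝ)) (hQ : Q.Finite)
    (C : Set (Fin n → ℝ)) (hC : C.Finite) :
    ∃ x : O → Fin n → ℤ,
      (∀ o, ∀ c : Fin n → ℝ, (∀ θ, ∑ i, c i * Λ θ i = 0) → ∑ i, c i * z o i = 0 →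
        ∑ i, c i * (x o i : ℝ) = 0) ∧
      (∀ o, ∀ c ∈ C, ∑ i, c i * (x o i : ℝ) = 0 →
        (∀ θ, ∑ i, c i * Λ θ i = 0) ∧ ∑ i, c i * z o i = 0) ∧
      ∀ q ∈ Q, ∀ o o', (∃ c : ℝ, 0 < c ∧ ∃ ω : J → ℝ, ∀ i,
          z o (q.1 i) = c * z o' (q.1 i) + Λ ω (q.1 i)) →
        SignType.sign (MvPolynomial.eval (fun i => (x o (q.1 i) : ℝ)) q.2) =
          SignType.sign (MvPolynomial.eval (fun i => (x o' (q.1 i) : ℝ)) q.2) := by
  classical
  set e := Fintype.equivFin J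
  set Λ' : (Fin (Fintype.card J) → ℝ) →ₗ[ℝ] (Fin n → ℝ) :=
    Λ ∘ₗ LinearMap.funLeft ℝ ℝ e with hΛ'
  have hap : ∀ θ i, Λ' θ i = Λ (fun j => θ (e j)) i := fun θ i => rfl
  have hap' : ∀ (θ : J → ℝ) i, Λ θ i = Λ' (fun j => θ (e.symm j)) i := by
    intro θ i
    rw [hap]
    simp
  obtain ⟨x, h1, h2, h3⟩ := exists_point_fin Λ' (fun θ => by
    obtain ⟨x, hx⟩ := hΛ (fun j => θ (e j))
    exact ⟨x, fun i => by rw [hap, ← hx]⟩) z hz Q hQ C hC
  refine ⟨x, ?_, ?_, ?_⟩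
  · intro o c hc hc'
    exact h1 o c (fun θ => by simp only [hap]; exact hc _) hc'
  · intro o c hc h
    obtain ⟨g1, g2⟩ := h2 o c hc h
    exact ⟨fun θ => by simp only [hap']; exact g1 _, g2⟩
  · rintro q hq o o' ⟨c, hc, ω, h⟩
    exact h3 q hq o o' ⟨c, hc, fun j => ω (e.symm j), fun i => by rw [h i, hap']⟩

end Pool.Agent.FourLin
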